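import Pool.Agent.MU3.Base

/-!
# TWR: rigidity of weight two symbols in the direction of a prime `l = 2, 3` (problem MP_b78433_nt)

Twisted layers. Proof: helper22 (one page), recurrence: helper51 / helper34. A weight two symbol is
given by the function `W x = Φ(∞, x)` on `ℚ` with values in an `R`-module `M` (in the application
`R = V` a valuation ring of `ℂ` above `p`, `p ≥ 5`, `M = ℂ / {v < 1}`). The final statement is `S_TWR`: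
a finite family of even symbols `P i`, depleted at `l` (`∑_{k<l} P i ∞ (x + k/l) = 0`), with values
in a number field, such that for every `N'` some `P i ∞ (h ∞)`, `h ∈ Γ₁(N')`, is not in the maximal
ideal: for infinitely many `n`, for ALL `i`, all `j < a` and ALL even characters `ψ` of conductor
`l^(n+j)` the sum `∑_b ψ(b) P i ∞ (b/l^(n+j))` is not in the maximal ideal.

NOTATION. `l` prime, `m ≥ 1`, `q = l^m`. `z : ℤ → R` additive character modulo `q`, `z j = ζ^j`.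
`Tw q z W e x = ∑_{j<q} ζ^(e j) W(x + j/q)`. `StarAt l m z W n u`: `Tw q z W e (c/l^n) = 0` for all
`c, e` with `e c ≡ u` modulo `q` (`u` prime to `l`, so `c`, `e` are prime to `l`).

Module `XXX`: `theorem t_XXX : S_XXX` (or `M_XXX`: with other statements as hypotheses) in
`Pool/Agent/TWR/XXX.lean`.
-/

set_option autoImplicit false

namespace Pool.Agent.TWR

open Finset OnePoint

section Defs

variable {R M : Type} [CommRing R] [AddCommGroup M] [Module R M]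

/-- `z j = ζ^j`, `ζ^q = 1`, and `1 - ζ^j` is a unit if `q ∤ j`. -/
structure Chr (q : ℕ) (z : ℤ → R) : Prop where
  add : ∀ a b : ℤ, z (a + b) = z a * z b
  per : z q = 1
  un : ∀ j : ℤ, ¬ (q : ℤ) ∣ j → IsUnit (1 - z j)

/-- `W x = Φ(∞, x)` for a weight two symbol `Φ` for `Γ₀(N)` with character `χ`. -/
structure QM (N : ℕ) (χ : ℤ → R) (W : ℚ → M) : Prop where
  per : ∀ x : ℚ, W (x + 1) = W x
  one : χ 1 = 1
  chi : ∀ d d' : ℤ, (N : ℤ) ∣ d - d' → χ d = χ d'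
  eqv : ∀ a b c d : ℤ, a * d - b * c = 1 → (N : ℤ) ∣ c → c ≠ 0 → ∀ x : ℚ, (c : ℚ) * x + d ≠ 0 →
    W ((a * x + b) / (c * x + d)) = W ((a : ℚ) / c) + χ d • W x

/-- `Tw q z W e x = ∑_{j<q} ζ^(e j) W(x + j/q)` -/
def Tw (q : ℕ) (z : ℤ → R) (W : ℚ → M) (e : ℤ) (x : ℚ) : M :=
  ∑ j ∈ range q, z (e * j) • W (x + (j : ℚ) / q)

/-- the relations at level `n` with label `u` -/
def StarAt (l m : ℕ) (z : ℤ → R) (W : ℚ → M) (n : ℕ) (u : ℤ) : Prop :=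
  ∀ c e : ℤ, ((l ^ m : ℕ) : ℤ) ∣ e * c - u → Tw (l ^ m) z W e ((c : ℚ) / (l : ℚ) ^ n) = 0

end Defs

/-! ### 1. The operators `Tw` -/

/-- TWP (80 lines), elementary properties. Proof. `z` is multiplicative with `z 0 = 1` (`z q = z q * z 0`),
so `z (q k) = 1` for `k ∈ ℤ` (`z (-q) * z q = z 0`), so `z` has period `q`. A sum over `range q` of a
`q`-periodic function `F : ℤ → M` does not change under `j ↦ j + 1` and under `j ↦ t j` if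
`IsCoprime t q` (e.g. as a sum over `ZMod q`). (a) `W (x+1) = W x`. (b) `F j = z (e j) • W (x + j/q)` is
periodic; `Tw e (x + 1/q) = ∑ z (e j) • W (x + (j+1)/q) = z (-e) • ∑ z (e (j+1)) • W (x + (j+1)/q)`.
(c) `z (e j) = z (e' j)`. (d) the definition. -/
def S_TWP : Prop := ∀ (R M : Type) [CommRing R] [AddCommGroup M] [Module R M] (q : ℕ) (_ : q ≠ 0)
  (z : ℤ → R) (_ : Chr q z) (W : ℚ → M) (_ : ∀ x, W (x + 1) = W x),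
  z 0 = 1 ∧ (∀ a b : ℤ, (q : ℤ) ∣ a - b → z a = z b) ∧
  (∀ (F : ℤ → M) (_ : ∀ j, F (j + q) = F j) (t : ℤ), IsCoprime t (q : ℤ) →
    ∑ j ∈ range q, F (t * j) = ∑ j ∈ range q, F j) ∧
  (∀ (e n : ℤ) (x : ℚ), Tw q z W e (x + n) = Tw q z W e x) ∧
  (∀ (e : ℤ) (x : ℚ), Tw q z W e (x + 1 / q) = z (-e) • Tw q z W e x) ∧
  (∀ (e e' : ℤ) (x : ℚ), (q : ℤ) ∣ e - e' → Tw q z W e x = Tw q z W e' x) ∧
  (∀ (a e : ℤ) (x : ℚ), Tw q (fun j => z (a * j)) W e x = Tw q z W (a * e) x)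

/-- EQV (150 lines). Proof. For `j ∈ ℤ` let `a' = a + j c/q`, `d' = d - c j d²/q`,
`b' = b + (j d - j d² a)/q - j² d² c/q²` (integers: `q² ∣ c` and `j d (1 - a d) = - j d b c`). Then
`a' d' - b' c = 1`, `N ∣ c`, `d' ≡ d` modulo `N` (`N q ∣ c`), `c (x + j d²/q) + d' = c x + d ≠ 0` and
`(a x + b)/(c x + d) + j/q = (a' (x + j d²/q) + b')/(c (x + j d²/q) + d')`. So by `QM.eqv`
`W (g x + j/q) = W (a/c + j/q) + χ d • W (x + j d²/q)`. Sum with `z (e j)`: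
`Tw e (g x) = Tw e (a/c) + χ d • ∑_j z (e j) • W (x + j d²/q)`. In the last sum replace `j` by `a² j`
(`TWP`, third clause: `a` is prime to `q` because `a d - b c = 1`, `q ∣ c`): `z (e a² j)` and
`W (x + a² d² j/q) = W (x + j/q)` because `a² d² - 1 = (a d - 1)(a d + 1) = b c (a d + 1)` is divisible by
`q`. -/
def S_EQV : Prop := ∀ (R M : Type) [CommRing R] [AddCommGroup M] [Module R M] (q : ℕ) (_ : q ≠ 0)
  (z : ℤ → R) (_ : Chr q z) (N : ℕ) (χ : ℤ → R) (W : ℚ → M) (_ : QM N χ W) (e a b c d : ℤ)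
  (x : ℚ), a * d - b * c = 1 → ((N * q * q : ℕ) : ℤ) ∣ c → c ≠ 0 → (c : ℚ) * x + d ≠ 0 →
  Tw q z W e ((a * x + b) / (c * x + d)) = Tw q z W e ((a : ℚ) / c) + χ d • Tw q z W (e * a ^ 2) x

def M_EQV : Prop := S_TWP → S_EQV

/-- EDG (130 lines), the edges. Proof. `q = l^m`. Choose `b, d` with `A d - b C = 1`, and
`c' = d B - b D`, `x = c'/l^n`. Then `A c' + b l^n = B` and `C c' + d l^n = D` (insert
`l^n = A D - B C`), so `C x + d = D/l^n ≠ 0` and `(A x + b)/(C x + d) = B/D`. By `EQV`: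
`Tw e (B/D) = Tw e (A/C) + χ d • Tw (e A²) (c'/l^n)`. Modulo `q`: `A D = l^n + B C ≡ 0` (`n ≥ m`) and `A` is
a unit, so `D ≡ 0`, `c' ≡ d B`, `e A² c' ≡ e A B (A d) ≡ e A B ≡ u`: the last term is `0` by `StarAt`. -/
def S_EDG : Prop := ∀ (R M : Type) [CommRing R] [AddCommGroup M] [Module R M] (l m : ℕ)
  (_ : l.Prime) (z : ℤ → R) (_ : Chr (l ^ m) z) (N : ℕ) (χ : ℤ → R) (W : ℚ → M) (_ : QM N χ W)
  (n : ℕ) (u : ℤ) (_ : StarAt l m z W n u) (e A B C D : ℤ), m ≤ n →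
  ((N * l ^ m * l ^ m : ℕ) : ℤ) ∣ C → C ≠ 0 → D ≠ 0 → IsCoprime A C → A * D - B * C = l ^ n →
  ((l ^ m : ℕ) : ℤ) ∣ e * A * B - u →
  Tw (l ^ m) z W e ((B : ℚ) / D) = Tw (l ^ m) z W e ((A : ℚ) / C)

def M_EDG : Prop := S_EQV → S_EDG

/-! ### 2. Combinatorics and congruences -/

/-- REC (170 lines), recurrence. Proof. Let `I ≠ ∅` (otherwise the hypothesis is false), `s = card I`,
`w = m + a`. For `n ≥ n0 + s w` and `k ≤ s` choose `j_k < a`, `i_k`, `u_k` with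
`T (n - k w + j_k) i_k u_k`. Two of the `i_k` are equal, `k < k'`: with `e = n - k w + j_k`,
`e' = n - k' w + j_k'`: `e - e' ≥ w - (a - 1) ≥ m`, `e - e' ≤ s w + a`. So every `n ≥ n0 + s w` has a label
`(i, u, u', r, d)` (`r = n + a - e ≤ s w + a`, `m ≤ d ≤ s w + a`) in a finite set with `T (n + a - r) i u` and
`T (n + a - r - d) i u'`. LEMMA: `f : ℕ → α`, `α` finite, `K ∈ ℕ`: there is `n* ≥ K` such that for every
`q ≥ 1` there is `o ≥ 1`, `q ∣ o`, `f (n* + o) = f n*`. [Among all progressions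
`P = {n ≥ K : n ≡ c mod t}`, `t ≥ 1`, choose one for which the finite set `V(P)` of the values taken
infinitely often on `P` has the smallest number of elements; `V(P) ≠ ∅`. Let `n* ∈ P`, `f n* ∈ V(P)`. The
progression `P' = {n ≥ K : n ≡ n* mod t q}` is contained in `P`, so `V(P') ⊆ V(P)`, so equal, so
`f n* ∈ V(P')`.] Apply it to the label (on `n ≥ n0 + s w`), `K` large, and put `E + d = n* + a - r`. -/
def S_REC : Prop := ∀ (I U : Type) [Finite I] [Finite U] (T : ℕ → I → U → Prop) (a m n0 K : ℕ),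
  1 ≤ a → (∀ n, n0 ≤ n → ∃ j < a, ∃ i u, T (n + j) i u) →
  ∃ (E d : ℕ) (i : I) (u u' : U), K ≤ E ∧ m ≤ d ∧ d + m ≤ E ∧ T E i u' ∧ T (E + d) i u ∧
    ∀ q, 1 ≤ q → ∃ o, 1 ≤ o ∧ q ∣ o ∧ T (E + d + o) i u

/-- CRT (90 lines). Proof. The moduli `N0`, `l^m`, `δ` are pairwise coprime. `B0 = β l^E + u' δ` is prime to
`δ` (`β`, `l` are). By the Chinese remainder theorem there is `m1` with `N0 ∣ m1`,
`m1 ≡ u (u'² δ)⁻¹` modulo `l^m` (inverse modulo `l^m`, `u'`, `δ` are prime to `l`) and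
`m1 ≡ - l^d B0⁻¹` modulo `δ`. It is prime to `l` because `u` is and `m ≥ 1`. -/
def S_CRT : Prop := ∀ (l m N0 E d : ℕ) (β δ u u' : ℤ), l.Prime → 1 ≤ m → N0 ≠ 0 →
  IsCoprime (N0 : ℤ) (l : ℤ) → IsCoprime δ ((N0 : ℤ) * l) → IsCoprime β δ →
  IsCoprime u (l : ℤ) → IsCoprime u' (l : ℤ) →
  ∃ m1 : ℤ, (N0 : ℤ) ∣ m1 ∧ ((l ^ m : ℕ) : ℤ) ∣ m1 * (u' ^ 2 * δ) - u ∧
    δ ∣ m1 * (β * l ^ E + u' * δ) + l ^ d ∧ IsCoprime m1 (l : ℤ)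

/-- CST (50 lines). Proof. `H : ℤ → M` has the periods `P` and `T`, so all integer combinations of them,
so `gcd(P, T) = l^s` with `s ≤ r` (`P = l^k`, `T = l^t T0`, `T0` prime to `l`, `s ≤ t`), so `l^r`. So
`H s = H (s + l^r) = ζ • H s`, `(1 - ζ) • H s = 0`. -/
def S_CST : Prop := ∀ (R M : Type) [CommRing R] [AddCommGroup M] [Module R M] (l k t r : ℕ)
  (T0 : ℤ) (y : R) (H : ℤ → M), IsCoprime T0 (l : ℤ) → t ≤ r → IsUnit (1 - y) →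
  (∀ s, H (s + l ^ k) = H s) → (∀ s, H (s + l ^ t * T0) = H s) → (∀ s, H (s + l ^ r) = y • H s) →
  ∀ s, H s = 0

/-! ### 3. The main step -/

/-- KEY (260 lines). Proof. `q = l^m`, `N = l^v N0`. Fix `β`, `δ`. Let `m1` be as in `CRT`,
`B0 = β l^E + u' δ`, `D = δ l^E`, `B s = B0 + s q δ`, so `x_s := β/δ + (u' + s q)/l^E = B s/D`.
`H s := Tw q z W 1 x_s`. Periods: (i) `H (s + l^(E-m)) = H s` because `x_(s + l^(E-m)) = x_s + 1`.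
(ii) Let `A s = (m1 B0 + l^d)/δ + m1 s q`, `C = l^E m1 ≠ 0`. `N q q ∣ C` because `E ≥ v + 2m`, `N0 ∣ m1`.
`A s · D - B s · C = l^(E+d)`. `δ A s ≡ m1 B0 ≡ m1 u' δ` modulo `q` (`d ≥ m`, `E ≥ m`), so `A s ≡ m1 u'`,
`A s · B s ≡ m1 u' · u' δ ≡ u` modulo `q`; `A s` is prime to `l` and (by the determinant) to `C`. `EDG`
(`e = 1`, `n = E + d`): `H s = Tw 1 (A s/C)`. Choose `t ≥ 1` with `δ m1 ∣ l^t - 1` (`δ m1` is prime to
`l`) and (recurrence) `o ≥ 1`, `t ∣ o`, with `StarAt` at `E + d + o`; `T0 = (1 - l^o)/(δ m1)` (an integer,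
independent of `s`, prime to `l`), `T = l^(d-m) T0`. Then
`A s · D - B (s + T) · C = l^(E+d) - T q δ l^E m1 = l^(E+d) - l^(E+d) (1 - l^o) = l^(E+d+o)` and
`B (s + T) ≡ B s` modulo `q`: `EDG` with `n = E + d + o`: `H (s + T) = Tw 1 (A s/C) = H s`.
(iii) `x_(s + l^(E-2m)) = x_s + 1/q`: `H (s + l^(E-2m)) = z (-1) • H s` (`TWP`). As
`d - m ≤ E - 2m` and `1 - z (-1)` is a unit (`m ≥ 1`): `CST`. -/
def S_KEY : Prop := ∀ (R M : Type) [CommRing R] [AddCommGroup M] [Module R M] (l m : ℕ)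
  (_ : l.Prime) (_ : 1 ≤ m) (z : ℤ → R) (_ : Chr (l ^ m) z) (N0 v : ℕ) (_ : N0 ≠ 0)
  (_ : IsCoprime (N0 : ℤ) (l : ℤ)) (χ : ℤ → R) (W : ℚ → M) (_ : QM (l ^ v * N0) χ W)
  (E d : ℕ) (u u' : ℤ) (_ : v + 2 * m ≤ E) (_ : m ≤ d) (_ : d + m ≤ E)
  (_ : IsCoprime u (l : ℤ)) (_ : IsCoprime u' (l : ℤ))
  (_ : StarAt l m z W E u') (_ : StarAt l m z W (E + d) u)
  (_ : ∀ q, 1 ≤ q → ∃ o, 1 ≤ o ∧ q ∣ o ∧ StarAt l m z W (E + d + o) u),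
  ∀ β δ s : ℤ, δ ≠ 0 → IsCoprime δ ((N0 : ℤ) * l) → IsCoprime β δ →
    Tw (l ^ m) z W 1 ((β : ℚ) / δ + ((u' : ℚ) + s * (l : ℚ) ^ m) / (l : ℚ) ^ E) = 0

def M_KEY : Prop := S_TWP → S_EDG → S_CRT → S_CST → S_KEY

/-- CLO (170 lines). Proof. `q = l^m`, `K = E + m`. Let `g = (a b; c d1)`, `l^K N ∣ c`, `l^K N ∣ d1 - 1`,
so `a ≡ 1` modulo `l^K N`. `x = u'/l^E`, `c = l^E c'`, `δ' = c' u' + d1`, `R' = a u' + b l^E`:
`c x + d1 = δ' ≠ 0` (`δ' ≡ 1` modulo `l`), `g x = R'/(l^E δ')`. `δ' ≡ 1` modulo `q` and modulo `N0`, `R' ≡ u'` modulo `q`.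
Choose `s` with `(u' + s q) δ' ≡ R'` modulo `l^E` (`R' - u' δ' ≡ 0` modulo `q`, `δ'` is prime to `l`,
`E ≥ m`) and `β' = (R' - (u' + s q) δ')/l^E`: `g x = β'/δ' + (u' + s q)/l^E`.
`a δ' - c' R' = a d1 - b c = 1`, so `R'` and `δ'` are coprime, so `β'` and `δ'`. `KEY`: `Tw 1 (g x) = 0`.
`EQV` (`e = 1`): `Tw 1 (g x) = Tw 1 (a/c) + χ d1 • Tw (a²) x`, and `Tw (a²) x = 0` by `StarAt` at `E`
(`a² u' ≡ u'` modulo `q`). So `Tw 1 (a/c) = 0`. -/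
def S_CLO : Prop := ∀ (R M : Type) [CommRing R] [AddCommGroup M] [Module R M] (l m : ℕ)
  (_ : l.Prime) (_ : 1 ≤ m) (z : ℤ → R) (_ : Chr (l ^ m) z) (N0 v : ℕ) (_ : N0 ≠ 0)
  (_ : IsCoprime (N0 : ℤ) (l : ℤ)) (χ : ℤ → R) (W : ℚ → M) (_ : QM (l ^ v * N0) χ W)
  (E d : ℕ) (u u' : ℤ) (_ : v + 2 * m ≤ E) (_ : m ≤ d) (_ : d + m ≤ E)
  (_ : IsCoprime u (l : ℤ)) (_ : IsCoprime u' (l : ℤ))
  (_ : StarAt l m z W E u') (_ : StarAt l m z W (E + d) u)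
  (_ : ∀ q, 1 ≤ q → ∃ o, 1 ≤ o ∧ q ∣ o ∧ StarAt l m z W (E + d + o) u) (a b c d1 : ℤ),
  a * d1 - b * c = 1 → ((l ^ (E + m) * (l ^ v * N0) : ℕ) : ℤ) ∣ c →
  ((l ^ (E + m) * (l ^ v * N0) : ℕ) : ℤ) ∣ d1 - 1 → c ≠ 0 →
  Tw (l ^ m) z W 1 ((a : ℚ) / c) = 0

def M_CLO : Prop := S_TWP → S_EQV → S_KEY → S_CLO

/-- SUM (110 lines). Proof. (i) `e = l e'`, `j = j0 + l^(m-1) k`, `j0 < l^(m-1)`, `k < l`:
`z (e j) = z (e j0)` (`q ∣ l l^(m-1) e' k`) and `x + j/q = (x + j0/q) + k/l`: the sum over `k` is `0`.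
(ii) `∑_{e<q} Tw e x = ∑_{j<q} (∑_{e<q} z (e j)) • W (x + j/q)`; for `0 < j < q`
`(1 - z j) ∑_{e<q} z (e j) = 1 - z (q j) = 0`, so the inner sum is `0`; for `j = 0` it is `q`. -/
def S_SUM : Prop := ∀ (R M : Type) [CommRing R] [AddCommGroup M] [Module R M] (l m : ℕ)
  (_ : l.Prime) (_ : 1 ≤ m) (z : ℤ → R) (_ : Chr (l ^ m) z) (W : ℚ → M)
  (_ : ∀ x, W (x + 1) = W x) (_ : ∀ x : ℚ, ∑ k ∈ range l, W (x + (k : ℚ) / l) = 0),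
  (∀ (e : ℤ) (x : ℚ), (l : ℤ) ∣ e → Tw (l ^ m) z W e x = 0) ∧
  (∀ x : ℚ, ∑ e ∈ range (l ^ m), Tw (l ^ m) z W e x = ((l ^ m : ℕ) : R) • W x)

def M_SUM : Prop := S_TWP → S_SUM

/-- MOD (100 lines). Proof. Let `a/c` be as in the conclusion. For `e` prime to `l` apply `CLO` to
`z' j = z (e j)` and the labels `f u`, `f u'`, `e f ≡ 1` modulo `q`: `Tw z' g x = Tw z (e g) x` (`TWP`), so
`StarAt z' n (f u)` follows from `StarAt z n u` (`q ∣ g c - f u` implies `q ∣ (e g) c - u`), and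
`Tw z e (a/c) = Tw z' 1 (a/c) = 0`. For `l ∣ e` `SUM` (i). Then `SUM` (ii): `q • W (a/c) = 0`, and `q = l^m` is a
unit of `R`. -/
def S_MOD : Prop := ∀ (R M : Type) [CommRing R] [AddCommGroup M] [Module R M] (l m : ℕ)
  (_ : l.Prime) (_ : 1 ≤ m) (_ : IsUnit (l : R)) (z : ℤ → R) (_ : Chr (l ^ m) z) (N0 v : ℕ)
  (_ : N0 ≠ 0) (_ : IsCoprime (N0 : ℤ) (l : ℤ)) (χ : ℤ → R) (W : ℚ → M)
  (_ : QM (l ^ v * N0) χ W) (_ : ∀ x : ℚ, ∑ k ∈ range l, W (x + (k : ℚ) / l) = 0)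
  (E d : ℕ) (u u' : ℤ) (_ : v + 2 * m ≤ E) (_ : m ≤ d) (_ : d + m ≤ E)
  (_ : IsCoprime u (l : ℤ)) (_ : IsCoprime u' (l : ℤ))
  (_ : StarAt l m z W E u') (_ : StarAt l m z W (E + d) u)
  (_ : ∀ q, 1 ≤ q → ∃ o, 1 ≤ o ∧ q ∣ o ∧ StarAt l m z W (E + d + o) u) (a b c d1 : ℤ),
  a * d1 - b * c = 1 → ((l ^ (E + m) * (l ^ v * N0) : ℕ) : ℤ) ∣ c →
  ((l ^ (E + m) * (l ^ v * N0) : ℕ) : ℤ) ∣ d1 - 1 → c ≠ 0 → W ((a : ℚ) / c) = 0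

def M_MOD : Prop := S_TWP → S_CLO → S_SUM → S_MOD

/-! ### 4. From one character to the relations -/

/-- FRB (220 lines), Frobenius. Proof. `q0 = #(𝓞 K / P)`, `P = m_V ∩ 𝓞 K`, a power of `p`, and `q = q0²`;
`24 ∣ q - 1` because `p ≥ 5`. Let `ξ^n = 1`, `p ∤ n`, `L = K(ξ)`, a Galois number field over `K`, `Q = m_V ∩ 𝓞 L`, and
let `σ ∈ Gal(L/K)` be an arithmetic Frobenius at `Q` (`IsArithFrobAt.exists_of_isInvariant`):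
`σ y ≡ y^q0` modulo `Q` for `y ∈ 𝓞 L`. So `σ Q = Q`, and for `y ∈ L`: `v(y) < 1` implies `v(σ y) < 1` (`V ∩ L` is
the localisation of `𝓞 L` at `Q`: `y = y1/s`, `y1 ∈ Q`, `s ∈ 𝓞 L`, `s ∉ Q`; or: the valuation subrings
`V ∩ L` and `σ⁻¹ (V ∩ L)` have the same centre `Q` on `𝓞 L`). The `n`-th roots of unity are
different modulo `Q` (their differences divide `n`), so `σ ξ = ξ^q0`. Apply `σ` twice to
`∑ x_i ξ^i` (`σ x_i = x_i`). (`P` is a nonzero prime as `V` contains `p` in its maximal ideal;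
`#(𝓞 K/P)` is finite, a power of `p`.) -/
def S_FRB : Prop := ∀ (V : ValuationSubring ℂ) (p : ℕ) (_ : p.Prime) (_ : 5 ≤ p)
  (_ : V.valuation (p : ℂ) < 1) (K : IntermediateField ℚ ℂ) (_ : FiniteDimensional ℚ K),
  ∃ q : ℕ, 1 < q ∧ 24 ∣ q - 1 ∧ ∀ (n : ℕ) (_ : n ≠ 0) (_ : ¬ p ∣ n) (ξ : ℂ) (_ : ξ ^ n = 1)
    (x : ℕ → ℂ) (_ : ∀ i, x i ∈ K), V.valuation (∑ i ∈ range n, x i * ξ ^ i) < 1 →
    V.valuation (∑ i ∈ range n, x i * ξ ^ (q * i)) < 1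

/-- TRI (130 lines), the trace of a root of unity. `m` is the exact exponent of `l` in `q - 1`
(`l = 2`: `m ≥ 2`). Proof. If `η^(l^m) = 1` then `η^(q^j) = η` and the sum is `l^r η`. Otherwise let
`l^s`, `s > m`, be the order of `η`. The order of `q` modulo `l^s` is `l^(s-m)` (lifting the exponent:
`v_l(q^j - 1) = m + v_l(j)`), `s - m ≤ r`, and the powers `η^(q^j)`, `j < l^(s-m)`, are different
elements of `η μ_{l^(s-m)}` (`(η^(q^j - 1))^(l^(s-m)) = 1`), so all of them; the sum over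
`j < l^(s-m)` is `η ∑_{μ} = 0`, and the sum over `j < l^r` is a multiple of it (period `l^(s-m)`). -/
def S_TRI : Prop := ∀ (l m r q : ℕ) (_ : l.Prime) (_ : 1 ≤ m) (_ : l = 2 → 2 ≤ m)
  (_ : l ^ m ∣ q - 1) (_ : ¬ l ^ (m + 1) ∣ q - 1) (_ : 1 ≤ q) (η : ℂ) (_ : η ^ (l ^ (m + r)) = 1),
  ∑ j ∈ range (l ^ r), η ^ (q ^ j) = if η ^ (l ^ m) = 1 then (l : ℂ) ^ r * η else 0

/-- TRS (120 lines). Proof. `n = l^(m+r)`. By `FRB`-property `j` times: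
`v(∑_t x_t ξ^(q^j t)) < 1` for all `j` (use `ξ^(q^j)` in place of `ξ`). Multiply by
`ξ^(-q^j t0)` (valuation `1`) and sum over `j < l^r`: `v(∑_t x_t Tr(ξ^(t - t0))) < 1`,
`Tr η = ∑_{j<l^r} η^(q^j)` (`TRI`; for `t < t0` use `ξ^(t + n - t0)`): it is `l^r ξ^(t-t0)` if
`l^r ∣ t - t0` (`ξ` is primitive of order `l^(m+r)`, so `(ξ^(t-t0))^(l^m) = 1` iff `l^r ∣ t - t0`) and
`0` otherwise. The `t < n` with `l^r ∣ t - t0` are the residues of `t0 + l^r i`, `i < l^m`. Divide by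
`l^r` (`v l = 1`). -/
def S_TRS : Prop := ∀ (V : ValuationSubring ℂ) (l m r q : ℕ) (_ : l.Prime) (_ : 1 ≤ m)
  (_ : l = 2 → 2 ≤ m) (_ : l ^ m ∣ q - 1) (_ : ¬ l ^ (m + 1) ∣ q - 1) (_ : 1 ≤ q)
  (_ : V.valuation (l : ℂ) = 1) (K : IntermediateField ℚ ℂ)
  (_ : ∀ (ξ : ℂ) (_ : ξ ^ (l ^ (m + r)) = 1) (x : ℕ → ℂ) (_ : ∀ i, x i ∈ K),
    V.valuation (∑ i ∈ range (l ^ (m + r)), x i * ξ ^ i) < 1 →
    V.valuation (∑ i ∈ range (l ^ (m + r)), x i * ξ ^ (q * i)) < 1)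
  (ξ : ℂ) (_ : IsPrimitiveRoot ξ (l ^ (m + r))) (x : ℕ → ℂ) (_ : ∀ i, x i ∈ K)
  (_ : ∀ i, x (i + l ^ (m + r)) = x i)
  (_ : V.valuation (∑ t ∈ range (l ^ (m + r)), x t * ξ ^ t) < 1) (t0 : ℕ),
  V.valuation (∑ i ∈ range (l ^ m), ξ ^ (l ^ r * i) * x (t0 + l ^ r * i)) < 1

def M_TRS : Prop := S_TRI → S_TRS

/-- the generator `g = 1 + l^h` of the units modulo `± 1`: `(l, g, h) = (3, 4, 1)` or `(2, 5, 2)` -/
def Gen (l g h : ℕ) : Prop := (l = 3 ∧ g = 4 ∧ h = 1) ∨ (l = 2 ∧ g = 5 ∧ h = 2)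

/-- GPW (170 lines), the powers of `g = 1 + l^h`. Proof. (i) By induction on `k` (raise to the power
`l`): `g^(l^k) = 1 + l^(k+h) w`, `w` prime to `l`. (ii) so `g` has order `l^(n-h)` modulo
`l^n` (`n ≥ h`); `g ≡ 1` modulo `l^h`, so no power of `g` is `≡ -1` (modulo `3`, modulo `4`), so
`± g^t`, `t < l^(n-h)`, are `2 l^(n-h) = φ(l^n)` different units: all of them, once each. (iii) from (i)
with `k = r`, `n = m + r + h`, if `n ≤ 2 (r + h)`: `(1 + l^(r+h) w)^i ≡ 1 + l^(r+h) w i` modulo `l^n`. -/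
def S_GPW : Prop := ∀ (l g h : ℕ), Gen l g h →
  (∀ k : ℕ, ∃ w : ℤ, IsCoprime w (l : ℤ) ∧ (g : ℤ) ^ (l ^ k) = 1 + (l : ℤ) ^ (k + h) * w) ∧
  (∀ k : ℕ, (g : ZMod (l ^ (k + h))) ^ (l ^ k) = 1) ∧
  (∀ (k : ℕ) (F : ZMod (l ^ (k + h)) → ℂ) (_ : ∀ c, ¬ IsUnit c → F c = 0),
    ∑ c ∈ range (l ^ (k + h)), F c = ∑ t ∈ range (l ^ k), (F ((g : ZMod (l ^ (k + h))) ^ t) +
      F (-(g : ZMod (l ^ (k + h))) ^ t))) ∧
  (∀ (k : ℕ) (c : ℤ), IsCoprime c (l : ℤ) → ∃ t : ℕ,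
    (c : ZMod (l ^ (k + h))) = (g : ZMod (l ^ (k + h))) ^ t ∨
    (c : ZMod (l ^ (k + h))) = -(g : ZMod (l ^ (k + h))) ^ t) ∧
  (∀ (m r : ℕ) (w : ℤ), (g : ℤ) ^ (l ^ r) = 1 + (l : ℤ) ^ (r + h) * w → m ≤ r + h → ∀ i : ℕ,
    ((l ^ (m + r + h) : ℕ) : ℤ) ∣ (g : ℤ) ^ (l ^ r * i) - (1 + (l : ℤ) ^ (r + h) * w * i))

/-- STA (230 lines), from one bad character to the relations. `n = m + r + h`, `ζ` = `exp(2 π i/l^m)`.
Proof. `ψ(-1) = 1` and `P` is even and has period `1`: by `GPW` (third clause, `F c = ψ(c) P(c/l^n)`,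
well defined on `ZMod (l^n)`) `∑_b ψ(b) P(b/l^n) = 2 ∑_{t<l^(m+r)} ψ(g)^t P(g^t/l^n)`, `v 2 = 1`. `ξ = ψ(g)` is a
primitive root of order `l^(m+r)`: `ξ^(l^(m+r)) = ψ(1) = 1`, and `ξ^(l^(m+r-1)) = ψ(g^(l^(m+r-1))) ≠ 1`, because
`g^(l^(m+r-1)) ≡ 1 + l^(n-1) w` generates the kernel of reduction modulo `l^(n-1)`, as
`1 + l^(n-1)`: `1 + l^(n-1) = (1 + l^(n-1) w)^i` modulo `l^n`, `i w ≡ 1` modulo `l`. `TRS` with `x_t = P(g^t/l^n)`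
(in `K`, periodic in `t` with period `l^(m+r)`): for all `t0`
`v(∑_{i<l^m} ξ^(l^r i) P(g^(t0 + l^r i)/l^n)) < 1`. With `g^(l^r) = 1 + l^(r+h) w` and the last
clause of `GPW` (`m ≤ r + h`): `g^(t0 + l^r i)/l^n ≡ c/l^n + c w i/l^m` modulo `1`, `c = g^t0`. `ξ^(l^r) = ζ^k0`,
`k0` prime to `l`. Substitution `j = c w i` modulo `l^m` (`TWP`, third clause, or `ZMod`): if `e c ≡ u`,
`u w ≡ k0` modulo `l^m`, then `ζ^(e j) = ζ^(e c w i) = ζ^(k0 i)`: this is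
`v(∑_j ζ^(e j) P(c/l^n + j/l^m)) < 1`. The left side depends on `c` modulo `l^n` only (if `e` is
fixed), so this is the claim for all `c ≡ g^t0`; for `c ≡ - g^t0` use `P(-x) = P(x)` and
`j ↦ -j` (`e c = (-e)(-c)`). -/
def S_STA : Prop := ∀ (V : ValuationSubring ℂ) (l g h m r q : ℕ) (_ : Gen l g h) (_ : 1 ≤ m)
  (_ : l = 2 → 2 ≤ m) (_ : 1 ≤ r) (_ : m ≤ r + h) (_ : l ^ m ∣ q - 1)
  (_ : ¬ l ^ (m + 1) ∣ q - 1) (_ : 1 ≤ q) (_ : V.valuation (l : ℂ) = 1)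
  (_ : V.valuation (2 : ℂ) = 1) (K : IntermediateField ℚ ℂ)
  (_ : ∀ (ξ : ℂ) (_ : ξ ^ (l ^ (m + r)) = 1) (x : ℕ → ℂ) (_ : ∀ i, x i ∈ K),
    V.valuation (∑ i ∈ range (l ^ (m + r)), x i * ξ ^ i) < 1 →
    V.valuation (∑ i ∈ range (l ^ (m + r)), x i * ξ ^ (q * i)) < 1)
  (P : ℚ → ℂ) (_ : ∀ x, P (x + 1) = P x) (_ : ∀ x, P (-x) = P x) (_ : ∀ x, P x ∈ K)
  (ψ : DirichletCharacter ℂ (l ^ (m + r + h))) (_ : ψ (-1) = 1)
  (_ : ψ (1 + (l : ZMod (l ^ (m + r + h))) ^ (m + r + h - 1)) ≠ 1)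
  (_ : V.valuation (∑ b ∈ range (l ^ (m + r + h)), ψ b * P ((b : ℚ) / (l : ℚ) ^ (m + r + h))) < 1),
  ∃ u : ℤ, IsCoprime u (l : ℤ) ∧ 0 ≤ u ∧ u < l ^ m ∧ ∀ c e : ℤ, ((l ^ m : ℕ) : ℤ) ∣ e * c - u →
    V.valuation (∑ j ∈ range (l ^ m), Complex.exp (2 * Real.pi * Complex.I / (l ^ m : ℕ)) ^
      (e * (j : ℤ)) * P ((c : ℚ) / (l : ℚ) ^ (m + r + h) + (j : ℚ) / (l ^ m : ℕ))) < 1

def M_STA : Prop := S_GPW → S_TRS → S_STA

/-- ZCH (90 lines). Proof. `ζ = exp(2 π i/q)`, `q = l^m`, is a root of unity, so in `V`. `1 - ζ^j` for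
`q ∤ j` divides `∏_{0<i<q} (1 - ζ^i) = q` in `ℤ[ζ] ⊆ V`, and `v q = 1`, so `v(1 - ζ^j) = 1`. -/
def S_ZCH : Prop := ∀ (V : ValuationSubring ℂ) (l m : ℕ) (_ : l.Prime)
  (_ : V.valuation (l : ℂ) = 1), ∃ z : ℤ → V, Chr (l ^ m) z ∧
  ∀ j : ℤ, (z j : ℂ) = Complex.exp (2 * Real.pi * Complex.I / (l ^ m : ℕ)) ^ j

/-! ### 5. The theorem -/

/-- TWR (250 lines). Proof. Suppose the contrary: there is `n0` such that for all `n ≥ n0` there are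
`j < a`, `i ∈ I` and an even `ψ` of conductor `l^(n+j)` with small sum. Let `q` be as in `FRB`, `m` the exponent
of `l` in `q - 1` (`≥ 1`, `≥ 3` for `l = 2`). `STA` for `n + j = m + r + h` (`n` large): label
`u ∈ U = {0, …, l^m - 1}` prime to `l`. `R = V`, `M = ℂ ⧸ {v < 1}` (a `V`-submodule of `ℂ`), `z` from `ZCH`,
`W i x` = the class of `P i ∞ x`; `T n i u := IsCoprime u l ∧ StarAt l m z (W i) n u` (the sum of
`StarAt` is the class of the sum of `STA`). `REC`: `E`, `d`, `i`, `u`, `u'` (`K = v + 2 m` large). `W i` is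
`QM N χ`, `χ d = ⟨nu i d, _⟩`, by `IsSym` (`mob` at `∞` and at `x`; `c ≠ 0`; `c = 0`: `x + 1`), and
depleted. `MOD`: `v(P i ∞ (a/c)) < 1` for all `(a b; c d1)` in `Γ₁(N')`, `N' = l^(E+m) N`, `c ≠ 0`. Against
the hypothesis for `N'` (there `c ≠ 0`, as `P i ∞ ∞ = 0`). -/
def S_TWR : Prop := ∀ (l g h : ℕ) (_ : Gen l g h) (V : ValuationSubring ℂ) (p : ℕ) (_ : p.Prime)
  (_ : 5 ≤ p) (_ : V.valuation (p : ℂ) < 1) (K : IntermediateField ℚ ℂ)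
  (_ : FiniteDimensional ℚ K) (I : Type) [Finite I] (N : ℕ) (_ : N ≠ 0) (nu : I → ℤ → ℂ)
  (_ : ∀ i d, V.valuation (nu i d) ≤ 1) (_ : ∀ i, nu i 1 = 1)
  (_ : ∀ i (d d' : ℤ), (N : ℤ) ∣ d - d' → nu i d = nu i d')
  (P : I → OnePoint ℚ → OnePoint ℚ → ℂ) (_ : ∀ i, _root_.MU3.IsSym N (nu i) (P i))
  (_ : ∀ i (x : ℚ), P i ∞ (x : OnePoint ℚ) ∈ K)
  (_ : ∀ i (x : ℚ), P i ∞ ((-x : ℚ) : OnePoint ℚ) = P i ∞ (x : OnePoint ℚ))
  (_ : ∀ i (x : ℚ), ∑ k ∈ range l, P i ∞ ((x + (k : ℚ) / l : ℚ) : OnePoint ℚ) = 0)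
  (_ : ∀ i (N' : ℕ), N' ≠ 0 → N ∣ N' → ∃ a b c d : ℤ, a * d - b * c = 1 ∧ (N' : ℤ) ∣ c ∧
    (N' : ℤ) ∣ d - 1 ∧ 1 ≤ V.valuation (P i ∞ (Pool.Agent.MuSym.mob a b c d ∞)))
  (a : ℕ) (_ : 1 ≤ a) (n0 : ℕ), ∃ n ≥ n0, ∀ j < a, ∀ i,
    ∀ ψ : DirichletCharacter ℂ (l ^ (n + j)), ψ (-1) = 1 →
      ψ (1 + (l : ZMod (l ^ (n + j))) ^ (n + j - 1)) ≠ 1 →
      1 ≤ V.valuation (∑ b ∈ range (l ^ (n + j)),
        ψ b * P i ∞ (((b : ℚ) / (l : ℚ) ^ (n + j) : ℚ) : OnePoint ℚ))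

def M_TWR : Prop := S_REC → S_MOD → S_FRB → S_STA → S_ZCH → S_TWR

end Pool.Agent.TWR
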