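import Pool.Agent.TWR.St

/-!
# TWR, second file: the rigidity theorem for symbols with algebraic values (problem MP_b78433_nt)

`S_TW2` is `S_TWR` (see `Pool/Agent/TWR/St.lean`) with the hypothesis `P i ∞ x ∈ K`, `K` a number
field, replaced by: `P i ∞ x` is algebraic for all `x`, and the `nu i d` are algebraic.
-/

set_option autoImplicit false

namespace Pool.Agent.TWR

open Finset OnePoint

/-- NFV (150 lines), the values lie in a number field (Manin). Proof. `mob` is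
`Pool.Agent.MuSym.mob`. For `γ = (a b; c d)`, `a d - b c = 1`, let `m γ = P (γ ∞) (γ 0)`. It is
algebraic: `P (γ ∞) (γ 0) = P ∞ (γ 0) - P ∞ (γ ∞)`, `P ∞ ∞ = 0`. If `γ' = (a' b'; c' d')` and
`c' ≡ c`, `d' ≡ d` modulo `N`, then `γ' = g γ` with `g = γ' γ⁻¹` of lower row
`(c' d - d' c, a d' - b c')`, `N ∣ c' d - d' c`, so `m γ' = nu (a d' - b c') * m γ` (`IsSym.equiv` at
`x = γ ∞`, `y = γ 0`; `mob` is multiplicative: check on `γ ∞`, `γ 0` directly, also if one of them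
is `∞`). Choose one `γ` for each pair of residues `(c, d)` modulo `N` that occurs (finitely many;
`N ≠ 0`). Let `K` be generated over `ℚ` by the (finitely many) `nu j`, `0 ≤ j < N`, and the `m γ` of
these `γ`: a finite extension, because they are algebraic, and `m γ ∈ K` for all `γ`. Now
`P ∞ (r/s) ∈ K`, `r`, `s` coprime, `s ≥ 1`, by strong induction on `s`: choose integers `r'`, `s'` with
`r' s - r s' = 1` and `0 ≤ s' < s`, `γ = (r' r; s' s)`: `γ 0 = r/s`, and `γ ∞ = r'/s'` (`∞` if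
`s' = 0`), so `P ∞ (r/s) = P ∞ (γ ∞) + m γ`, and `P ∞ (γ ∞)` is `0` or in `K` by induction (the
denominator of `r'/s'` is `s' < s`, as `r'`, `s'` are coprime). -/
def S_NFV : Prop := ∀ (N : ℕ) (_ : N ≠ 0) (nu : ℤ → ℂ)
  (_ : ∀ d d' : ℤ, (N : ℤ) ∣ d - d' → nu d = nu d') (_ : ∀ d, IsAlgebraic ℚ (nu d))
  (P : OnePoint ℚ → OnePoint ℚ → ℂ) (_ : _root_.MU3.IsSym N nu P)
  (_ : ∀ x : ℚ, IsAlgebraic ℚ (P ∞ (x : OnePoint ℚ))),
  ∃ K : IntermediateField ℚ ℂ, FiniteDimensional ℚ K ∧ ∀ x : ℚ, P ∞ (x : OnePoint ℚ) ∈ K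

/-- TW2: `TWR` with `K` = the compositum of the fields of `NFV`. -/
def S_TW2 : Prop := ∀ (l g h : ℕ) (_ : Gen l g h) (V : ValuationSubring ℂ) (p : ℕ) (_ : p.Prime)
  (_ : 5 ≤ p) (_ : V.valuation (p : ℂ) < 1) (I : Type) [Finite I] (N : ℕ) (_ : N ≠ 0)
  (nu : I → ℤ → ℂ)
  (_ : ∀ i d, V.valuation (nu i d) ≤ 1) (_ : ∀ i, nu i 1 = 1)
  (_ : ∀ i (d d' : ℤ), (N : ℤ) ∣ d - d' → nu i d = nu i d') (_ : ∀ i d, IsAlgebraic ℚ (nu i d))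
  (P : I → OnePoint ℚ → OnePoint ℚ → ℂ) (_ : ∀ i, _root_.MU3.IsSym N (nu i) (P i))
  (_ : ∀ i (x : ℚ), IsAlgebraic ℚ (P i ∞ (x : OnePoint ℚ)))
  (_ : ∀ i (x : ℚ), P i ∞ ((-x : ℚ) : OnePoint ℚ) = P i ∞ (x : OnePoint ℚ))
  (_ : ∀ i (x : ℚ), ∑ k ∈ range l, P i ∞ ((x + (k : ℚ) / l : ℚ) : OnePoint ℚ) = 0)
  (_ : ∀ i (N' : ℕ), N' ≠ 0 → N ∣ N' → ∃ a b c d : ℤ, a * d - b * c = 1 ∧ (N' : ℤ) ∣ c ∧
    (N' : ℤ) ∣ d - 1 ∧ 1 ≤ V.valuation (P i ∞ (Pool.Agent.MuSym.mob a b c d ∞)))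
  (a : ℕ) (_ : 1 ≤ a) (n0 : ℕ), ∃ n ≥ n0, ∀ j < a, ∀ i,
    ∀ ψ : DirichletCharacter ℂ (l ^ (n + j)), ψ (-1) = 1 →
      ψ (1 + (l : ZMod (l ^ (n + j))) ^ (n + j - 1)) ≠ 1 →
      1 ≤ V.valuation (∑ b ∈ range (l ^ (n + j)),
        ψ b * P i ∞ (((b : ℚ) / (l : ℚ) ^ (n + j) : ℚ) : OnePoint ℚ))

theorem t_TW2 (h1 : S_NFV) (h2 : S_TWR) : S_TW2 := by
  intro l g h hG V p hp hp5 hvp I _ N hN nu hnu1 hnu2 hnu3 hnu4 P hsym hPa hPe hPd hND a ha n0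
  choose K hK1 hK2 using fun i => h1 N hN (nu i) (hnu3 i) (hnu4 i) (P i) (hsym i) (hPa i)
  have hfd : FiniteDimensional ℚ (⨆ i, K i : IntermediateField ℚ ℂ) := by
    have := hK1
    exact IntermediateField.finiteDimensional_iSup_of_finite
  exact h2 l g h hG V p hp hp5 hvp (⨆ i, K i) hfd I N hN nu hnu1 hnu2 hnu3 P hsym
    (fun i x => (le_iSup K i) (hK2 i x)) hPe hPd hND a ha n0

end Pool.Agent.TWR
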