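import Pool.Agent.TWR.St

/-!
# The closing step (module CLO of TWR, MP_b78433_nt)
-/

set_option autoImplicit false

namespace Pool.Agent.TWR

open Finset OnePoint

theorem t_CLO : M_CLO := by
  intro _ hEQV hKEY R M _ _ _ l m hl hm z hz N0 v hN0 hN0l χ W hW E d u u' hE hmd hdE hu hu' hS1
    hS2 hS3 a b c d1 hdet hc hd1 hc0
  obtain ⟨k, hk⟩ := hc
  obtain ⟨k2, hk2⟩ := hd1
  push_cast at hk hk2
  obtain ⟨m', rfl⟩ : ∃ m', m = m' + 1 := ⟨m - 1, by omega⟩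
  obtain ⟨E', rfl⟩ : ∃ E', E = E' + (m' + 1) := ⟨E - (m' + 1), by omega⟩
  set L : ℤ := (l : ℤ) with hL
  set q : ℤ := L ^ (m' + 1) with hq
  -- c = L ^ E c'
  set c' : ℤ := q * (L ^ v * N0) * k with hc'
  have hcc : c = L ^ (E' + (m' + 1)) * c' := by
    rw [hk, hc', hq]; ring
  set δ : ℤ := c' * u' + d1 with hδ
  set R' : ℤ := a * u' + b * L ^ (E' + (m' + 1)) with hR'
  have hLu : ¬ IsUnit L := (Nat.prime_iff_prime_int.1 hl).not_isUnit
  have hL0 : L ≠ 0 := (Nat.prime_iff_prime_int.1 hl).ne_zero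
  have hδ1 : δ = 1 + (N0 * L) * (L ^ m' * L ^ v * k * u' +
      L ^ (E' + (m' + 1)) * L ^ m' * L ^ v * k2) := by
    have h1 : d1 = 1 + (d1 - 1) := by ring
    rw [hδ, h1, hk2, hc', hq]
    ring
  have hδc : IsCoprime δ ((N0 : ℤ) * L) := by
    refine ⟨1, -(L ^ m' * L ^ v * k * u' + L ^ (E' + (m' + 1)) * L ^ m' * L ^ v * k2), ?_⟩
    rw [hδ1]; ring
  have hδL : IsCoprime δ L := hδc.of_mul_right_right
  have hδ0 : δ ≠ 0 := by
    intro h
    rw [h] at hδL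
    exact hLu (isCoprime_zero_left.1 hδL)
  -- a = 1 modulo q
  have hqd : q ∣ d1 - 1 := by
    rw [hk2]
    refine ⟨L ^ (E' + (m' + 1)) * (L ^ v * N0) * k2, ?_⟩
    rw [hq]; ring
  have hqc' : q ∣ c' := ⟨(L ^ v * N0) * k, by rw [hc']; ring⟩
  have hqc : q ∣ c := by rw [hcc]; exact Dvd.dvd.mul_left hqc' _
  have hqa : q ∣ a - 1 := by
    have h1 : a - 1 = b * c - a * (d1 - 1) := by linear_combination hdet
    rw [h1]
    exact dvd_sub (Dvd.dvd.mul_left hqc _) (Dvd.dvd.mul_left hqd _)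
  have hqE : q ∣ L ^ (E' + (m' + 1)) := ⟨L ^ E', by rw [hq]; ring⟩
  obtain ⟨r1, hr1⟩ : q ∣ R' - u' * δ := by
    have h1 : R' - u' * δ = (a - 1) * u' - (d1 - 1) * u' + b * L ^ (E' + (m' + 1)) -
        c' * u' ^ 2 := by
      rw [hR', hδ]; ring
    rw [h1]
    exact dvd_sub (dvd_add (dvd_sub (Dvd.dvd.mul_right hqa _) (Dvd.dvd.mul_right hqd _))
      (Dvd.dvd.mul_left hqE _)) (Dvd.dvd.mul_right hqc' _)
  obtain ⟨A, B, hAB⟩ : IsCoprime δ (L ^ E') := hδL.pow_right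
  set s : ℤ := A * r1 with hs
  set β : ℤ := B * r1 with hβ
  have hRb : R' = L ^ (E' + (m' + 1)) * β + (u' + s * q) * δ := by
    have h1 : L ^ (E' + (m' + 1)) = L ^ E' * q := by rw [hq]; ring
    rw [h1, hβ, hs]
    linear_combination hr1 - q * r1 * hAB
  have hβδ : IsCoprime β δ := by
    refine ⟨-(c' * L ^ (E' + (m' + 1))), a - c' * (u' + s * q), ?_⟩
    have h1 : a * δ - c' * R' = 1 := by
      rw [hδ, hR']
      linear_combination hdet + b * hcc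
    linear_combination h1 + c' * hRb
  have hkey := hKEY R M l (m' + 1) hl hm z hz N0 v hN0 hN0l χ W hW (E' + (m' + 1)) d u u' hE hmd
    hdE hu hu' hS1 hS2 hS3 β δ s hδ0 hδc hβδ
  -- the equation for g x
  have hlQ : (l : ℚ) ≠ 0 := by exact_mod_cast hl.ne_zero
  have hLE : ((l : ℚ)) ^ (E' + (m' + 1)) ≠ 0 := pow_ne_zero _ hlQ
  have hδQ : (δ : ℚ) ≠ 0 := by exact_mod_cast hδ0
  have hLQ : ((L : ℤ) : ℚ) = (l : ℚ) := by rw [hL]; push_cast; rfl
  set x : ℚ := (u' : ℚ) / (l : ℚ) ^ (E' + (m' + 1)) with hx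
  have hcx : (c : ℚ) * x + d1 = δ := by
    rw [hx, hcc, hδ]
    push_cast
    rw [hLQ]
    field_simp
  have hax : (a : ℚ) * x + b = (R' : ℚ) / (l : ℚ) ^ (E' + (m' + 1)) := by
    rw [hx, hR']
    push_cast
    rw [hLQ]
    field_simp
  have hgx : ((a : ℚ) * x + b) / ((c : ℚ) * x + d1) =
      (β : ℚ) / δ + ((u' : ℚ) + s * (l : ℚ) ^ (m' + 1)) / (l : ℚ) ^ (E' + (m' + 1)) := by
    rw [hcx, hax]
    have h1 : (R' : ℚ) = (l : ℚ) ^ (E' + (m' + 1)) * β +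
        ((u' : ℚ) + s * (l : ℚ) ^ (m' + 1)) * δ := by
      rw [hRb, hq]
      push_cast
      rw [hLQ]
    rw [h1]
    field_simp
  have heqv := hEQV R M (l ^ (m' + 1)) (pow_ne_zero _ hl.ne_zero) z hz (l ^ v * N0) χ W hW 1 a b c
    d1 x hdet (by
      refine ⟨L ^ E' * k, ?_⟩
      push_cast
      rw [hcc, hc', hq]
      ring) hc0 (by rw [hcx]; exact hδQ)
  rw [hgx, hkey] at heqv
  have hstar : Tw (l ^ (m' + 1)) z W (1 * a ^ 2) x = 0 := by
    refine hS1 u' (1 * a ^ 2) ?_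
    push_cast
    have h1 : 1 * a ^ 2 * u' - u' = (a - 1) * ((a + 1) * u') := by ring
    rw [h1]
    exact Dvd.dvd.mul_right hqa _
  rw [hstar, smul_zero, add_zero] at heqv
  exact heqv.symm

end Pool.Agent.TWR
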