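import Pool.Agent.TWR.St

/-! CRT: the congruences. -/

namespace Pool.Agent.TWR

theorem t_CRT : S_CRT := by
  intro l m N0 E d β δ u u' hl hm hN0 hNl hδ hβδ hu hu'
  have hδN : IsCoprime δ (N0 : ℤ) := hδ.of_mul_right_left
  have hδl : IsCoprime δ (l : ℤ) := hδ.of_mul_right_right
  have hlm : ((l ^ m : ℕ) : ℤ) = (l : ℤ) ^ m := by push_cast; rfl
  -- the inverse modulo `l^m`
  have h1 : IsCoprime (u' ^ 2 * δ) ((l : ℤ) ^ m) :=
    ((hu'.pow_left (m := 2)).mul_left hδl).pow_right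
  obtain ⟨a, b, hab⟩ := h1
  -- the inverse modulo `δ`
  have h2 : IsCoprime (β * (l : ℤ) ^ E + u' * δ) δ := by
    have h3 : IsCoprime (β * (l : ℤ) ^ E) δ := hβδ.mul_left (hδl.symm.pow_left)
    have h4 := IsCoprime.add_mul_right_left h3 u'
    simpa [mul_comm] using h4
  obtain ⟨a3, b3, hab3⟩ := h2
  have h5 : IsCoprime ((N0 : ℤ) * δ) ((l : ℤ) ^ m) := (hNl.mul_left hδl).pow_right
  obtain ⟨c, e, hce⟩ := h5
  have h6 : IsCoprime ((N0 : ℤ) * (l : ℤ) ^ m) δ := hδN.symm.mul_left (hδl.symm.pow_left)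
  obtain ⟨f, g, hfg⟩ := h6
  have key2 : (l : ℤ) ^ m ∣
      ((u * a) * (c * ((N0 : ℤ) * δ)) + (-(l : ℤ) ^ d * a3) * (f * ((N0 : ℤ) * (l : ℤ) ^ m))) *
        (u' ^ 2 * δ) - u := by
    refine ⟨-(u * b) - u * a * e * (u' ^ 2 * δ) +
      (-(l : ℤ) ^ d * a3) * (f * (N0 : ℤ)) * (u' ^ 2 * δ), ?_⟩
    have e1 : c * ((N0 : ℤ) * δ) = 1 - e * (l : ℤ) ^ m := by linear_combination hce
    rw [e1]
    linear_combination u * hab
  refine ⟨(u * a) * (c * ((N0 : ℤ) * δ)) + (-(l : ℤ) ^ d * a3) * (f * ((N0 : ℤ) * (l : ℤ) ^ m)),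
    ?_, ?_, ?_, ?_⟩
  · exact ⟨(u * a) * (c * δ) + (-(l : ℤ) ^ d * a3) * (f * (l : ℤ) ^ m), by ring⟩
  · rw [hlm]
    exact key2
  · refine ⟨b3 * (l : ℤ) ^ d + (u * a) * (c * (N0 : ℤ)) * (β * (l : ℤ) ^ E + u' * δ) +
      (l : ℤ) ^ d * a3 * g * (β * (l : ℤ) ^ E + u' * δ), ?_⟩
    have e1 : f * ((N0 : ℤ) * (l : ℤ) ^ m) = 1 - g * δ := by linear_combination hfg
    rw [e1]
    linear_combination (-(l : ℤ) ^ d) * hab3
  · obtain ⟨k, hk⟩ := (dvd_pow_self (l : ℤ) (by omega : m ≠ 0)).trans key2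
    have h7 : IsCoprime (((u * a) * (c * ((N0 : ℤ) * δ)) +
        (-(l : ℤ) ^ d * a3) * (f * ((N0 : ℤ) * (l : ℤ) ^ m))) * (u' ^ 2 * δ)) (l : ℤ) := by
      have h8 := IsCoprime.add_mul_right_left hu k
      have h9 : u + k * (l : ℤ) = ((u * a) * (c * ((N0 : ℤ) * δ)) +
        (-(l : ℤ) ^ d * a3) * (f * ((N0 : ℤ) * (l : ℤ) ^ m))) * (u' ^ 2 * δ) := by
        linear_combination -hk
      rwa [h9] at h8
    exact h7.of_mul_left_left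

end Pool.Agent.TWR
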