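import Pool.Agent.TWR.St

/-!
# Two periods and a twist
-/

set_option autoImplicit false

namespace Pool.Agent.TWR

/-- Module CST. -/
theorem t_CST : S_CST := by
  intro R M _ _ _ l k t r T0 y H hco htr hy hk hT hr s
  obtain ⟨a, b, hab⟩ := IsCoprime.pow_right (n := k) hco
  have h1 : Function.Periodic H ((l : ℤ) ^ k) := hk
  have h2 : Function.Periodic H ((l : ℤ) ^ t * T0) := hT
  have h3 := (h2.int_mul ((l : ℤ) ^ (r - t) * a)).add_period
    (h1.int_mul ((l : ℤ) ^ (r - t) * (l : ℤ) ^ t * b))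
  have e : (((l : ℤ) ^ (r - t) * a : ℤ) : ℤ) * ((l : ℤ) ^ t * T0) +
      (((l : ℤ) ^ (r - t) * (l : ℤ) ^ t * b : ℤ) : ℤ) * (l : ℤ) ^ k = (l : ℤ) ^ r := by
    have e1 : (l : ℤ) ^ r = (l : ℤ) ^ (r - t) * (l : ℤ) ^ t := by
      rw [← pow_add, Nat.sub_add_cancel htr]
    calc (l : ℤ) ^ (r - t) * a * ((l : ℤ) ^ t * T0) +
          (l : ℤ) ^ (r - t) * (l : ℤ) ^ t * b * (l : ℤ) ^ k
        = (l : ℤ) ^ (r - t) * (l : ℤ) ^ t * (a * T0 + b * (l : ℤ) ^ k) := by ring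
      _ = (l : ℤ) ^ r := by rw [hab, mul_one, e1]
  have h4 : H (s + (l : ℤ) ^ r) = H s := by
    have h5 := h3 s
    simp only [Int.cast_id] at h5
    rw [e] at h5
    exact h5
  have h6 : (1 - y) • H s = 0 := by
    rw [sub_smul, one_smul, ← hr s, h4, sub_self]
  obtain ⟨u, hu⟩ := hy
  rw [← hu] at h6
  have h7 : (u⁻¹ : Rˣ) • (u • H s) = 0 := by
    rw [show u • H s = (u : R) • H s from rfl, h6, smul_zero]
  rwa [inv_smul_smul] at h7

end Pool.Agent.TWR
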