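import Pool.Agent.TWR.St

/-!
TWR, module EDG: the edges.
-/

set_option autoImplicit false

namespace Pool.Agent.TWR

open Finset OnePoint

theorem t_EDG : M_EDG := by
  intro hEQV R M _ _ _ l m hl z hz N χ W hW n u hst e A B C D hmn hNC hC hD hcop hdet hu
  obtain ⟨d, b', hb⟩ := hcop
  obtain ⟨b, hbb⟩ : ∃ b : ℤ, b' = -b := ⟨-b', by ring⟩
  have hd1 : A * d - b * C = 1 := by rw [hbb] at hb; linear_combination hb
  have hq0 : l ^ m ≠ 0 := pow_ne_zero _ hl.ne_zero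
  have hlQ : (l : ℚ) ^ n ≠ 0 := pow_ne_zero _ (by exact_mod_cast hl.ne_zero)
  have h1 : A * (d * B - b * D) + b * (l : ℤ) ^ n = B := by
    rw [← hdet]
    linear_combination B * hd1
  have h2 : C * (d * B - b * D) + d * (l : ℤ) ^ n = D := by
    rw [← hdet]
    linear_combination D * hd1
  have h1Q : (A : ℚ) * ((d * B - b * D : ℤ) : ℚ) + b * (l : ℚ) ^ n = B := by exact_mod_cast h1
  have h2Q : (C : ℚ) * ((d * B - b * D : ℤ) : ℚ) + d * (l : ℚ) ^ n = D := by exact_mod_cast h2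
  have hDQ : (D : ℚ) ≠ 0 := by exact_mod_cast hD
  have e1 : (A : ℚ) * (((d * B - b * D : ℤ) : ℚ) / (l : ℚ) ^ n) + b = B / (l : ℚ) ^ n := by
    rw [eq_div_iff hlQ, add_mul, mul_assoc, div_mul_cancel₀ _ hlQ]
    exact h1Q
  have e2 : (C : ℚ) * (((d * B - b * D : ℤ) : ℚ) / (l : ℚ) ^ n) + d = D / (l : ℚ) ^ n := by
    rw [eq_div_iff hlQ, add_mul, mul_assoc, div_mul_cancel₀ _ hlQ]
    exact h2Q
  have key := hEQV R M (l ^ m) hq0 z hz N χ W hW e A b C d
    (((d * B - b * D : ℤ) : ℚ) / (l : ℚ) ^ n) hd1 hNC hC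
    (by rw [e2]; exact div_ne_zero hDQ hlQ)
  rw [e1, e2, div_div_div_cancel_right₀ hlQ] at key
  rw [key, hst (d * B - b * D) (e * A ^ 2) ?_, smul_zero, add_zero]
  have h3 : e * A ^ 2 * (d * B - b * D) - u = (e * A * B - u) - e * A * b * (l : ℤ) ^ n := by
    rw [← hdet]
    linear_combination (e * A * B) * hd1
  rw [h3]
  apply dvd_sub hu
  apply Dvd.dvd.mul_left
  push_cast
  exact pow_dvd_pow _ hmn

end Pool.Agent.TWR
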