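import Pool.Agent.TWR.St

/-!
# TWR, module EQV: equivariance of the twisted sums
-/

set_option autoImplicit false

namespace Pool.Agent.TWR

open Finset OnePoint

namespace EQVAux

variable {R M : Type} [CommRing R] [AddCommGroup M] [Module R M]

theorem per_nat (W : ℚ → M) (hW : ∀ x, W (x + 1) = W x) (n : ℕ) (x : ℚ) :
    W (x + n) = W x := by
  induction n with
  | zero => simp
  | succ n ih =>
    have : x + ((n + 1 : ℕ) : ℚ) = (x + n) + 1 := by push_cast; ring
    rw [this, hW, ih]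

theorem per_int (W : ℚ → M) (hW : ∀ x, W (x + 1) = W x) (n : ℤ) (x : ℚ) :
    W (x + n) = W x := by
  obtain ⟨k, rfl | rfl⟩ := n.eq_nat_or_neg
  · simpa using per_nat W hW k x
  · have h := per_nat W hW k (x + ((-(k : ℤ) : ℤ) : ℚ))
    rw [← h]
    congr 1
    push_cast
    ring

/-- the equivariance of one term -/
theorem term (q : ℕ) (hq : q ≠ 0) (N : ℕ) (χ : ℤ → R) (W : ℚ → M) (hW : QM N χ W)
    (a b c d : ℤ) (x : ℚ) (hdet : a * d - b * c = 1) (k : ℤ) (hk : c = ((N * q * q : ℕ) : ℤ) * k)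
    (hc : c ≠ 0) (hx : (c : ℚ) * x + d ≠ 0) (j : ℤ) :
    W ((a * x + b) / (c * x + d) + (j : ℚ) / q)
      = W ((a : ℚ) / c + (j : ℚ) / q) + χ d • W (x + (j * d ^ 2 : ℤ) / q) := by
  have hqQ : (q : ℚ) ≠ 0 := by exact_mod_cast hq
  have hcQ : (c : ℚ) ≠ 0 := by exact_mod_cast hc
  set c2 : ℤ := N * k with hc2
  set c1 : ℤ := q * c2 with hc1
  have hcc1 : c = q * c1 := by rw [hc1, hc2, hk]; push_cast; ring
  set a' : ℤ := a + j * c1 with ha'
  set d' : ℤ := d - c1 * j * d ^ 2 with hd'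
  set b' : ℤ := b - j * d * b * c1 - j ^ 2 * d ^ 2 * c2 with hb'
  have hdet' : a' * d' - b' * c = 1 := by
    have h1 : c * c2 = c1 * c1 := by rw [hcc1, hc1]; ring
    have h2 : a' * d' - b' * c = (a * d - b * c) + j * c1 * d * (1 - (a * d - b * c))
        + j ^ 2 * d ^ 2 * (c * c2 - c1 * c1) := by
      rw [ha', hd', hb']; ring
    rw [h2, h1, hdet]; ring
  have hNc : (N : ℤ) ∣ c := ⟨q * q * k, by rw [hk]; push_cast; ring⟩
  have hc1Q : (c : ℚ) = q * c1 := by exact_mod_cast hcc1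
  have hc12Q : (c1 : ℚ) = q * c2 := by exact_mod_cast hc1
  have hdetQ : (a : ℚ) * d - b * c = 1 := by exact_mod_cast hdet
  have hden : (c : ℚ) * (x + ((j * d ^ 2 : ℤ) : ℚ) / q) + (d' : ℚ) = c * x + d := by
    rw [hd']
    push_cast
    rw [hc1Q]
    field_simp
    ring
  have hnum : (a' : ℚ) * (x + ((j * d ^ 2 : ℤ) : ℚ) / q) + (b' : ℚ)
      = (a * x + b) + (j : ℚ) / q * (c * x + d) := by
    have e1 : (b' : ℚ) = b - j * d * b * c1 - j ^ 2 * d ^ 2 * c2 := by
      rw [hb']; push_cast; ring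
    have e2 : (a' : ℚ) = a + j * c1 := by rw [ha']; push_cast; ring
    have e3 : (b : ℚ) * c1 * q = a * d - 1 := by rw [← hdetQ, hc1Q]; ring
    have e4 : (j : ℚ) / q * (c * x + d) = j * c1 * x + j * d / q := by
      rw [hc1Q]; field_simp
    rw [e1, e2, e4]
    have e5 : (b : ℚ) * c1 = (a * d - 1) / q := by rw [← e3]; field_simp
    have e6 : (c1 : ℚ) / q = c2 := by rw [hc12Q]; field_simp
    push_cast
    have e7 : (j : ℚ) * d * b * c1 = j * d * ((a * d - 1) / q) := by rw [← e5]; ring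
    rw [e7, ← e6]
    ring
  have hx' : (c : ℚ) * (x + ((j * d ^ 2 : ℤ) : ℚ) / q) + (d' : ℚ) ≠ 0 := by rw [hden]; exact hx
  have key := hW.eqv a' b' c d' hdet' hNc hc (x + ((j * d ^ 2 : ℤ) : ℚ) / q) hx'
  rw [hnum, hden] at key
  have hL : ((a * x + b) + (j : ℚ) / q * (c * x + d)) / (c * x + d)
      = (a * x + b) / (c * x + d) + (j : ℚ) / q := by
    rw [add_div, mul_div_assoc, div_self hx, mul_one]
  have hA : (a' : ℚ) / c = (a : ℚ) / c + (j : ℚ) / q := by
    rw [ha']
    push_cast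
    rw [add_div]
    congr 1
    rw [hc1Q]
    have : (c1 : ℚ) ≠ 0 := by
      intro h
      apply hcQ
      rw [hc1Q, h, mul_zero]
    field_simp
  have hchi : χ d' = χ d := by
    apply hW.chi
    refine ⟨- (q * k * j * d ^ 2), ?_⟩
    rw [hd', hc1, hc2]
    ring
  rw [hL, hA, hchi] at key
  exact key

end EQVAux

open EQVAux in
theorem t_EQV : M_EQV := by
  intro hT R M _ _ _ q hq z hz N χ W hW e a b c d x hdet hdvd hc hx
  obtain ⟨-, hper, hre, -, -, -, -⟩ := hT R M q hq z hz W hW.per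
  obtain ⟨k, hk⟩ := hdvd
  have hqQ : (q : ℚ) ≠ 0 := by exact_mod_cast hq
  set c1 : ℤ := q * (N * k) with hc1
  have hcc1 : c = q * c1 := by rw [hc1, hk]; push_cast; ring
  have hterm := term q hq N χ W hW a b c d x hdet k hk hc hx
  -- the auxiliary periodic function
  set F : ℤ → M := fun j => z (e * j) • W (x + ((j * d ^ 2 : ℤ) : ℚ) / q) with hF
  have hFper : ∀ j, F (j + q) = F j := by
    intro j
    simp only [hF]
    have h1 : z (e * (j + q)) = z (e * j) := hper _ _ ⟨e, by ring⟩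
    have h2 : x + (((j + q) * d ^ 2 : ℤ) : ℚ) / q = (x + ((j * d ^ 2 : ℤ) : ℚ) / q) + (d ^ 2 : ℤ) := by
      push_cast
      field_simp
      ring
    rw [h1, h2, per_int W hW.per]
  have hcop : IsCoprime (a ^ 2) (q : ℤ) := by
    have : IsCoprime a (q : ℤ) := ⟨d, - (b * c1), by
      have : a * d - b * (q * c1) = 1 := by rw [← hcc1]; exact hdet
      linarith⟩
    exact this.pow_left
  have hsum := hre F hFper (a ^ 2) hcop
  have hF2 : ∀ j : ℤ, F (a ^ 2 * j) = z (e * a ^ 2 * j) • W (x + (j : ℚ) / q) := by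
    intro j
    simp only [hF]
    have h1 : e * (a ^ 2 * j) = e * a ^ 2 * j := by ring
    have h2 : x + (((a ^ 2 * j) * d ^ 2 : ℤ) : ℚ) / q
        = (x + (j : ℚ) / q) + ((j * (b * c1 * (a * d + 1)) : ℤ) : ℚ) := by
      have h3 : (a : ℚ) ^ 2 * d ^ 2 = 1 + b * (q * c1) * (a * d + 1) := by
        have h4 : (a : ℤ) ^ 2 * d ^ 2 = 1 + b * (q * c1) * (a * d + 1) := by
          rw [← hcc1]
          have h5 : b * c = a * d - 1 := by linarith
          rw [h5]; ring
        exact_mod_cast h4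
      have h6 : ((((a ^ 2 * j) * d ^ 2 : ℤ)) : ℚ) = j * ((a : ℚ) ^ 2 * d ^ 2) := by
        push_cast; ring
      rw [h6, h3]
      push_cast
      field_simp
      ring
    rw [h1, h2, per_int W hW.per]
  -- assemble
  have hL : Tw q z W e ((a * x + b) / (c * x + d))
      = Tw q z W e ((a : ℚ) / c) + χ d • ∑ j ∈ range q, F j := by
    unfold Tw
    rw [Finset.smul_sum, ← Finset.sum_add_distrib]
    refine Finset.sum_congr rfl fun j _ => ?_
    have := hterm (j : ℤ)
    rw [Int.cast_natCast] at this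
    rw [this, smul_add]
    congr 1
    simp only [hF]
    rw [smul_comm]
  rw [hL, ← hsum]
  congr 2
  unfold Tw
  refine Finset.sum_congr rfl fun j _ => ?_
  rw [hF2 (j : ℤ), Int.cast_natCast]

end Pool.Agent.TWR
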