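import Pool.Agent.TWR.St

/-!
# TWR: module FRB (Frobenius elements and places of `ℂ` above `p`)
-/

set_option autoImplicit false

open NumberField

namespace Pool.Agent.TWR.FRBAux

variable (V : ValuationSubring ℂ)

lemma mem_of_int {L : Type*} [Field L] (i : L →+* ℂ) (x : 𝓞 L) : i (x : L) ∈ V := by
  have h1 : IsIntegral ℤ (x : L) := x.2
  have h2 : IsIntegral ℤ (i (x : L)) := h1.map (i.toIntAlgHom)
  have h3 : IsIntegral V (i (x : L)) := h2.tower_top
  obtain ⟨y, hy⟩ := (IsIntegrallyClosed.isIntegral_iff (R := V) (K := ℂ)).1 h3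
  rw [← hy]
  exact y.2

/-- the integers of `L` are in `V` -/
noncomputable def toV {L : Type*} [Field L] (i : L →+* ℂ) : 𝓞 L →+* V :=
  RingHom.codRestrict (i.comp (algebraMap (𝓞 L) L)) V.toSubring (fun x => mem_of_int V i x)

lemma toV_coe {L : Type*} [Field L] (i : L →+* ℂ) (x : 𝓞 L) : ((toV V i x : V) : ℂ) = i (x : L) := rfl

/-- the centre of `V` -/
noncomputable def QQ {L : Type*} [Field L] (i : L →+* ℂ) : Ideal (𝓞 L) :=
  (IsLocalRing.maximalIdeal V).comap (toV V i)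

instance {L : Type*} [Field L] (i : L →+* ℂ) : (QQ V i).IsPrime := by
  unfold QQ; infer_instance

lemma mem_QQ {L : Type*} [Field L] (i : L →+* ℂ) (x : 𝓞 L) :
    x ∈ QQ V i ↔ V.valuation (i (x : L)) < 1 := by
  rw [QQ, Ideal.mem_comap, ← toV_coe V i x, ValuationSubring.valuation_lt_one_iff]

lemma val_le {L : Type*} [Field L] (i : L →+* ℂ) (x : 𝓞 L) : V.valuation (i (x : L)) ≤ 1 :=
  (V.valuation_le_one_iff _).2 (mem_of_int V i x)

lemma not_mem_QQ {L : Type*} [Field L] (i : L →+* ℂ) (x : 𝓞 L) :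
    x ∉ QQ V i ↔ V.valuation (i (x : L)) = 1 := by
  rw [mem_QQ, not_lt]
  exact ⟨fun h => le_antisymm (val_le V i x) h, fun h => h.ge⟩

variable {p : ℕ} (hV : V.valuation (p : ℂ) < 1) (hp : p.Prime)

include hV in
lemma p_mem {L : Type*} [Field L] (i : L →+* ℂ) : (p : 𝓞 L) ∈ QQ V i := by
  rw [mem_QQ]
  simpa using hV

include hV hp in
lemma QQ_ne_bot {L : Type*} [Field L] [NumberField L] (i : L →+* ℂ) : QQ V i ≠ ⊥ := by
  intro h
  have := p_mem V hV i
  rw [h, Ideal.mem_bot] at this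
  have h2 : (p : 𝓞 L) ≠ 0 := by exact_mod_cast hp.ne_zero
  exact h2 this

include hV hp in
lemma QQ_finite {L : Type*} [Field L] [NumberField L] (i : L →+* ℂ) : Finite (𝓞 L ⧸ QQ V i) :=
  Ideal.finiteQuotientOfFreeOfNeBot _ (QQ_ne_bot V hV hp i)

include hV hp in
lemma card_QQ {L : Type*} [Field L] [NumberField L] (i : L →+* ℂ) :
    ∃ k : ℕ, 1 ≤ k ∧ Nat.card (𝓞 L ⧸ QQ V i) = p ^ k := by
  have := QQ_finite V hV hp i
  have : (QQ V i).IsMaximal := Ideal.IsPrime.isMaximal inferInstance (QQ_ne_bot V hV hp i)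
  let _ := Ideal.Quotient.field (QQ V i)
  have := Fintype.ofFinite (𝓞 L ⧸ QQ V i)
  have : CharP (𝓞 L ⧸ QQ V i) p := by
    obtain ⟨r, hr⟩ := CharP.exists (𝓞 L ⧸ QQ V i)
    have h0 : ((p : ℕ) : 𝓞 L ⧸ QQ V i) = 0 := by
      have := Ideal.Quotient.eq_zero_iff_mem.2 (p_mem V hV i)
      simpa using this
    have h1 : r ∣ p := (CharP.cast_eq_zero_iff _ r p).1 h0
    rcases (Nat.dvd_prime hp).1 h1 with rfl | rfl
    · exfalso
      have h3 := CharP.cast_eq_zero (𝓞 L ⧸ QQ V i) 1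
      rw [Nat.cast_one] at h3
      exact one_ne_zero h3
    · exact hr
  obtain ⟨k, -, hk⟩ := FiniteField.card (𝓞 L ⧸ QQ V i) p
  exact ⟨k, k.2, by rw [Nat.card_eq_fintype_card, hk]⟩

/-- `V ∩ L` is the localisation at the centre -/
lemma frac {L : Type*} [Field L] [NumberField L] (Q : Ideal (𝓞 L)) [Q.IsPrime] (hQ : Q ≠ ⊥)
    (y : L) : ∃ a s : 𝓞 L, s ∉ Q ∧ (y * s = a ∨ y⁻¹ * s = a) := by
  have hS : Q.primeCompl ≤ nonZeroDivisors (𝓞 L) := Q.primeCompl_le_nonZeroDivisors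
  let B := Localization.subalgebra.ofField L Q.primeCompl hS
  have h1 : IsLocalization Q.primeCompl B := inferInstance
  have h2 : IsLocalization.AtPrime B Q := h1
  have h3 : IsDiscreteValuationRing B :=
    IsLocalization.AtPrime.isDiscreteValuationRing_of_dedekind_domain (𝓞 L) hQ B
  have h4 : IsFractionRing B L := inferInstance
  have key : ∀ z : L, IsLocalization.IsInteger B z → ∃ a s : 𝓞 L, s ∉ Q ∧ z * s = a := by
    rintro z ⟨b, hb⟩
    obtain ⟨⟨a, s⟩, hs⟩ := IsLocalization.surj (M := Q.primeCompl) b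
    refine ⟨a, s, s.2, ?_⟩
    have := congrArg (algebraMap B L) hs
    rw [map_mul, hb] at this
    exact this
  rcases ValuationRing.isInteger_or_isInteger B y with h | h
  · obtain ⟨a, s, hs, h⟩ := key _ h
    exact ⟨a, s, hs, Or.inl h⟩
  · obtain ⟨a, s, hs, h⟩ := key _ h
    exact ⟨a, s, hs, Or.inr h⟩

lemma sq_mod (q : ℕ) (h : Nat.Coprime q 24) : 24 ∣ q ^ 2 - 1 := by
  have h1 : ∀ x : ZMod 24, IsUnit x → x ^ 2 = 1 := by decide
  have h2 := h1 (q : ZMod 24) ((ZMod.isUnit_iff_coprime q 24).2 h)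
  have h3 : ((q ^ 2 : ℕ) : ZMod 24) = ((1 : ℕ) : ZMod 24) := by push_cast; exact h2
  rw [ZMod.natCast_eq_natCast_iff] at h3
  exact (Nat.modEq_iff_dvd' (by
    have : q ≠ 0 := by rintro rfl; simp at h
    exact Nat.one_le_pow _ _ (Nat.pos_of_ne_zero this))).1 h3.symm

include hV hp in
lemma frob {K L : Type*} [Field K] [NumberField K] [Field L] [NumberField L] [Algebra K L]
    [IsGalois K L] (i : L →+* ℂ) : ∃ σ : L ≃ₐ[K] L,
      (∀ y : L, V.valuation (i y) < 1 → V.valuation (i (σ y)) < 1) ∧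
      ∀ (n : ℕ) (ζ : L), ¬ p ∣ n → ζ ^ n = 1 →
        σ ζ = ζ ^ Nat.card (𝓞 K ⧸ QQ V (i.comp (algebraMap K L))) := by
  have := QQ_finite V hV hp i
  obtain ⟨σ, hσ⟩ := IsArithFrobAt.exists_of_isInvariant (𝓞 K) (L ≃ₐ[K] L) (QQ V i)
  have hunder : (QQ V i).under (𝓞 K) = QQ V (i.comp (algebraMap K L)) := by
    ext x
    rw [Ideal.under, Ideal.mem_comap, mem_QQ, mem_QQ]
    rfl
  have hco : ∀ x : 𝓞 L, ((σ • x : 𝓞 L) : L) = σ (x : L) := fun x => rfl
  refine ⟨σ, ?_, ?_⟩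
  · intro y hy
    by_cases h0 : y = 0
    · rw [h0, map_zero, map_zero, map_zero]; exact zero_lt_one
    obtain ⟨a, s, hs, h | h⟩ := frac (QQ V i) (QQ_ne_bot V hV hp i) y
    · have h1 : V.valuation (i (a : L)) < 1 := by
        rw [← h, map_mul, map_mul, (not_mem_QQ V i s).1 hs, mul_one]; exact hy
      have ha : a ∈ QQ V i := (mem_QQ V i a).2 h1
      have h2 : σ • a ∈ QQ V i := hσ.le_comap ha
      have h3 : σ • s ∉ QQ V i := by
        intro h
        apply hs
        rw [← hσ.comap_eq]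
        exact h
      rw [mem_QQ, hco, ← h, map_mul, map_mul, map_mul, ← hco s, (not_mem_QQ V i _).1 h3,
        mul_one] at h2
      exact h2
    · exfalso
      have h1 := val_le V i a
      rw [← h, map_mul, map_mul, (not_mem_QQ V i s).1 hs, mul_one, map_inv₀, map_inv₀] at h1
      have h2 : V.valuation (i y) ≠ 0 := by simpa using h0
      rw [inv_le_one₀ (zero_lt_iff.2 h2)] at h1
      exact absurd hy (not_lt.2 h1)
  · intro n ζ hn hζ
    have hn0 : n ≠ 0 := by rintro rfl; exact hn (dvd_zero p)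
    have hint : IsIntegral ℤ ζ := IsIntegral.of_pow (Nat.pos_of_ne_zero hn0) (by
      rw [hζ]; exact isIntegral_one)
    let z : 𝓞 L := ⟨ζ, hint⟩
    have hz : z ^ n = 1 := by
      apply RingOfIntegers.ext
      change (algebraMap (𝓞 L) L) (z ^ n) = algebraMap (𝓞 L) L 1
      rw [map_pow, map_one]
      exact hζ
    have hnQ : ((n : ℕ) : 𝓞 L) ∉ QQ V i := by
      intro h
      have hc : IsCoprime (n : ℤ) (p : ℤ) :=
        Nat.isCoprime_iff_coprime.2 ((Nat.Prime.coprime_iff_not_dvd hp).2 hn).symm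
      obtain ⟨u, w, huw⟩ := hc
      have h5 : (u : 𝓞 L) * (n : 𝓞 L) + (w : 𝓞 L) * (p : 𝓞 L) = 1 := by exact_mod_cast huw
      apply (inferInstance : (QQ V i).IsPrime).ne_top
      rw [Ideal.eq_top_iff_one, ← h5]
      exact Ideal.add_mem _ (Ideal.mul_mem_left _ _ h) (Ideal.mul_mem_left _ _ (p_mem V hV i))
    have h1 := hσ.apply_of_pow_eq_one hz hnQ
    rw [hunder] at h1
    have h2 := congrArg (algebraMap (𝓞 L) L) h1
    rw [map_pow] at h2
    exact h2

end Pool.Agent.TWR.FRBAux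

namespace Pool.Agent.TWR

open Finset Pool.Agent.TWR.FRBAux

theorem t_FRB : S_FRB := by
  intro V p hp h5 hV K hK
  have : NumberField K := { to_charZero := inferInstance, to_finiteDimensional := hK }
  obtain ⟨k, hk1, hk⟩ := card_QQ V hV hp (algebraMap K ℂ)
  have hcop : Nat.Coprime (p ^ k) 24 := by
    apply Nat.Coprime.pow_left
    rw [Nat.Prime.coprime_iff_not_dvd hp]
    intro h
    have h1 : p ∣ 2 ^ 3 * 3 := h
    rcases (Nat.Prime.dvd_mul hp).1 h1 with h2 | h2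
    · have := Nat.le_of_dvd (by norm_num) (hp.dvd_of_dvd_pow h2)
      omega
    · have := Nat.le_of_dvd (by norm_num) h2
      omega
  refine ⟨(p ^ k) ^ 2, ?_, sq_mod _ hcop, ?_⟩
  · apply Nat.one_lt_pow (by norm_num)
    exact Nat.one_lt_pow (by omega) hp.one_lt
  intro n hn hpn ξ hξ x hx hlt
  have hm : 0 < orderOf ξ := orderOf_pos_iff.2 (isOfFinOrder_iff_pow_eq_one.2 ⟨n, Nat.pos_of_ne_zero hn, hξ⟩)
  have hprim : IsPrimitiveRoot ξ (orderOf ξ) := IsPrimitiveRoot.orderOf ξ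
  have : NeZero (orderOf ξ) := ⟨hm.ne'⟩
  let L := IntermediateField.adjoin K ({ξ} : Set ℂ)
  have hcyc : IsCyclotomicExtension {orderOf ξ} K L := by
    change IsCyclotomicExtension {orderOf ξ} K (IntermediateField.adjoin K {ξ}).toSubalgebra
    rw [IntermediateField.adjoin_simple_toSubalgebra_of_isAlgebraic
      ((hprim.isIntegral hm).tower_top (A := K)).isAlgebraic]
    exact hprim.adjoin_isCyclotomicExtension K
  have hfin : FiniteDimensional K L := IsCyclotomicExtension.finiteDimensional {orderOf ξ} K L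
  have hgal : IsGalois K L := IsCyclotomicExtension.isGalois {orderOf ξ} K L
  have hfin2 : FiniteDimensional ℚ L := FiniteDimensional.trans ℚ K L
  have : NumberField L := { to_charZero := inferInstance, to_finiteDimensional := hfin2 }
  obtain ⟨σ, h1, h2⟩ := frob V hV hp (K := K) (L := L) (algebraMap L ℂ)
  have hcard : Nat.card (𝓞 K ⧸ QQ V ((algebraMap L ℂ).comp (algebraMap K L))) = p ^ k := hk
  rw [hcard] at h2
  let ξ' : L := ⟨ξ, IntermediateField.mem_adjoin_simple_self K ξ⟩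
  have hξ' : ξ' ^ n = 1 := Subtype.ext hξ
  have h3 := h2 n ξ' hpn hξ'
  let y : ℕ → K := fun i => ⟨x i, hx i⟩
  have hy : ∀ (j : ℕ → ℕ), algebraMap L ℂ (∑ i ∈ range n, algebraMap K L (y i) * ξ' ^ (j i)) =
      ∑ i ∈ range n, x i * ξ ^ (j i) := by
    intro j
    rw [map_sum]
    refine Finset.sum_congr rfl fun i _ => ?_
    rw [map_mul, map_pow]
    rfl
  have hσ : ∀ (j : ℕ → ℕ), σ (∑ i ∈ range n, algebraMap K L (y i) * ξ' ^ (j i)) =
      ∑ i ∈ range n, algebraMap K L (y i) * ξ' ^ (p ^ k * j i) := by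
    intro j
    rw [map_sum]
    refine Finset.sum_congr rfl fun i _ => ?_
    rw [map_mul, map_pow, AlgEquiv.commutes, h3, ← pow_mul]
  have e1 := h1 _ (by rw [hy (fun i => i)]; exact hlt)
  rw [hσ] at e1
  have e2 := h1 _ e1
  rw [hσ, hy] at e2
  have e3 : ∀ i, p ^ k * (p ^ k * i) = (p ^ k) ^ 2 * i := fun i => by ring
  simp only [e3] at e2
  exact e2

end Pool.Agent.TWR
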