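import Pool.Agent.TWR.St

/-!
# TWR, the powers of the generator
-/

set_option autoImplicit false

namespace Pool.Agent.TWR

open Finset

namespace GPWAux

/-- First clause. -/
theorem pw (l g h : ℕ) (hG : Gen l g h) (k : ℕ) :
    ∃ w : ℤ, IsCoprime w (l : ℤ) ∧ (g : ℤ) ^ (l ^ k) = 1 + (l : ℤ) ^ (k + h) * w := by
  rcases hG with ⟨rfl, rfl, rfl⟩ | ⟨rfl, rfl, rfl⟩
  · induction k with
    | zero => exact ⟨1, isCoprime_one_left, by norm_num⟩
    | succ k ih =>
      obtain ⟨w, hw, he⟩ := ih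
      refine ⟨w + (3 ^ k * w ^ 2 + 3 ^ (2 * k) * w ^ 3) * 3, ?_, ?_⟩
      · have h1 : IsCoprime w ((3 : ℕ) : ℤ) := hw
        push_cast at h1 ⊢
        exact (IsCoprime.add_mul_right_left_iff).mpr h1
      · rw [pow_succ 3 k, pow_mul, he]
        push_cast
        ring
  · induction k with
    | zero => exact ⟨1, isCoprime_one_left, by norm_num⟩
    | succ k ih =>
      obtain ⟨w, hw, he⟩ := ih
      refine ⟨w + (2 ^ k * w ^ 2) * 2, ?_, ?_⟩
      · have h1 : IsCoprime w ((2 : ℕ) : ℤ) := hw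
        push_cast at h1 ⊢
        exact (IsCoprime.add_mul_right_left_iff).mpr h1
      · rw [pow_succ 2 k, pow_mul, he]
        push_cast
        ring

theorem prime_l {l g h : ℕ} (hG : Gen l g h) : l.Prime := by
  rcases hG with ⟨rfl, rfl, rfl⟩ | ⟨rfl, rfl, rfl⟩
  · exact Nat.prime_three
  · exact Nat.prime_two

theorem tot {l g h : ℕ} (hG : Gen l g h) (k : ℕ) : Nat.totient (l ^ (k + h)) = 2 * l ^ k := by
  rcases hG with ⟨rfl, rfl, rfl⟩ | ⟨rfl, rfl, rfl⟩
  · rw [Nat.totient_prime_pow_succ Nat.prime_three]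
    ring
  · rw [Nat.totient_prime_pow_succ Nat.prime_two]
    ring

theorem red {l g h : ℕ} (hG : Gen l g h) :
    (g : ZMod (l ^ h)) = 1 ∧ (1 : ZMod (l ^ h)) ≠ -1 := by
  rcases hG with ⟨rfl, rfl, rfl⟩ | ⟨rfl, rfl, rfl⟩
  · exact ⟨by decide, by decide⟩
  · exact ⟨by decide, by decide⟩

/-- Second clause. -/
theorem one (l g h : ℕ) (hG : Gen l g h) (k : ℕ) :
    (g : ZMod (l ^ (k + h))) ^ (l ^ k) = 1 := by
  obtain ⟨w, _, he⟩ := pw l g h hG k
  have h1 := congrArg (fun x : ℤ => (x : ZMod (l ^ (k + h)))) he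
  have h2 : ((l : ZMod (l ^ (k + h))) ^ (k + h)) = 0 := by
    have := ZMod.natCast_self (l ^ (k + h))
    push_cast at this
    exact this
  push_cast at h1
  rw [h1, h2]
  ring

theorem order (l g h : ℕ) (hG : Gen l g h) (k : ℕ) :
    orderOf (g : ZMod (l ^ (k + h))) = l ^ k := by
  have hl := prime_l hG
  cases k with
  | zero =>
    have h1 := one l g h hG 0
    rw [pow_zero, pow_one] at h1
    rw [h1, orderOf_one, pow_zero]
  | succ k =>
    have : Fact l.Prime := ⟨hl⟩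
    apply orderOf_eq_prime_pow
    · intro h1
      obtain ⟨w, hw, he⟩ := pw l g h hG k
      have h2 : (((g : ℤ) ^ (l ^ k) : ℤ) : ZMod (l ^ (k + 1 + h))) = ((1 : ℤ) : ZMod _) := by
        push_cast
        exact h1
      rw [ZMod.intCast_eq_intCast_iff_dvd_sub, he] at h2
      have h3 : ((l ^ (k + 1 + h) : ℕ) : ℤ) = (l : ℤ) ^ (k + h) * l := by
        push_cast
        ring
      have h4 : (1 : ℤ) - (1 + (l : ℤ) ^ (k + h) * w) = (l : ℤ) ^ (k + h) * (-w) := by ring
      rw [h3, h4] at h2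
      have hl0 : (l : ℤ) ^ (k + h) ≠ 0 := pow_ne_zero _ (by exact_mod_cast hl.ne_zero)
      have h5 : (l : ℤ) ∣ w := (dvd_neg).mp ((mul_dvd_mul_iff_left hl0).mp h2)
      have h6 : IsUnit (l : ℤ) := hw.symm.isUnit_of_dvd' dvd_rfl h5
      have h7 := Int.natAbs_of_isUnit h6
      rw [Int.natAbs_natCast] at h7
      exact hl.one_lt.ne' h7
    · exact one l g h hG (k + 1)

theorem neg_ne (l g h : ℕ) (hG : Gen l g h) (k t s : ℕ) :
    (g : ZMod (l ^ (k + h))) ^ t ≠ -(g : ZMod (l ^ (k + h))) ^ s := by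
  intro he
  have hdvd : l ^ h ∣ l ^ (k + h) := pow_dvd_pow l (by omega)
  have h1 := congrArg (ZMod.castHom hdvd (ZMod (l ^ h))) he
  rw [map_pow, map_neg, map_pow, map_natCast, (red hG).1, one_pow, one_pow] at h1
  exact (red hG).2 h1

/-- All units are `± g^t`. -/
theorem units (l g h : ℕ) (hG : Gen l g h) (k : ℕ) [NeZero (l ^ (k + h))] :
    (univ : Finset (ZMod (l ^ (k + h)))).filter (fun x => IsUnit x) =
      ((range (l ^ k)).image fun t => (g : ZMod (l ^ (k + h))) ^ t) ∪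
        ((range (l ^ k)).image fun t => -(g : ZMod (l ^ (k + h))) ^ t) ∧
    Disjoint ((range (l ^ k)).image fun t => (g : ZMod (l ^ (k + h))) ^ t)
      ((range (l ^ k)).image fun t => -(g : ZMod (l ^ (k + h))) ^ t) ∧
    Set.InjOn (fun t => (g : ZMod (l ^ (k + h))) ^ t) (range (l ^ k)) := by
  have hinj : Set.InjOn (fun t => (g : ZMod (l ^ (k + h))) ^ t) (range (l ^ k)) := by
    intro a ha b hb hab
    have ha' := Finset.mem_range.mp (Finset.mem_coe.mp ha)
    have hb' := Finset.mem_range.mp (Finset.mem_coe.mp hb)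
    rw [← order l g h hG k] at ha' hb'
    exact pow_injOn_Iio_orderOf ha' hb' hab
  have hinj2 : Set.InjOn (fun t => -(g : ZMod (l ^ (k + h))) ^ t) (range (l ^ k)) := by
    intro a ha b hb hab
    exact hinj ha hb (neg_injective hab)
  have hdis : Disjoint ((range (l ^ k)).image fun t => (g : ZMod (l ^ (k + h))) ^ t)
      ((range (l ^ k)).image fun t => -(g : ZMod (l ^ (k + h))) ^ t) := by
    rw [Finset.disjoint_left]
    intro x hx hy
    obtain ⟨t, _, ht⟩ := Finset.mem_image.mp hx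
    obtain ⟨s, _, hs⟩ := Finset.mem_image.mp hy
    exact neg_ne l g h hG k t s (ht.trans hs.symm)
  refine ⟨?_, hdis, hinj⟩
  symm
  have hg : IsUnit (g : ZMod (l ^ (k + h))) := by
    have h1 := one l g h hG k
    exact IsUnit.of_pow_eq_one h1 (pow_ne_zero _ (prime_l hG).ne_zero)
  apply Finset.eq_of_subset_of_card_le
  · intro x hx
    rw [Finset.mem_filter]
    refine ⟨mem_univ _, ?_⟩
    rcases Finset.mem_union.mp hx with h1 | h1
    · obtain ⟨t, _, ht⟩ := Finset.mem_image.mp h1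
      rw [← ht]
      exact hg.pow t
    · obtain ⟨t, _, ht⟩ := Finset.mem_image.mp h1
      rw [← ht]
      exact (hg.pow t).neg
  · rw [Finset.card_union_of_disjoint hdis, Finset.card_image_of_injOn hinj,
      Finset.card_image_of_injOn hinj2, Finset.card_range]
    have h1 : ((univ : Finset (ZMod (l ^ (k + h)))).filter fun x => IsUnit x) ⊆
        (univ : Finset (ZMod (l ^ (k + h)))ˣ).image
          (fun u : (ZMod (l ^ (k + h)))ˣ => (u : ZMod (l ^ (k + h)))) := by
      intro x hx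
      obtain ⟨u, hu⟩ := (Finset.mem_filter.mp hx).2
      exact Finset.mem_image.mpr ⟨u, mem_univ _, hu⟩
    have h2 := (Finset.card_le_card h1).trans Finset.card_image_le
    rw [Finset.card_univ, ZMod.card_units_eq_totient, tot hG k] at h2
    omega

/-- A sum over `range n` as a sum over `ZMod n`. -/
theorem sum_range_zmod (n : ℕ) [NeZero n] (F : ZMod n → ℂ) :
    ∑ c ∈ range n, F (c : ZMod n) = ∑ x : ZMod n, F x := by
  apply Finset.sum_nbij' (fun c : ℕ => (c : ZMod n)) (fun x : ZMod n => x.val)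
  · intro c _
    exact mem_univ _
  · intro x _
    exact Finset.mem_range.mpr (ZMod.val_lt x)
  · intro c hc
    exact ZMod.val_cast_of_lt (Finset.mem_range.mp hc)
  · intro x _
    exact ZMod.natCast_zmod_val x
  · intro c _
    rfl

/-- Third clause. -/
theorem sums (l g h : ℕ) (hG : Gen l g h) (k : ℕ) (F : ZMod (l ^ (k + h)) → ℂ)
    (hF : ∀ c, ¬ IsUnit c → F c = 0) :
    ∑ c ∈ range (l ^ (k + h)), F c = ∑ t ∈ range (l ^ k), (F ((g : ZMod (l ^ (k + h))) ^ t) +
      F (-(g : ZMod (l ^ (k + h))) ^ t)) := by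
  have : NeZero (l ^ (k + h)) := ⟨pow_ne_zero _ (prime_l hG).ne_zero⟩
  obtain ⟨h1, h2, h3⟩ := units l g h hG k
  have h4 : ∑ x : ZMod (l ^ (k + h)), F x =
      ∑ x ∈ (univ : Finset (ZMod (l ^ (k + h)))).filter (fun x => IsUnit x), F x := by
    symm
    apply Finset.sum_subset (Finset.filter_subset _ _)
    intro x _ hx
    apply hF
    intro hu
    exact hx (Finset.mem_filter.mpr ⟨mem_univ _, hu⟩)
  rw [sum_range_zmod, h4, h1, Finset.sum_union h2, Finset.sum_image h3,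
    Finset.sum_image (fun a ha b hb hab => h3 ha hb (neg_injective hab)),
    ← Finset.sum_add_distrib]

/-- Fourth clause. -/
theorem exists_pow (l g h : ℕ) (hG : Gen l g h) (k : ℕ) (c : ℤ) (hc : IsCoprime c (l : ℤ)) :
    ∃ t : ℕ, (c : ZMod (l ^ (k + h))) = (g : ZMod (l ^ (k + h))) ^ t ∨
      (c : ZMod (l ^ (k + h))) = -(g : ZMod (l ^ (k + h))) ^ t := by
  have : NeZero (l ^ (k + h)) := ⟨pow_ne_zero _ (prime_l hG).ne_zero⟩
  obtain ⟨h1, -, -⟩ := units l g h hG k
  have hu : IsUnit (c : ZMod (l ^ (k + h))) := by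
    obtain ⟨a, b, hab⟩ := hc.pow_right (n := k + h)
    have h2 := congrArg (fun x : ℤ => (x : ZMod (l ^ (k + h)))) hab
    have h3 : ((l : ZMod (l ^ (k + h))) ^ (k + h)) = 0 := by
      have := ZMod.natCast_self (l ^ (k + h))
      push_cast at this
      exact this
    push_cast at h2
    rw [h3, mul_zero, add_zero] at h2
    rw [mul_comm] at h2
    exact IsUnit.of_mul_eq_one _ h2
  have h4 : (c : ZMod (l ^ (k + h))) ∈
      (univ : Finset (ZMod (l ^ (k + h)))).filter (fun x => IsUnit x) :=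
    Finset.mem_filter.mpr ⟨mem_univ _, hu⟩
  rw [h1] at h4
  rcases Finset.mem_union.mp h4 with h5 | h5
  · obtain ⟨t, _, ht⟩ := Finset.mem_image.mp h5
    exact ⟨t, Or.inl ht.symm⟩
  · obtain ⟨t, _, ht⟩ := Finset.mem_image.mp h5
    exact ⟨t, Or.inr ht.symm⟩

/-- The binomial theorem modulo `A ^ 2`. -/
theorem binom (A : ℤ) (i : ℕ) : A ^ 2 ∣ (1 + A) ^ i - (1 + A * i) := by
  induction i with
  | zero => simp
  | succ i ih =>
    obtain ⟨q, hq⟩ := ih
    refine ⟨q * (1 + A) + i, ?_⟩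
    have h1 : (1 + A) ^ i = A ^ 2 * q + (1 + A * i) := by linarith
    rw [pow_succ, h1]
    push_cast
    ring

/-- Fifth clause. -/
theorem lin (l g h m r : ℕ) (w : ℤ) (he : (g : ℤ) ^ (l ^ r) = 1 + (l : ℤ) ^ (r + h) * w)
    (hm : m ≤ r + h) (i : ℕ) :
    ((l ^ (m + r + h) : ℕ) : ℤ) ∣ (g : ℤ) ^ (l ^ r * i) - (1 + (l : ℤ) ^ (r + h) * w * i) := by
  rw [pow_mul, he]
  refine dvd_trans ?_ (binom ((l : ℤ) ^ (r + h) * w) i)
  have h1 : ((l ^ (m + r + h) : ℕ) : ℤ) ∣ (l : ℤ) ^ (2 * (r + h)) := by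
    push_cast
    exact pow_dvd_pow _ (by omega)
  refine dvd_trans h1 ?_
  rw [mul_pow, ← pow_mul, mul_comm (r + h) 2]
  exact dvd_mul_right _ _

end GPWAux

theorem t_GPW : S_GPW := by
  intro l g h hG
  exact ⟨GPWAux.pw l g h hG, GPWAux.one l g h hG, GPWAux.sums l g h hG,
    GPWAux.exists_pow l g h hG, fun m r w he hm i => GPWAux.lin l g h m r w he hm i⟩

end Pool.Agent.TWR
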