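import Pool.Agent.TWR.St

/-!
TWR, module KEY: the main step.
-/

set_option autoImplicit false

namespace Pool.Agent.TWR

open Finset OnePoint

namespace KEYM

/-- a power of `l` which is one modulo `k` -/
theorem exists_pow {l : ℕ} {k : ℤ} (hk : k ≠ 0) (h : IsCoprime k (l : ℤ)) :
    ∃ t : ℕ, 1 ≤ t ∧ k ∣ (l : ℤ) ^ t - 1 := by
  have h1 : Nat.Coprime l k.natAbs := by
    have := Int.isCoprime_iff_gcd_eq_one.mp h.symm
    rw [Int.gcd] at this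
    simpa using this
  have h2 : 0 < k.natAbs := Int.natAbs_pos.mpr hk
  refine ⟨Nat.totient k.natAbs, Nat.totient_pos.mpr h2, ?_⟩
  have h3 := (Nat.modEq_iff_dvd.mp (Nat.ModEq.pow_totient h1).symm)
  rw [← Int.natAbs_dvd]
  have h4 : ((k.natAbs : ℕ) : ℤ) ∣ ((l ^ Nat.totient k.natAbs : ℕ) : ℤ) - ((1 : ℕ) : ℤ) := h3
  push_cast at h4 ⊢
  exact h4

theorem coprime_of_sub {a b l k : ℤ} (h : IsCoprime a l) (hk : b - a = l * k) :
    IsCoprime b l := by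
  obtain ⟨x, y, hxy⟩ := h
  exact ⟨x, y - x * k, by linear_combination hxy + x * hk⟩

end KEYM

theorem t_KEY : M_KEY := by
  intro hTWP hEDG hCRT hCST R M _ _ _ l m hl hm z hz N0 v hN0 hN0l χ W hW E d u u' hvE hmd hdE hu
    hu' hs' hs hrec β δ s hδ hδN hβδ
  have hq0 : l ^ m ≠ 0 := pow_ne_zero _ hl.ne_zero
  obtain ⟨hz0, hzper, -, hTadd, hTsh, -, -⟩ := hTWP R M (l ^ m) hq0 z hz W hW.per
  obtain ⟨m1, hN0m1, hm1u, hm1δ, hm1l⟩ := hCRT l m N0 E d β δ u u' hl hm hN0 hN0l hδN hβδ hu hu'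
  have hlZ : (l : ℤ) ≠ 0 := by exact_mod_cast hl.ne_zero
  have hlQ : (l : ℚ) ≠ 0 := by exact_mod_cast hl.ne_zero
  have hδQ : (δ : ℚ) ≠ 0 := by exact_mod_cast hδ
  have hδl : IsCoprime δ (l : ℤ) := hδN.of_mul_right_right
  have hm10 : m1 ≠ 0 := by
    rintro rfl
    have h1 : IsUnit (l : ℤ) := isCoprime_zero_left.mp hm1l
    rw [Int.isUnit_iff] at h1
    have := hl.two_le
    omega
  push_cast at hm1u
  obtain ⟨A0, hA0⟩ := hm1δ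
  obtain ⟨k1, hk1⟩ := hm1u
  -- the functions
  obtain ⟨B0, hB0⟩ : ∃ B0 : ℤ, B0 = β * (l : ℤ) ^ E + u' * δ := ⟨_, rfl⟩
  rw [← hB0] at hA0
  let B : ℤ → ℤ := fun s => B0 + s * (l : ℤ) ^ m * δ
  let A : ℤ → ℤ := fun s => A0 + m1 * s * (l : ℤ) ^ m
  let H : ℤ → M := fun s => Tw (l ^ m) z W 1 ((B s : ℚ) / ((δ * (l : ℤ) ^ E : ℤ) : ℚ))
  have hC0 : (l : ℤ) ^ E * m1 ≠ 0 := mul_ne_zero (pow_ne_zero _ hlZ) hm10
  have hD0 : δ * (l : ℤ) ^ E ≠ 0 := mul_ne_zero hδ (pow_ne_zero _ hlZ)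
  have hEm : (l : ℤ) ^ E = (l : ℤ) ^ m * (l : ℤ) ^ (E - m) := by
    rw [← pow_add]
    congr 1
    omega
  have hEmQ : (l : ℚ) ^ E = (l : ℚ) ^ m * (l : ℚ) ^ (E - m) := by exact_mod_cast hEm
  have hdm : (l : ℤ) ^ d = (l : ℤ) ^ m * (l : ℤ) ^ (d - m) := by
    rw [← pow_add]
    congr 1
    omega
  have hAB : ∀ s : ℤ, (l : ℤ) ^ m ∣ A s * B s - u := by
    intro s
    have hcop : IsCoprime ((l : ℤ) ^ m) δ := hδl.symm.pow_left
    apply hcop.dvd_of_dvd_mul_left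
    refine ⟨δ * k1 + (m1 * (2 * β * (l : ℤ) ^ (E - m) * (u' * δ) +
      β ^ 2 * (l : ℤ) ^ (E - m) * (l : ℤ) ^ E) + (l : ℤ) ^ (d - m) * B s +
      m1 * s * δ * B s + m1 * B0 * s * δ), ?_⟩
    have e1 : δ * A s = m1 * B0 + (l : ℤ) ^ d + m1 * s * (l : ℤ) ^ m * δ := by
      show δ * (A0 + m1 * s * (l : ℤ) ^ m) = _
      linear_combination -hA0
    have e2 : B s = B0 + s * (l : ℤ) ^ m * δ := rfl
    have e3 : B0 ^ 2 = (u' * δ) ^ 2 + (l : ℤ) ^ m * (2 * β * (l : ℤ) ^ (E - m) * (u' * δ) +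
        β ^ 2 * (l : ℤ) ^ (E - m) * (l : ℤ) ^ E) := by
      rw [hB0]
      linear_combination (2 * β * (u' * δ) + β ^ 2 * (l : ℤ) ^ E) * hEm
    calc δ * (A s * B s - u) = (δ * A s) * B s - δ * u := by ring
      _ = (m1 * B0 + (l : ℤ) ^ d + m1 * s * (l : ℤ) ^ m * δ) * B s - δ * u := by rw [e1]
      _ = m1 * B0 ^ 2 + m1 * B0 * (s * (l : ℤ) ^ m * δ) + (l : ℤ) ^ d * B s +
          m1 * s * (l : ℤ) ^ m * δ * B s - δ * u := by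
        rw [show m1 * B0 ^ 2 + m1 * B0 * (s * (l : ℤ) ^ m * δ) = m1 * B0 * B s by rw [e2]; ring]
        ring
      _ = _ := by
        rw [e3, hdm]
        linear_combination δ * hk1
  have hAl : ∀ s : ℤ, IsCoprime (A s) (l : ℤ) := by
    intro s
    obtain ⟨k, hk⟩ := hAB s
    have h1 : IsCoprime (A s * B s) (l : ℤ) := by
      apply KEYM.coprime_of_sub hu (k := (l : ℤ) ^ (m - 1) * k)
      rw [hk, ← mul_assoc, ← pow_succ']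
      congr 2
      omega
    exact h1.of_mul_left_left
  have hdet : ∀ s : ℤ, A s * (δ * (l : ℤ) ^ E) - B s * ((l : ℤ) ^ E * m1) = (l : ℤ) ^ (E + d) := by
    intro s
    show (A0 + m1 * s * (l : ℤ) ^ m) * (δ * (l : ℤ) ^ E) -
      (B0 + s * (l : ℤ) ^ m * δ) * ((l : ℤ) ^ E * m1) = _
    rw [pow_add]
    linear_combination -(l : ℤ) ^ E * hA0
  have hNC : ((l ^ v * N0 * l ^ m * l ^ m : ℕ) : ℤ) ∣ (l : ℤ) ^ E * m1 := by
    obtain ⟨k, hk⟩ := hN0m1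
    refine ⟨(l : ℤ) ^ (E - (v + 2 * m)) * k, ?_⟩
    have h1 : (l : ℤ) ^ E = (l : ℤ) ^ v * (l : ℤ) ^ m * (l : ℤ) ^ m *
        (l : ℤ) ^ (E - (v + 2 * m)) := by
      rw [← pow_add, ← pow_add, ← pow_add]
      congr 1
      omega
    rw [h1, hk]
    push_cast
    ring
  have hcopAC : ∀ (s B' : ℤ) (n : ℕ),
      A s * (δ * (l : ℤ) ^ E) - B' * ((l : ℤ) ^ E * m1) = (l : ℤ) ^ n →
      IsCoprime (A s) ((l : ℤ) ^ E * m1) := by
    intro s B' n h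
    obtain ⟨x, y, hxy⟩ := (hAl s).pow_right (n := n)
    refine ⟨x + y * (δ * (l : ℤ) ^ E), -(y * B'), ?_⟩
    linear_combination hxy + y * h
  -- the period `T`
  have hδm1 : δ * m1 ≠ 0 := mul_ne_zero hδ hm10
  obtain ⟨t, ht1, ht⟩ := KEYM.exists_pow hδm1 (hδl.mul_left hm1l)
  obtain ⟨o, ho1, hto, hso⟩ := hrec t ht1
  have hdo : δ * m1 ∣ (l : ℤ) ^ o - 1 := by
    obtain ⟨k, rfl⟩ := hto
    rw [pow_mul]
    exact dvd_trans ht (sub_one_dvd_pow_sub_one _ _)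
  obtain ⟨T1, hT1⟩ := hdo
  have hT0l : IsCoprime (-T1) (l : ℤ) := by
    refine ⟨δ * m1, (l : ℤ) ^ (o - 1), ?_⟩
    have h1 : (l : ℤ) ^ (o - 1) * (l : ℤ) = (l : ℤ) ^ o := by
      rw [← pow_succ]
      congr 1
      omega
    linear_combination h1 + hT1
  have hedge : ∀ s, H s = Tw (l ^ m) z W 1 ((A s : ℚ) / (((l : ℤ) ^ E * m1 : ℤ) : ℚ)) := by
    intro s
    refine hEDG R M l m hl z hz (l ^ v * N0) χ W hW (E + d) u hs 1 (A s) (B s)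
      ((l : ℤ) ^ E * m1) (δ * (l : ℤ) ^ E) (by omega) hNC hC0 hD0
      (hcopAC s (B s) (E + d) (hdet s)) (hdet s) ?_
    rw [one_mul]
    push_cast
    exact hAB s
  have hdet2 : ∀ s : ℤ, A s * (δ * (l : ℤ) ^ E) -
      B (s + (l : ℤ) ^ (d - m) * (-T1)) * ((l : ℤ) ^ E * m1) = (l : ℤ) ^ (E + d + o) := by
    intro s
    have h1 : B (s + (l : ℤ) ^ (d - m) * (-T1)) = B s - (l : ℤ) ^ d * (T1 * δ) := by
      show B0 + (s + (l : ℤ) ^ (d - m) * (-T1)) * (l : ℤ) ^ m * δ =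
        B0 + s * (l : ℤ) ^ m * δ - (l : ℤ) ^ d * (T1 * δ)
      rw [hdm]
      ring
    rw [h1]
    have h2 := hdet s
    rw [pow_add _ (E + d) o]
    rw [pow_add] at h2 ⊢
    linear_combination h2 + (l : ℤ) ^ E * (l : ℤ) ^ d * (-1) * hT1
  have hedge2 : ∀ s, H (s + (l : ℤ) ^ (d - m) * (-T1)) =
      Tw (l ^ m) z W 1 ((A s : ℚ) / (((l : ℤ) ^ E * m1 : ℤ) : ℚ)) := by
    intro s
    refine hEDG R M l m hl z hz (l ^ v * N0) χ W hW (E + d + o) u hso 1 (A s)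
      (B (s + (l : ℤ) ^ (d - m) * (-T1)))
      ((l : ℤ) ^ E * m1) (δ * (l : ℤ) ^ E) (by omega) hNC hC0 hD0
      (hcopAC s _ (E + d + o) (hdet2 s)) (hdet2 s) ?_
    rw [one_mul]
    push_cast
    have h1 : B (s + (l : ℤ) ^ (d - m) * (-T1)) = B s - (l : ℤ) ^ m * ((l : ℤ) ^ (d - m) *
        (T1 * δ)) := by
      show B0 + (s + (l : ℤ) ^ (d - m) * (-T1)) * (l : ℤ) ^ m * δ =
        B0 + s * (l : ℤ) ^ m * δ - (l : ℤ) ^ m * ((l : ℤ) ^ (d - m) * (T1 * δ))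
      ring
    rw [h1]
    have h2 : A s * (B s - (l : ℤ) ^ m * ((l : ℤ) ^ (d - m) * (T1 * δ))) - u =
        (A s * B s - u) - (l : ℤ) ^ m * (A s * ((l : ℤ) ^ (d - m) * (T1 * δ))) := by ring
    rw [h2]
    exact dvd_sub (hAB s) (dvd_mul_right _ _)
  have hDQ : ((δ * (l : ℤ) ^ E : ℤ) : ℚ) ≠ 0 := by exact_mod_cast hD0
  have hper : ∀ s, H (s + (l : ℤ) ^ (E - m)) = H s := by
    intro s
    have h1 : B (s + (l : ℤ) ^ (E - m)) = B s + δ * (l : ℤ) ^ E := by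
      show B0 + (s + (l : ℤ) ^ (E - m)) * (l : ℤ) ^ m * δ =
        B0 + s * (l : ℤ) ^ m * δ + δ * (l : ℤ) ^ E
      rw [hEm]
      ring
    show Tw (l ^ m) z W 1 ((B (s + (l : ℤ) ^ (E - m)) : ℚ) / ((δ * (l : ℤ) ^ E : ℤ) : ℚ)) = _
    rw [h1, Int.cast_add, add_div, div_self hDQ]
    have h2 := hTadd 1 1 ((B s : ℚ) / ((δ * (l : ℤ) ^ E : ℤ) : ℚ))
    rw [Int.cast_one] at h2
    exact h2
  have hshift : ∀ s, H (s + (l : ℤ) ^ (E - 2 * m)) = z (-1) • H s := by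
    intro s
    have h0 : (l : ℤ) ^ (E - m) = (l : ℤ) ^ (E - 2 * m) * (l : ℤ) ^ m := by
      rw [← pow_add]
      congr 1
      omega
    have h1 : B (s + (l : ℤ) ^ (E - 2 * m)) = B s + δ * (l : ℤ) ^ (E - m) := by
      show B0 + (s + (l : ℤ) ^ (E - 2 * m)) * (l : ℤ) ^ m * δ =
        B0 + s * (l : ℤ) ^ m * δ + δ * (l : ℤ) ^ (E - m)
      rw [h0]
      ring
    show Tw (l ^ m) z W 1 ((B (s + (l : ℤ) ^ (E - 2 * m)) : ℚ) / ((δ * (l : ℤ) ^ E : ℤ) : ℚ)) = _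
    have h2 : ((B (s + (l : ℤ) ^ (E - 2 * m)) : ℤ) : ℚ) / ((δ * (l : ℤ) ^ E : ℤ) : ℚ) =
        (B s : ℚ) / ((δ * (l : ℤ) ^ E : ℤ) : ℚ) + 1 / ((l ^ m : ℕ) : ℚ) := by
      rw [h1, Int.cast_add, add_div]
      congr 1
      push_cast
      rw [hEmQ]
      have h3 : (l : ℚ) ^ (E - m) ≠ 0 := pow_ne_zero _ hlQ
      have h4 : (l : ℚ) ^ m ≠ 0 := pow_ne_zero _ hlQ
      field_simp
    rw [h2]
    exact hTsh 1 _
  have hunit : IsUnit (1 - z (-1)) := by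
    apply hz.un
    intro hcon
    have h1 := Int.eq_one_of_dvd_one (by positivity) ((Int.dvd_neg).mp hcon)
    have h2 : l ^ m = 1 := by exact_mod_cast h1
    have h3 := Nat.one_lt_pow (by omega : m ≠ 0) hl.one_lt
    omega
  have hfin := hCST R M l (E - m) (d - m) (E - 2 * m) (-T1) (z (-1)) H hT0l (by omega) hunit hper
    (fun s => by rw [hedge2 s, hedge s]) hshift s
  rw [← hfin]
  show _ = Tw (l ^ m) z W 1 ((B s : ℚ) / ((δ * (l : ℤ) ^ E : ℤ) : ℚ))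
  congr 1
  show _ = ((B0 + s * (l : ℤ) ^ m * δ : ℤ) : ℚ) / ((δ * (l : ℤ) ^ E : ℤ) : ℚ)
  rw [hB0]
  have h3 : (l : ℚ) ^ E ≠ 0 := pow_ne_zero _ hlQ
  push_cast
  field_simp
  ring

end Pool.Agent.TWR
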