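import Pool.Agent.TWR.St

/-!
# TWR, module MOD: from the twisted sums to the values
-/

set_option autoImplicit false

namespace Pool.Agent.TWR

open Finset OnePoint

namespace MODAux

variable {R M : Type} [CommRing R] [AddCommGroup M] [Module R M]

lemma chr_mul (hTWP : S_TWP) {q : ℕ} (hq : q ≠ 0) {z : ℤ → R} (hz : Chr q z) {W : ℚ → M}
    (hW : ∀ x, W (x + 1) = W x) {e : ℤ} (he : IsCoprime e (q : ℤ)) :
    Chr q (fun j => z (e * j)) := by
  obtain ⟨h0, hper, -⟩ := hTWP R M q hq z hz W hW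
  refine ⟨fun a b => ?_, ?_, fun j hj => ?_⟩
  · show z (e * (a + b)) = z (e * a) * z (e * b)
    rw [mul_add, hz.add]
  · show z (e * q) = 1
    rw [← h0]
    exact hper _ _ ⟨e, by ring⟩
  · exact hz.un _ fun h => hj (he.symm.dvd_of_dvd_mul_left h)

lemma star (hTWP : S_TWP) {l m : ℕ} (hq : l ^ m ≠ 0) {z : ℤ → R} (hz : Chr (l ^ m) z)
    {W : ℚ → M} (hW : ∀ x, W (x + 1) = W x) {e f : ℤ} (hef : ((l ^ m : ℕ) : ℤ) ∣ e * f - 1)
    {n : ℕ} {u : ℤ} (h : StarAt l m z W n u) :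
    StarAt l m (fun j => z (e * j)) W n (f * u) := by
  obtain ⟨-, -, -, -, -, -, hl⟩ := hTWP R M (l ^ m) hq z hz W hW
  intro c g hg
  rw [hl e g]
  apply h
  have h1 : e * g * c - u = e * (g * c - f * u) + (e * f - 1) * u := by ring
  rw [h1]
  exact dvd_add (hg.mul_left e) (hef.mul_right u)

end MODAux

open MODAux in
/-- MOD -/
theorem t_MOD : M_MOD := by
  intro hTWP hCLO hSUM R M _ _ _ l m hl hm hlu z hz N0 v hN0 hN0l χ W hQ hdep E d u u' hE hmd hdE
    hu hu' hs' hs hrec a b c d1 hdet hc hd1 hc0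
  have hq : l ^ m ≠ 0 := pow_ne_zero _ hl.ne_zero
  have hW := hQ.per
  obtain ⟨-, -, -, -, -, -, hlast⟩ := hTWP R M (l ^ m) hq z hz W hW
  obtain ⟨hs1, hs2⟩ := hSUM R M l m hl hm z hz W hW hdep
  have hpl : Prime (l : ℤ) := Nat.prime_iff_prime_int.1 hl
  have key : ∀ e : ℤ, Tw (l ^ m) z W e ((a : ℚ) / c) = 0 := by
    intro e
    by_cases he : (l : ℤ) ∣ e
    · exact hs1 e _ he
    · have hel : IsCoprime e (l : ℤ) := ((Prime.coprime_iff_not_dvd hpl).2 he).symm
      have heq : IsCoprime e ((l ^ m : ℕ) : ℤ) := by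
        push_cast
        exact hel.pow_right
      obtain ⟨f, s, hfs⟩ := heq
      have hef : ((l ^ m : ℕ) : ℤ) ∣ e * f - 1 := ⟨-s, by linear_combination hfs⟩
      have hfl : IsCoprime f (l : ℤ) := by
        have h1 : (l : ℤ) ∣ ((l ^ m : ℕ) : ℤ) := by
          push_cast
          exact dvd_pow_self _ (by omega)
        obtain ⟨t, ht⟩ := h1
        exact ⟨e, s * t, by rw [← hfs, ht]; ring⟩
      have heq : IsCoprime e ((l ^ m : ℕ) : ℤ) := by
        push_cast
        exact hel.pow_right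
      have h2 := hCLO R M l m hl hm (fun j => z (e * j)) (chr_mul hTWP hq hz hW heq) N0 v hN0 hN0l
        χ W hQ E d (f * u) (f * u') hE hmd hdE (hfl.mul_left hu) (hfl.mul_left hu')
        (star hTWP hq hz hW hef hs') (star hTWP hq hz hW hef hs)
        (fun q hq1 => by
          obtain ⟨o, ho1, ho2, ho3⟩ := hrec q hq1
          exact ⟨o, ho1, ho2, star hTWP hq hz hW hef ho3⟩) a b c d1 hdet hc hd1 hc0
      rw [hlast e 1, mul_one] at h2
      exact h2
  have h3 := hs2 ((a : ℚ) / c)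
  rw [Finset.sum_eq_zero fun (e : ℕ) _ => key (e : ℤ)] at h3
  have hun : IsUnit ((l ^ m : ℕ) : R) := by
    push_cast
    exact hlu.pow m
  obtain ⟨w, hw⟩ := hun
  rw [← hw] at h3
  have h4 := congrArg (fun y => (↑w⁻¹ : R) • y) h3
  simp only [smul_zero, smul_smul, Units.inv_mul, one_smul] at h4
  exact h4.symm

end Pool.Agent.TWR
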