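import Pool.Agent.TWR.St2

/-!
# TWR, module NFV: the values of a modular symbol with algebraic values lie in a number field
(problem MP_b78433_nt)
-/

set_option autoImplicit false

namespace Pool.Agent.TWR

open Finset OnePoint

namespace NFVAux

open Pool.Agent.MuSym

/-- the cusp with homogeneous coordinates `(a : c)` -/
noncomputable def pt (a c : ℤ) : OnePoint ℚ :=
  if c = 0 then ∞ else (((a : ℚ) / c : ℚ) : OnePoint ℚ)

theorem pt_zero (a : ℤ) : pt a 0 = ∞ := if_pos rfl

theorem pt_ne (a c : ℤ) (h : c ≠ 0) : pt a c = (((a : ℚ) / c : ℚ) : OnePoint ℚ) := if_neg h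

theorem mob_pt (A B C D a c : ℤ) (h : a ≠ 0 ∨ c ≠ 0) :
    mob A B C D (pt a c) = pt (A * a + B * c) (C * a + D * c) := by
  by_cases hc : c = 0
  · subst hc
    have ha : a ≠ 0 := by simpa using h
    rw [pt_zero]
    by_cases hC : C = 0
    · subst hC
      rw [show (0 : ℤ) * a + D * 0 = 0 by ring, pt_zero]
      simp [mob]
    · have h1 : C * a + D * 0 ≠ 0 := by
        rw [mul_zero, add_zero]
        exact mul_ne_zero hC ha
      rw [pt_ne _ _ h1]
      have ha' : (a : ℚ) ≠ 0 := by exact_mod_cast ha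
      have hC' : (C : ℚ) ≠ 0 := by exact_mod_cast hC
      have h2 : mob A B C D ∞ = (((A : ℚ) / C : ℚ) : OnePoint ℚ) := by
        simp [mob, hC]
      rw [h2]
      congr 1
      push_cast
      field_simp
      ring
  · rw [pt_ne _ _ hc]
    have hc' : (c : ℚ) ≠ 0 := by exact_mod_cast hc
    have h3 : mob A B C D ((((a : ℚ) / c : ℚ)) : OnePoint ℚ) =
        if (C : ℚ) * ((a : ℚ) / c) + D = 0 then ∞
        else ((((A : ℚ) * ((a : ℚ) / c) + B) / ((C : ℚ) * ((a : ℚ) / c) + D) : ℚ) : OnePoint ℚ) := rfl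
    rw [h3]
    have h4 : (C : ℚ) * ((a : ℚ) / c) + D = ((C * a + D * c : ℤ) : ℚ) / c := by
      push_cast
      field_simp
    have h5 : (A : ℚ) * ((a : ℚ) / c) + B = ((A * a + B * c : ℤ) : ℚ) / c := by
      push_cast
      field_simp
    by_cases h0 : C * a + D * c = 0
    · rw [h0, pt_zero, if_pos]
      rw [h4, h0]
      simp
    · rw [pt_ne _ _ h0, if_neg]
      · rw [h4, h5]
        congr 1
        exact div_div_div_cancel_right₀ hc' _ _
      · rw [h4]
        have : ((C * a + D * c : ℤ) : ℚ) ≠ 0 := by exact_mod_cast h0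
        exact div_ne_zero this hc'

theorem pp (P : OnePoint ℚ → OnePoint ℚ → ℂ) (h : ∀ x y z, P x y + P y z = P x z) : P ∞ ∞ = 0 := by
  have := h ∞ ∞ ∞
  simpa using this

/-- equivariance of `m γ = P (γ ∞) (γ 0)` -/
theorem equi (N : ℕ) (nu : ℤ → ℂ) (P : OnePoint ℚ → OnePoint ℚ → ℂ) (hP : _root_.MU3.IsSym N nu P)
    (a b c d a' b' c' d' : ℤ) (h : a * d - b * c = 1) (h' : a' * d' - b' * c' = 1)
    (hc : (N : ℤ) ∣ c' - c) (hd : (N : ℤ) ∣ d' - d) :
    P (pt a' c') (pt b' d') = nu (a * d' - b * c') * P (pt a c) (pt b d) := by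
  have h1 := hP.equiv (a' * d - b' * c) (a * b' - a' * b) (c' * d - d' * c) (a * d' - b * c')
    (by linear_combination (a * d - b * c) * h' + h) (by
      have h2 : c' * d - d' * c = (c' - c) * d - (d' - d) * c := by ring
      rw [h2]
      exact (hc.mul_right _).sub (hd.mul_right _)) (pt a c) (pt b d)
  have e1 : mob (a' * d - b' * c) (a * b' - a' * b) (c' * d - d' * c) (a * d' - b * c') (pt a c) =
      pt a' c' := by
    rw [mob_pt _ _ _ _ _ _ (by
      by_contra hh
      push Not at hh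
      rw [hh.1, hh.2] at h
      simp at h)]
    congr 1
    · linear_combination a' * h
    · linear_combination c' * h
  have e2 : mob (a' * d - b' * c) (a * b' - a' * b) (c' * d - d' * c) (a * d' - b * c') (pt b d) =
      pt b' d' := by
    rw [mob_pt _ _ _ _ _ _ (by
      by_contra hh
      push Not at hh
      rw [hh.1, hh.2] at h
      simp at h)]
    congr 1
    · linear_combination b' * h
    · linear_combination d' * h
  rw [e1, e2] at h1
  exact h1

end NFVAux

open NFVAux

theorem t_NFV : S_NFV := by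
  intro N hN nu hnu hnua P hP hPa
  have hNpos : (0 : ℤ) < N := by exact_mod_cast Nat.pos_of_ne_zero hN
  have hii : P ∞ ∞ = 0 := pp P hP.add
  -- all values are algebraic
  have halg0 : ∀ x : OnePoint ℚ, IsAlgebraic ℚ (P ∞ x) := by
    intro x
    induction x using OnePoint.rec with
    | infty => rw [hii]; exact isAlgebraic_zero
    | coe x => exact hPa x
  have halg : ∀ x y : OnePoint ℚ, IsAlgebraic ℚ (P x y) := by
    intro x y
    have h1 : P x y = P ∞ y - P ∞ x := by
      rw [← hP.add ∞ x y]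
      ring
    rw [h1]
    exact (halg0 y).sub (halg0 x)
  -- the chosen values
  have hf : ∀ cd : ℤ × ℤ, ∃ v : ℂ, IsAlgebraic ℚ v ∧ ∀ a b c d : ℤ, a * d - b * c = 1 →
      (N : ℤ) ∣ c - cd.1 → (N : ℤ) ∣ d - cd.2 → ∃ e : ℤ, P (pt a c) (pt b d) = nu e * v := by
    intro cd
    by_cases h : ∃ a b c d : ℤ, a * d - b * c = 1 ∧ (N : ℤ) ∣ c - cd.1 ∧ (N : ℤ) ∣ d - cd.2
    · obtain ⟨a, b, c, d, h1, h2, h3⟩ := h
      refine ⟨P (pt a c) (pt b d), halg _ _, fun a' b' c' d' h1' h2' h3' => ?_⟩
      refine ⟨a * d' - b * c', equi N nu P hP a b c d a' b' c' d' h1 h1' ?_ ?_⟩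
      · have := h2'.sub h2
        have e : c' - c = c' - cd.1 - (c - cd.1) := by ring
        rw [e]
        exact this
      · have := h3'.sub h3
        have e : d' - d = d' - cd.2 - (d - cd.2) := by ring
        rw [e]
        exact this
    · exact ⟨0, isAlgebraic_zero, fun a b c d h1 h2 h3 => absurd ⟨a, b, c, d, h1, h2, h3⟩ h⟩
  choose f hfa hf using hf
  -- the field
  set S : Set ℂ := nu '' (Set.Ico 0 (N : ℤ)) ∪ f '' (Set.Ico 0 (N : ℤ) ×ˢ Set.Ico 0 (N : ℤ)) with hS
  have hSfin : S.Finite :=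
    ((Set.finite_Ico 0 (N : ℤ)).image _).union
      (((Set.finite_Ico 0 (N : ℤ)).prod (Set.finite_Ico 0 (N : ℤ))).image _)
  have hSalg : ∀ x ∈ S, IsIntegral ℚ x := by
    rintro x (⟨j, -, rfl⟩ | ⟨j, -, rfl⟩)
    · exact (hnua j).isIntegral
    · exact (hfa j).isIntegral
  have hfd : FiniteDimensional ℚ (IntermediateField.adjoin ℚ S) := by
    have : Finite S := hSfin
    exact IntermediateField.finiteDimensional_adjoin hSalg
  set K : IntermediateField ℚ ℂ := IntermediateField.adjoin ℚ S with hK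
  have hSK : ∀ x ∈ S, x ∈ K := fun x hx => IntermediateField.subset_adjoin ℚ S hx
  have hmod : ∀ d : ℤ, d % N ∈ Set.Ico 0 (N : ℤ) := fun d =>
    ⟨Int.emod_nonneg _ hNpos.ne', Int.emod_lt_of_pos _ hNpos⟩
  have hdvd : ∀ d : ℤ, (N : ℤ) ∣ d - d % N := fun d => Int.dvd_self_sub_emod
  have hnuK : ∀ d : ℤ, nu d ∈ K := by
    intro d
    rw [hnu d (d % N) (hdvd d)]
    exact hSK _ (Or.inl ⟨_, hmod d, rfl⟩)
  have hmK : ∀ a b c d : ℤ, a * d - b * c = 1 → P (pt a c) (pt b d) ∈ K := by
    intro a b c d h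
    obtain ⟨e, he⟩ := hf (c % N, d % N) a b c d h (hdvd c) (hdvd d)
    rw [he]
    exact mul_mem (hnuK e) (hSK _ (Or.inr ⟨(c % N, d % N), ⟨hmod c, hmod d⟩, rfl⟩))
  -- induction on the denominator
  have hind : ∀ n : ℕ, ∀ r s : ℤ, 0 ≤ s → s.toNat = n → IsCoprime r s → P ∞ (pt r s) ∈ K := by
    intro n
    induction n using Nat.strong_induction_on with
    | _ n ih =>
      intro r s hs hsn hrs
      rcases hs.eq_or_lt with h0 | h0
      · rw [← h0, pt_zero, hii]
        exact zero_mem _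
      · obtain ⟨u, v, huv⟩ := hrs
        set s' : ℤ := (-u) % s with hs'
        set r' : ℤ := v - r * ((-u) / s) with hr'
        have hdm : s' = -u - s * ((-u) / s) := by
          have := Int.emod_add_mul_ediv (-u) s
          rw [hs']
          linarith
        have hdet : r' * s - r * s' = 1 := by
          rw [hdm, hr']
          linear_combination huv
        have h1 : 0 ≤ s' := Int.emod_nonneg _ h0.ne'
        have h2 : s' < s := Int.emod_lt_of_pos _ h0
        have h3 : P ∞ (pt r' s') ∈ K := by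
          refine ih s'.toNat ?_ r' s' h1 rfl ⟨s, -r, by linear_combination hdet⟩
          omega
        rw [← hP.add ∞ (pt r' s') (pt r s)]
        exact add_mem h3 (hmK r' r s' s hdet)
  refine ⟨K, hfd, fun x => ?_⟩
  have hx : (x : OnePoint ℚ) = pt x.num x.den := by
    rw [pt_ne _ _ (by exact_mod_cast x.den_nz)]
    congr 1
    exact_mod_cast (Rat.num_div_den x).symm
  rw [hx]
  refine hind _ _ _ (by positivity) rfl ?_
  rw [Int.isCoprime_iff_gcd_eq_one]
  exact x.reduced

end Pool.Agent.TWR
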