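import Pool.Agent.TWR.St

/-!
# TWR, module REC: the recurrence
-/

set_option autoImplicit false

namespace Pool.Agent.TWR

namespace RECAux

/-- the sequence of pairs n_k, Q_k with n_(k+1) = n_k + Q_k, Q_(k+1) = Q_k q(n_(k+1)) -/
def sq (q : ℕ → ℕ) (K : ℕ) : ℕ → ℕ × ℕ
  | 0 => (K, q K)
  | k + 1 => ((sq q K k).1 + (sq q K k).2, (sq q K k).2 * q ((sq q K k).1 + (sq q K k).2))

theorem sq_ge (q : ℕ → ℕ) (K : ℕ) (hq : ∀ n, K ≤ n → 1 ≤ q n) (k : ℕ) :
    K ≤ (sq q K k).1 ∧ 1 ≤ (sq q K k).2 ∧ q (sq q K k).1 ∣ (sq q K k).2 := by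
  induction k with
  | zero => exact ⟨le_refl _, hq K le_rfl, dvd_refl _⟩
  | succ k ih =>
    obtain ⟨h1, h2, h3⟩ := ih
    have h4 : K ≤ (sq q K k).1 + (sq q K k).2 := by omega
    refine ⟨h4, ?_, ?_⟩
    · show 1 ≤ (sq q K k).2 * q ((sq q K k).1 + (sq q K k).2)
      exact Nat.mul_pos h2 (hq _ h4)
    · show q ((sq q K k).1 + (sq q K k).2) ∣ (sq q K k).2 * q ((sq q K k).1 + (sq q K k).2)
      exact dvd_mul_left _ _

theorem sq_lt (q : ℕ → ℕ) (K : ℕ) (hq : ∀ n, K ≤ n → 1 ≤ q n) (i t : ℕ) :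
    ∃ o, 1 ≤ o ∧ (sq q K i).2 ∣ o ∧ (sq q K (i + 1 + t)).1 = (sq q K i).1 + o ∧
      (sq q K i).2 ∣ (sq q K (i + 1 + t)).2 := by
  induction t with
  | zero =>
    refine ⟨(sq q K i).2, (sq_ge q K hq i).2.1, dvd_refl _, rfl, ?_⟩
    show (sq q K i).2 ∣ (sq q K i).2 * q ((sq q K i).1 + (sq q K i).2)
    exact dvd_mul_right _ _
  | succ t ih =>
    obtain ⟨o, h1, h2, h3, h4⟩ := ih
    refine ⟨o + (sq q K (i + 1 + t)).2, by omega, dvd_add h2 h4, ?_, ?_⟩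
    · show (sq q K (i + 1 + t)).1 + (sq q K (i + 1 + t)).2 = _
      rw [h3]; ring
    · show (sq q K i).2 ∣ (sq q K (i + 1 + t)).2 *
        q ((sq q K (i + 1 + t)).1 + (sq q K (i + 1 + t)).2)
      exact dvd_mul_of_dvd_left h4 _

/-- recurrence of a value along all progressions -/
theorem recur {α : Type} [Finite α] (f : ℕ → α) (K : ℕ) :
    ∃ n, K ≤ n ∧ ∀ q, 1 ≤ q → ∃ o, 1 ≤ o ∧ q ∣ o ∧ f (n + o) = f n := by
  by_contra hcon
  push Not at hcon
  have h1 : ∀ n, ∃ q, K ≤ n → 1 ≤ q ∧ ∀ o, 1 ≤ o → q ∣ o → f (n + o) ≠ f n := by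
    intro n
    by_cases hn : K ≤ n
    · obtain ⟨q, hq1, hq2⟩ := hcon n hn
      exact ⟨q, fun _ => ⟨hq1, hq2⟩⟩
    · exact ⟨0, fun h => absurd h hn⟩
  choose q hq using h1
  have hq1 : ∀ n, K ≤ n → 1 ≤ q n := fun n hn => (hq n hn).1
  have hlt : ∀ i j, i < j → f (sq q K j).1 ≠ f (sq q K i).1 := by
    intro i j hij
    obtain ⟨t, rfl⟩ := Nat.exists_eq_add_of_lt hij
    obtain ⟨o, ho1, ho2, ho3, -⟩ := sq_lt q K hq1 i t
    have he : i + t + 1 = i + 1 + t := by ring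
    rw [he, ho3]
    exact (hq _ (sq_ge q K hq1 i).1).2 o ho1 (dvd_trans (sq_ge q K hq1 i).2.2 ho2)
  have hinj : Function.Injective (fun k => f (sq q K k).1) := by
    intro i j hij
    rcases lt_trichotomy i j with h | h | h
    · exact absurd hij.symm (hlt i j h)
    · exact h
    · exact absurd hij (hlt j i h)
  exact not_injective_infinite_finite _ hinj

end RECAux

open RECAux in
theorem t_REC : S_REC := by
  intro I U _ _ T a m n0 K ha hT
  have := Fintype.ofFinite I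
  have := Fintype.ofFinite U
  obtain ⟨w, hw⟩ : ∃ w, w = m + a := ⟨_, rfl⟩
  obtain ⟨s, hs⟩ : ∃ s, s = Fintype.card I := ⟨_, rfl⟩
  obtain ⟨B, hB⟩ : ∃ B, B = s * w + a + 1 := ⟨_, rfl⟩
  obtain ⟨K', hK'⟩ : ∃ K', K' = n0 + K + m + B := ⟨_, rfl⟩
  have hlab : ∀ x : ℕ, ∃ l : I × U × U × Fin B × Fin B,
      T (x + K' + l.2.2.2.1) l.1 l.2.2.1 ∧
      T (x + K' + l.2.2.2.1 + l.2.2.2.2) l.1 l.2.1 ∧ m ≤ (l.2.2.2.2 : ℕ) := by
    intro x
    have h1 : ∀ k : Fin (s + 1), ∃ j < a, ∃ i u, T (x + K' + k * w + j) i u := by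
      intro k
      exact hT (x + K' + k * w) (by
        have : 0 ≤ (k : ℕ) * w := Nat.zero_le _
        omega)
    choose j hj i u hiu using h1
    obtain ⟨k1, k2, hne, hi⟩ := Fintype.exists_ne_map_eq_of_card_lt i (by
      rw [Fintype.card_fin]; omega)
    have key : ∀ k1 k2 : Fin (s + 1), k1 < k2 → i k1 = i k2 →
        ∃ l : I × U × U × Fin B × Fin B,
          T (x + K' + l.2.2.2.1) l.1 l.2.2.1 ∧
          T (x + K' + l.2.2.2.1 + l.2.2.2.2) l.1 l.2.1 ∧ m ≤ (l.2.2.2.2 : ℕ) := by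
      intro k1 k2 hlt hi
      have hlt' : (k1 : ℕ) < (k2 : ℕ) := hlt
      obtain ⟨t, ht⟩ := Nat.exists_eq_add_of_lt hlt'
      have hk2 : (k2 : ℕ) * w = k1 * w + t * w + w := by rw [ht]; ring
      have hk2s : (k2 : ℕ) * w ≤ s * w := Nat.mul_le_mul_right _ (by have := k2.isLt; omega)
      have hj1 := hj k1
      have hj2 := hj k2
      have b1 : (k1 : ℕ) * w + j k1 < B := by omega
      have b2 : t * w + w + j k2 - j k1 < B := by omega
      have hd : m ≤ t * w + w + j k2 - j k1 := by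
        have : 0 ≤ t * w := Nat.zero_le _
        omega
      refine ⟨(i k1, u k2, u k1, ⟨_, b1⟩, ⟨_, b2⟩), ?_, ?_, hd⟩
      · have := hiu k1
        show T (x + K' + (k1 * w + j k1)) (i k1) (u k1)
        rw [← add_assoc]; exact this
      · have := hiu k2
        show T (x + K' + (k1 * w + j k1) + (t * w + w + j k2 - j k1)) (i k1) (u k2)
        rw [hi]
        have e1 : x + K' + (k1 * w + j k1) + (t * w + w + j k2 - j k1) =
            x + K' + k2 * w + j k2 := by omega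
        rw [e1]; exact this
    rcases lt_or_gt_of_ne hne with h | h
    · exact key k1 k2 h hi
    · exact key k2 k1 h hi.symm
  choose f hf1 hf2 hf3 using hlab
  obtain ⟨n, -, hn⟩ := recur f 0
  have hc : ((f n).2.2.2.2 : ℕ) < B := (f n).2.2.2.2.isLt
  refine ⟨n + K' + (f n).2.2.2.1, (f n).2.2.2.2, (f n).1, (f n).2.1, (f n).2.2.1, by omega,
    hf3 n, by omega, hf1 n, hf2 n, ?_⟩
  intro q hq
  obtain ⟨o, ho1, ho2, ho3⟩ := hn q hq
  refine ⟨o, ho1, ho2, ?_⟩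
  have := hf2 (n + o)
  rw [ho3] at this
  have e1 : n + K' + ((f n).2.2.2.1 : ℕ) + ((f n).2.2.2.2 : ℕ) + o =
      n + o + K' + ((f n).2.2.2.1 : ℕ) + ((f n).2.2.2.2 : ℕ) := by ring
  rw [e1]; exact this

end Pool.Agent.TWR
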