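import Pool.Agent.TWR.St

/-!
# TWR, module SUM: the sum over all `e` of the twisted sums, and the layers `l ∣ e`
(problem MP_b78433_nt)
-/

set_option autoImplicit false

namespace Pool.Agent.TWR

open Finset

namespace SUMAux

variable {R M : Type} [CommRing R] [AddCommGroup M] [Module R M]

/-- `j = j0 + a k` -/
theorem sum_split (a b : ℕ) (f : ℕ → M) :
    ∑ j ∈ range (a * b), f j = ∑ j0 ∈ range a, ∑ k ∈ range b, f (j0 + a * k) := by
  induction b with
  | zero => simp
  | succ b ih =>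
    rw [Nat.mul_succ, Finset.sum_range_add, ih]
    simp_rw [Finset.sum_range_succ _ b]
    rw [Finset.sum_add_distrib]
    congr 1
    refine Finset.sum_congr rfl fun j _ => ?_
    rw [add_comm]

/-- geometric sum -/
theorem geom (q : ℕ) (z : ℤ → R) (hz : Chr q z) (h0 : z 0 = 1) (j : ℤ) (n : ℕ) :
    (1 - z j) * ∑ e ∈ range n, z ((e : ℤ) * j) = 1 - z ((n : ℤ) * j) := by
  induction n with
  | zero => simp [h0]
  | succ n ih =>
    rw [Finset.sum_range_succ, mul_add, ih]
    have h1 : z (((n + 1 : ℕ) : ℤ) * j) = z ((n : ℤ) * j) * z j := by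
      rw [← hz.add]
      congr 1
      push_cast
      ring
    rw [h1]
    ring

end SUMAux

open SUMAux

theorem t_SUM : M_SUM := by
  intro hTWP R M _ _ _ l m hl hm z hz W hW hW0
  have hq : l ^ m ≠ 0 := pow_ne_zero _ hl.ne_zero
  obtain ⟨h0, hper, -⟩ := hTWP R M (l ^ m) hq z hz W hW
  have hlq : (l : ℚ) ≠ 0 := by exact_mod_cast hl.ne_zero
  have hqm : l ^ m = l ^ (m - 1) * l := by
    rw [← pow_succ]
    congr 1
    omega
  refine ⟨?_, ?_⟩
  · rintro e x ⟨e', rfl⟩
    unfold Tw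
    have h1 : ∀ (f : ℕ → M), ∑ j ∈ range (l ^ m), f j =
        ∑ j0 ∈ range (l ^ (m - 1)), ∑ k ∈ range l, f (j0 + l ^ (m - 1) * k) := by
      intro f
      rw [hqm]
      exact sum_split _ _ f
    rw [h1]
    refine Finset.sum_eq_zero fun j0 _ => ?_
    have h2 : ∀ k : ℕ, z ((l : ℤ) * e' * ((j0 + l ^ (m - 1) * k : ℕ) : ℤ)) •
        W (x + ((j0 + l ^ (m - 1) * k : ℕ) : ℚ) / ((l ^ m : ℕ) : ℚ)) =
        z ((l : ℤ) * e' * (j0 : ℤ)) • W (x + (j0 : ℚ) / ((l ^ m : ℕ) : ℚ) + (k : ℚ) / l) := by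
      intro k
      congr 1
      · apply hper
        refine ⟨e' * k, ?_⟩
        rw [hqm]
        push_cast
        ring
      · congr 1
        rw [hqm]
        push_cast
        field_simp
        ring
    simp_rw [h2]
    rw [← Finset.smul_sum, hW0, smul_zero]
  · intro x
    unfold Tw
    rw [Finset.sum_comm]
    simp_rw [← Finset.sum_smul]
    rw [Finset.sum_eq_single_of_mem 0 (Finset.mem_range.2 (Nat.pos_of_ne_zero hq))]
    · simp [h0]
    · intro j hj hj0
      have hjq : j < l ^ m := Finset.mem_range.1 hj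
      have hnd : ¬ ((l ^ m : ℕ) : ℤ) ∣ (j : ℤ) := by
        intro hd
        have := Nat.le_of_dvd (Nat.pos_of_ne_zero hj0) (Int.natCast_dvd_natCast.1 hd)
        omega
      have hg := geom (l ^ m) z hz h0 (j : ℤ) (l ^ m)
      have h3 : z (((l ^ m : ℕ) : ℤ) * (j : ℤ)) = 1 := by
        rw [← h0]
        apply hper
        exact ⟨j, by ring⟩
      rw [h3, sub_self] at hg
      have h4 : ∑ e ∈ range (l ^ m), z ((e : ℤ) * (j : ℤ)) = 0 :=
        (hz.un j hnd).mul_right_eq_zero.1 hg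
      rw [h4, zero_smul]

end Pool.Agent.TWR
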