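import Pool.Agent.TWR.St

/-!
# TWR, module TRI: the trace of a root of unity
-/

set_option autoImplicit false

namespace Pool.Agent.TWR

open Finset OnePoint

namespace TRIAux

/-- Lifting the exponent. -/
theorem lte (l m q : ℕ) (hl : l.Prime) (hm : 1 ≤ m) (h2 : l = 2 → 2 ≤ m) (hd : l ^ m ∣ q - 1)
    (hn : ¬ l ^ (m + 1) ∣ q - 1) (hq : 1 ≤ q) (j : ℕ) :
    ∃ w : ℕ, q ^ (l ^ j) = 1 + l ^ (m + j) * w ∧ ¬ l ∣ w := by
  have : Fact l.Prime := ⟨hl⟩
  have hq1 : q ≠ 1 := by
    rintro rfl
    exact hn (by simp)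
  have hq2 : 1 < q := lt_of_le_of_ne hq (Ne.symm hq1)
  have hne : q - 1 ≠ 0 := by omega
  have hld : l ∣ q - 1 := (dvd_pow_self l (by omega)).trans hd
  have hlq : ¬ l ∣ q := by
    intro h
    have h3 : l ∣ q - (q - 1) := Nat.dvd_sub h hld
    have h4 : q - (q - 1) = 1 := by omega
    rw [h4] at h3
    exact hl.one_lt.ne' (Nat.dvd_one.1 h3)
  have hv : padicValNat l (q - 1) = m := by
    apply le_antisymm
    · by_contra h
      push Not at h
      exact hn ((padicValNat_dvd_iff_le hne).2 h)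
    · exact (padicValNat_dvd_iff_le hne).1 hd
  have hpow1 : 1 < q ^ (l ^ j) := Nat.one_lt_pow (pow_pos hl.pos j).ne' hq2
  have key : padicValNat l (q ^ (l ^ j) - 1) = m + j := by
    rcases hl.eq_two_or_odd' with hl2 | hodd
    · subst hl2
      rcases Nat.eq_zero_or_pos j with hj | hj
      · subst hj
        simpa using hv
      · have h5 := padicValNat.pow_two_sub_pow (x := q) (y := 1) hq2 hld hlq
          (n := 2 ^ j) (by positivity) ((Nat.even_pow).2 ⟨even_two, by omega⟩)
        rw [one_pow, hv, padicValNat.prime_pow] at h5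
        have h6 : padicValNat 2 (q + 1) = 1 := by
          have h7 : 4 ∣ q - 1 := by
            have h8 : 2 ^ 2 ∣ 2 ^ m := pow_dvd_pow 2 (h2 rfl)
            exact h8.trans hd
          have h9 : ¬ 2 ^ 2 ∣ q + 1 := by omega
          have h10 : 2 ^ 1 ∣ q + 1 := by omega
          apply le_antisymm
          · by_contra h
            push Not at h
            exact h9 ((padicValNat_dvd_iff_le (by omega)).2 h)
          · exact (padicValNat_dvd_iff_le (by omega)).1 h10
        omega
    · have h5 := padicValNat.pow_sub_pow hodd (x := q) (y := 1) hq2 hld hlq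
        (n := l ^ j) (pow_pos hl.pos j).ne'
      rw [one_pow, hv, padicValNat.prime_pow] at h5
      exact h5
  have hne2 : q ^ (l ^ j) - 1 ≠ 0 := by omega
  obtain ⟨w, hw⟩ := (padicValNat_dvd_iff_le hne2).2 (le_of_eq key.symm)
  refine ⟨w, by omega, fun h => ?_⟩
  obtain ⟨w', rfl⟩ := h
  have h6 : l ^ (m + j + 1) ∣ q ^ (l ^ j) - 1 := ⟨w', by rw [hw, pow_succ]; ring⟩
  have h7 := (padicValNat_dvd_iff_le hne2).1 h6
  omega

/-- Reordering of a sum. -/
theorem sum_mul (f : ℕ → ℂ) (a n : ℕ) :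
    ∑ j ∈ range (a * n), f j = ∑ j ∈ range a, ∑ i ∈ range n, f (j + a * i) := by
  rw [Finset.sum_comm]
  induction n with
  | zero => simp
  | succ n ih =>
    rw [Nat.mul_succ, Finset.sum_range_add, ih, Finset.sum_range_succ]
    congr 1
    exact Finset.sum_congr rfl fun j _ => by rw [Nat.add_comm]

theorem pow_iter (θ ω : ℂ) (Q : ℕ) (h1 : θ ^ Q = θ * ω) (h2 : ω ^ Q = ω) (i : ℕ) :
    θ ^ (Q ^ i) = θ * ω ^ i := by
  induction i with
  | zero => simp
  | succ i ih =>
    rw [pow_succ, pow_mul, ih, mul_pow, h1, ← pow_mul, Nat.mul_comm, pow_mul, h2, pow_succ]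
    ring

end TRIAux

open TRIAux in
theorem t_TRI : S_TRI := by
  intro l m r q hl hm h2 hd hn hq η hη
  by_cases h1 : η ^ (l ^ m) = 1
  · rw [if_pos h1]
    obtain ⟨t, ht⟩ := hd
    have hq' : q = 1 + l ^ m * t := by omega
    have h3 : η ^ q = η := by
      rw [hq', pow_add, pow_one, pow_mul, h1, one_pow, mul_one]
    have h4 : ∀ j, η ^ (q ^ j) = η := by
      intro j
      have := pow_iter η 1 q (by rw [h3, mul_one]) (one_pow q) j
      rwa [one_pow, mul_one] at this
    rw [Finset.sum_congr rfl fun j _ => h4 j, Finset.sum_const, Finset.card_range, nsmul_eq_mul]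
    push_cast
    rfl
  · rw [if_neg h1]
    obtain ⟨s, hs, hord⟩ := (Nat.dvd_prime_pow hl).1 (orderOf_dvd_of_pow_eq_one hη)
    have hms : m < s := by
      by_contra h
      push Not at h
      apply h1
      apply orderOf_dvd_iff_pow_eq_one.1
      rw [hord]
      exact pow_dvd_pow l h
    obtain ⟨k, rfl⟩ : ∃ k, s = m + k + 1 := ⟨s - m - 1, by omega⟩
    obtain ⟨w, hw, hlw⟩ := lte l m q hl hm h2 hd hn hq k
    have hlq : ¬ l ∣ q := by
      intro h
      have hld : l ∣ q - 1 := (dvd_pow_self l (by omega)).trans hd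
      have h3 : l ∣ q - (q - 1) := Nat.dvd_sub h hld
      have h4 : q - (q - 1) = 1 := by omega
      rw [h4] at h3
      exact hl.one_lt.ne' (Nat.dvd_one.1 h3)
    have hr : l ^ r = l ^ k * l ^ (r - k) := by
      rw [← pow_add]
      congr 1
      omega
    rw [hr, sum_mul]
    refine Finset.sum_eq_zero fun j _ => ?_
    set θ : ℂ := η ^ (q ^ j) with hθ
    set ω : ℂ := θ ^ (l ^ (m + k) * w) with hω
    have hθs : θ ^ (l ^ (m + k + 1)) = 1 := by
      rw [hθ, ← pow_mul, Nat.mul_comm, pow_mul, ← hord, pow_orderOf_eq_one, one_pow]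
    have hωl : ω ^ l = 1 := by
      rw [hω, ← pow_mul]
      have h5 : l ^ (m + k) * w * l = l ^ (m + k + 1) * w := by
        rw [pow_succ]
        ring
      rw [h5, pow_mul, hθs, one_pow]
    have hω1 : ω ≠ 1 := by
      intro h
      rw [hω, hθ, ← pow_mul] at h
      have h5 := orderOf_dvd_of_pow_eq_one h
      rw [hord, pow_succ] at h5
      have h6 : l ^ (m + k) * l ∣ l ^ (m + k) * (q ^ j * w) := by
        have h7 : q ^ j * (l ^ (m + k) * w) = l ^ (m + k) * (q ^ j * w) := by ring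
        rwa [h7] at h5
      have h8 := Nat.dvd_of_mul_dvd_mul_left (pow_pos hl.pos _) h6
      rcases hl.dvd_mul.1 h8 with h9 | h9
      · exact hlq (hl.dvd_of_dvd_pow h9)
      · exact hlw h9
    have hθQ : θ ^ (q ^ (l ^ k)) = θ * ω := by
      rw [hw, pow_add, pow_one]
    have hωQ : ω ^ (q ^ (l ^ k)) = ω := by
      rw [hw, pow_add, pow_one]
      have h5 : l ^ (m + k) * w = l * (l ^ (m + k - 1) * w) := by
        rw [← Nat.mul_assoc, ← pow_succ']
        congr 2
        omega
      rw [h5, pow_mul, hωl, one_pow, mul_one]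
    have hterm : ∀ i, η ^ (q ^ (j + l ^ k * i)) = θ * ω ^ i := by
      intro i
      rw [pow_add, pow_mul, pow_mul, ← hθ]
      exact pow_iter θ ω (q ^ (l ^ k)) hθQ hωQ i
    rw [Finset.sum_congr rfl fun i _ => hterm i, ← Finset.mul_sum]
    have hgeom : ∑ i ∈ range (l ^ (r - k)), ω ^ i = 0 := by
      have h5 := geom_sum_mul ω (l ^ (r - k))
      have h6 : ω ^ (l ^ (r - k)) = 1 := by
        have h7 : r - k = (r - k - 1) + 1 := by omega
        rw [h7, pow_succ', pow_mul, hωl, one_pow]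
      rw [h6, sub_self] at h5
      exact (mul_eq_zero.1 h5).resolve_right (sub_ne_zero.2 hω1)
    rw [hgeom, mul_zero]

end Pool.Agent.TWR
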