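import Pool.Agent.TWR.St

/-!
# TWR, module TRS: the trace relation for a primitive root of unity of order `l^(m+r)`
-/

set_option autoImplicit false

namespace Pool.Agent.TWR.TRSAux

open Finset

/-- the sum of a periodic function over a period does not depend on the start -/
lemma shift {n : ℕ} (F : ℕ → ℂ) (hF : ∀ t, F (t + n) = F t) (s : ℕ) :
    ∑ t ∈ range n, F (t + s) = ∑ t ∈ range n, F t := by
  induction s with
  | zero => simp
  | succ s ih =>
    rw [← ih]
    have h1 : ∑ t ∈ range (n + 1), F (t + s) = ∑ t ∈ range n, F (t + s) + F (n + s) :=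
      Finset.sum_range_succ _ _
    have h2 : ∑ t ∈ range (n + 1), F (t + s) = ∑ t ∈ range n, F (t + 1 + s) + F (0 + s) :=
      Finset.sum_range_succ' _ _
    have h3 : F (n + s) = F (0 + s) := by rw [add_comm n s, hF, Nat.zero_add]
    have h4 : ∑ t ∈ range n, F (t + 1 + s) = ∑ t ∈ range n, F (t + s) := by
      rw [h2, h3] at h1
      exact add_right_cancel h1
    rw [← h4]
    refine Finset.sum_congr rfl fun t _ => ?_
    congr 1
    omega

/-- the sum over the multiples of `a` below `a * b` -/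
lemma mult (a : ℕ) (ha : 0 < a) (G : ℕ → ℂ) (b : ℕ) :
    ∑ t ∈ range (a * b), (if a ∣ t then G t else 0) = ∑ i ∈ range b, G (a * i) := by
  induction b with
  | zero => simp
  | succ b ih =>
    rw [Nat.mul_succ, Finset.sum_range_add, ih, Finset.sum_range_succ]
    congr 1
    rw [Finset.sum_eq_single_of_mem 0 (Finset.mem_range.2 ha)]
    · simp
    · intro k hk hk0
      rw [if_neg]
      intro h
      have h1 : a ∣ k := (Nat.dvd_add_right (Dvd.intro b rfl)).1 h
      exact absurd (Nat.le_of_dvd (Nat.pos_of_ne_zero hk0) h1) (not_le.2 (Finset.mem_range.1 hk))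

lemma val_root (V : ValuationSubring ℂ) (ξ : ℂ) (n : ℕ) (hn : n ≠ 0) (h : ξ ^ n = 1) :
    V.valuation ξ = 1 := by
  have h1 : (V.valuation ξ) ^ n = 1 := by rw [← map_pow, h, map_one]
  exact (pow_eq_one_iff_of_nonneg zero_le hn).1 h1

end Pool.Agent.TWR.TRSAux

namespace Pool.Agent.TWR

open Finset TRSAux

theorem t_TRS : M_TRS := by
  intro hTRI V l m r q hl hm h2 hq1 hq2 hq vl K hF ξ hξ x hxK hper hsmall t0
  set n : ℕ := l ^ (m + r) with hn
  have hn0 : n ≠ 0 := pow_ne_zero _ hl.ne_zero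
  have hξn : ξ ^ n = 1 := hξ.pow_eq_one
  -- step 1
  have s1 : ∀ j : ℕ, V.valuation (∑ t ∈ range n, x t * ξ ^ (q ^ j * t)) < 1 := by
    intro j
    induction j with
    | zero => simpa using hsmall
    | succ j ih =>
      have h1 : (ξ ^ (q ^ j)) ^ n = 1 := by rw [← pow_mul, mul_comm, pow_mul, hξn, one_pow]
      have h3 := hF (ξ ^ (q ^ j)) h1 x hxK (by
        have : ∑ i ∈ range n, x i * (ξ ^ (q ^ j)) ^ i = ∑ t ∈ range n, x t * ξ ^ (q ^ j * t) :=
          Finset.sum_congr rfl fun t _ => by rw [← pow_mul]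
        rw [this]
        exact ih)
      have : ∑ i ∈ range n, x i * (ξ ^ (q ^ j)) ^ (q * i) =
          ∑ t ∈ range n, x t * ξ ^ (q ^ (j + 1) * t) :=
        Finset.sum_congr rfl fun t _ => by rw [← pow_mul, pow_succ, mul_assoc]
      rw [← this]
      exact h3
  -- step 2
  have vξ : V.valuation ξ = 1 := val_root V ξ n hn0 hξn
  obtain ⟨c, hc⟩ : ∃ c : ℕ, t0 + c = n * t0 :=
    ⟨n * t0 - t0, Nat.add_sub_cancel' (Nat.le_mul_of_pos_left t0 (Nat.pos_of_ne_zero hn0))⟩
  have s2 : ∀ j : ℕ, V.valuation (∑ t ∈ range n, x t * (ξ ^ (t + c)) ^ (q ^ j)) < 1 := by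
    intro j
    have h1 : ∑ t ∈ range n, x t * (ξ ^ (t + c)) ^ (q ^ j) =
        ξ ^ (q ^ j * c) * ∑ t ∈ range n, x t * ξ ^ (q ^ j * t) := by
      rw [Finset.mul_sum]
      refine Finset.sum_congr rfl fun t _ => ?_
      rw [← pow_mul]
      have : (t + c) * q ^ j = q ^ j * c + q ^ j * t := by ring
      rw [this, pow_add]
      ring
    rw [h1, map_mul, map_pow, vξ, one_pow, one_mul]
    exact s1 j
  have s3 : V.valuation (∑ j ∈ range (l ^ r), ∑ t ∈ range n, x t * (ξ ^ (t + c)) ^ (q ^ j)) < 1 :=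
    Valuation.map_sum_lt _ one_ne_zero fun j _ => s2 j
  have s4 : ∑ j ∈ range (l ^ r), ∑ t ∈ range n, x t * (ξ ^ (t + c)) ^ (q ^ j) =
      (l : ℂ) ^ r * ∑ t ∈ range n, (if l ^ r ∣ t + c then x t * ξ ^ (t + c) else 0) := by
    rw [Finset.sum_comm, Finset.mul_sum]
    refine Finset.sum_congr rfl fun t _ => ?_
    have h1 : (ξ ^ (t + c)) ^ (l ^ (m + r)) = 1 := by
      rw [← hn, ← pow_mul, mul_comm, pow_mul, hξn, one_pow]
    rw [← Finset.mul_sum, hTRI l m r q hl hm h2 hq1 hq2 hq _ h1]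
    have h3 : (ξ ^ (t + c)) ^ (l ^ m) = 1 ↔ l ^ r ∣ t + c := by
      rw [← pow_mul, hξ.pow_eq_one_iff_dvd, hn, pow_add, mul_comm (l ^ m) (l ^ r)]
      exact Nat.mul_dvd_mul_iff_right (pow_pos hl.pos m)
    by_cases h4 : l ^ r ∣ t + c
    · rw [if_pos (h3.2 h4), if_pos h4]
      ring
    · rw [if_neg (fun h => h4 (h3.1 h)), if_neg h4]
      simp
  have s5 : V.valuation (∑ t ∈ range n, (if l ^ r ∣ t + c then x t * ξ ^ (t + c) else 0)) < 1 := by
    rw [s4, map_mul, map_pow, vl, one_pow, one_mul] at s3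
    exact s3
  -- step 3
  have hrn : l ^ r ∣ n := by rw [hn, pow_add]; exact Dvd.intro_left _ rfl
  have s6 := shift (n := n) (fun t => if l ^ r ∣ t + c then x t * ξ ^ (t + c) else 0) (by
    intro t
    have h1 : l ^ r ∣ t + n + c ↔ l ^ r ∣ t + c := by
      have : t + n + c = n + (t + c) := by ring
      rw [this]
      exact Nat.dvd_add_right hrn
    have h3 : ξ ^ (t + n + c) = ξ ^ (t + c) := by
      have : t + n + c = n + (t + c) := by ring
      rw [this, pow_add, hξn, one_mul]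
    simp only [h1, h3, hper]) t0
  have s7 : ∑ t ∈ range n, (if l ^ r ∣ t + t0 + c then x (t + t0) * ξ ^ (t + t0 + c) else 0) =
      ∑ i ∈ range (l ^ m), ξ ^ (l ^ r * i) * x (t0 + l ^ r * i) := by
    have h1 : ∀ t ∈ range n, (if l ^ r ∣ t + t0 + c then x (t + t0) * ξ ^ (t + t0 + c) else 0) =
        if l ^ r ∣ t then (ξ ^ t * x (t0 + t)) else 0 := by
      intro t _
      have h3 : t + t0 + c = n * t0 + t := by rw [add_assoc, hc, add_comm]
      have h4 : l ^ r ∣ n * t0 + t ↔ l ^ r ∣ t := Nat.dvd_add_right (Dvd.dvd.mul_right hrn t0)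
      have h6 : ξ ^ (n * t0 + t) = ξ ^ t := by rw [pow_add, pow_mul, hξn, one_pow, one_mul]
      rw [h3, h6, add_comm t t0]
      simp only [h4, mul_comm (ξ ^ t)]
    rw [Finset.sum_congr rfl h1]
    have h5 : n = l ^ r * l ^ m := by rw [hn, pow_add, mul_comm]
    rw [h5]
    exact mult (l ^ r) (pow_pos hl.pos r) (fun t => ξ ^ t * x (t0 + t)) (l ^ m)
  rw [← s7]
  have s8 : ∑ t ∈ range n, (if l ^ r ∣ t + t0 + c then x (t + t0) * ξ ^ (t + t0 + c) else 0) =
      ∑ t ∈ range n, (if l ^ r ∣ t + c then x t * ξ ^ (t + c) else 0) := s6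
  rw [s8]
  exact s5

end Pool.Agent.TWR
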