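import Pool.Agent.TWR.St

set_option autoImplicit false

namespace Pool.Agent.TWR

open Finset

namespace TWPbAux

lemma sum_zmod {M : Type} [AddCommGroup M] (q : ℕ) [NeZero q] (F : ℤ → M)
    (hF : ∀ j, F (j + q) = F j) : ∑ j ∈ range q, F j = ∑ c : ZMod q, F (c.cast : ℤ) := by
  have h1 : ∀ j : ℕ, F (j : ℤ) = F (((j : ZMod q).cast : ℤ)) := by
    have h2 : ∀ (k : ℤ) (j : ℤ), F (j + q * k) = F j := by
      intro k
      induction k using Int.induction_on with
      | zero => intro j; simp
      | succ k ih =>
        intro j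
        rw [show j + q * ((k : ℤ) + 1) = (j + q * k) + q by ring, hF, ih]
      | pred k ih =>
        intro j
        rw [← hF, show j + q * (-(k : ℤ) - 1) + q = j + q * (-k) by ring, ih]
    intro j
    have h3 : ((q : ℕ) : ℤ) ∣ (j : ℤ) - ((j : ZMod q).cast : ℤ) := by
      rw [← ZMod.intCast_eq_intCast_iff_dvd_sub]
      simp
    obtain ⟨k, hk⟩ := h3
    rw [show (j : ℤ) = ((j : ZMod q).cast : ℤ) + q * k by linarith, h2]
  rw [Finset.sum_congr rfl (fun j _ => h1 j)]
  refine Finset.sum_bij (fun j _ => (j : ZMod q)) (fun _ _ => mem_univ _) ?_ ?_ (fun _ _ => rfl)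
  · intro a ha b hb hab
    rw [mem_range] at ha hb
    have := (ZMod.natCast_eq_natCast_iff' a b q).1 hab
    rwa [Nat.mod_eq_of_lt ha, Nat.mod_eq_of_lt hb] at this
  · intro c _
    exact ⟨c.val, mem_range.2 (ZMod.val_lt c), ZMod.natCast_zmod_val c⟩

end TWPbAux

open TWPbAux in
theorem t_TWPb : S_TWP := by
  intro R M _ _ _ q hq z hz W hW
  have : NeZero q := ⟨hq⟩
  have h0 : z 0 = 1 := by
    have := hz.add q 0
    rw [add_zero, hz.per, one_mul] at this
    exact this.symm
  have hneg : ∀ a, z (-a) * z a = 1 := by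
    intro a
    rw [← hz.add, neg_add_cancel, h0]
  have hqk : ∀ k : ℤ, z (q * k) = 1 := by
    intro k
    induction k using Int.induction_on with
    | zero => simpa using h0
    | succ k ih => rw [mul_add, mul_one, hz.add, ih, hz.per, one_mul]
    | pred k ih =>
      have h1 := hneg q
      rw [hz.per, mul_one] at h1
      rw [show (q : ℤ) * (-(k : ℤ) - 1) = q * (-k) + -q by ring, hz.add, ih, h1, one_mul]
  have hzper : ∀ a b : ℤ, (q : ℤ) ∣ a - b → z a = z b := by
    intro a b ⟨k, hk⟩
    rw [show a = b + q * k by linarith, hz.add, hqk, mul_one]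
  have hsub : ∀ (F : ℤ → M) (_ : ∀ j, F (j + q) = F j) (t : ℤ), IsCoprime t (q : ℤ) →
      ∑ j ∈ range q, F (t * j) = ∑ j ∈ range q, F j := by
    intro F hF t ht
    have hper : ∀ a b : ℤ, (q : ℤ) ∣ a - b → F a = F b := by
      have h2 : ∀ (k : ℤ) (j : ℤ), F (j + q * k) = F j := by
        intro k
        induction k using Int.induction_on with
        | zero => intro j; simp
        | succ k ih =>
          intro j
          rw [show j + q * ((k : ℤ) + 1) = (j + q * k) + q by ring, hF, ih]
        | pred k ih =>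
          intro j
          rw [← hF, show j + q * (-(k : ℤ) - 1) + q = j + q * (-k) by ring, ih]
      intro a b ⟨k, hk⟩
      rw [show a = b + q * k by linarith, h2]
    have hG : ∀ j, F (t * (j + q)) = F (t * j) := by
      intro j
      exact hper _ _ ⟨t, by ring⟩
    rw [sum_zmod q (fun j => F (t * j)) hG, sum_zmod q F hF]
    obtain ⟨u, v, huv⟩ := ht
    have hu : ((t : ℤ) : ZMod q) * ((u : ℤ) : ZMod q) = 1 := by
      have := congrArg (fun a : ℤ => (a : ZMod q)) huv
      push_cast at this
      simp only [ZMod.natCast_self, mul_zero, add_zero] at this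
      rw [mul_comm]
      exact this
    let un : (ZMod q)ˣ := ⟨(t : ZMod q), (u : ZMod q), hu, by rw [mul_comm]; exact hu⟩
    refine Fintype.sum_bijective (fun c => (t : ZMod q) * c) (Units.mulLeft_bijective un) _ _ ?_
    intro c
    apply hper
    rw [← ZMod.intCast_eq_intCast_iff_dvd_sub]
    simp
  refine ⟨h0, hzper, hsub, ?_, ?_, ?_, ?_⟩
  · intro e n x
    unfold Tw
    refine Finset.sum_congr rfl fun j _ => ?_
    congr 1
    have h2 : ∀ (k : ℤ) (y : ℚ), W (y + k) = W y := by
      intro k
      induction k using Int.induction_on with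
      | zero => intro y; simp
      | succ k ih =>
        intro y
        push_cast
        rw [show y + ((k : ℚ) + 1) = (y + k) + 1 by ring, hW]
        have := ih y
        push_cast at this
        exact this
      | pred k ih =>
        intro y
        have := ih y
        push_cast at this ⊢
        rw [← hW, show y + (-(k : ℚ) - 1) + 1 = y + -k by ring, this]
    rw [show x + (n : ℚ) + (j : ℚ) / q = (x + (j : ℚ) / q) + n by ring, h2]
  · intro e x
    unfold Tw
    have hq0 : (q : ℚ) ≠ 0 := by exact_mod_cast hq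
    let G : ℤ → M := fun j => z (e * (j - 1)) • W (x + (j : ℚ) / q)
    have hG : ∀ j, G (j + q) = G j := by
      intro j
      simp only [G]
      rw [hzper (e * (j + q - 1)) (e * (j - 1)) ⟨e, by ring⟩]
      congr 1
      rw [show x + (((j + q : ℤ) : ℚ)) / q = (x + (j : ℚ) / q) + 1 by push_cast; field_simp; ring,
        hW]
    have h1 : ∑ j ∈ range q, z (e * (j : ℤ)) • W (x + 1 / (q : ℚ) + (j : ℚ) / q) =
        ∑ j ∈ range q, G ((j : ℤ) + 1) := by
      refine Finset.sum_congr rfl fun j _ => ?_
      simp only [G]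
      rw [show ((j : ℤ) + 1 - 1) = (j : ℤ) by ring]
      congr 2
      push_cast
      ring
    rw [h1]
    have h2 : ∑ j ∈ range q, G ((j : ℤ) + 1) = ∑ j ∈ range q, G (j : ℤ) := by
      have h3 := Finset.sum_range_succ (fun j : ℕ => G (j : ℤ)) q
      have h4 := Finset.sum_range_succ' (fun j : ℕ => G (j : ℤ)) q
      rw [h3] at h4
      have h5 : G ((q : ℕ) : ℤ) = G ((0 : ℕ) : ℤ) := by
        have := hG 0
        simpa using this
      rw [h5] at h4
      push_cast at h4
      exact (add_right_cancel h4).symm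
    rw [h2, Finset.smul_sum]
    refine Finset.sum_congr rfl fun j _ => ?_
    simp only [G]
    rw [smul_smul, ← hz.add, show -e + e * (j : ℤ) = e * ((j : ℤ) - 1) by ring]
    norm_cast
  · intro e e' x h
    unfold Tw
    refine Finset.sum_congr rfl fun j _ => ?_
    congr 1
    apply hzper
    obtain ⟨k, hk⟩ := h
    exact ⟨k * j, by rw [show e * (j : ℤ) - e' * j = (e - e') * j by ring, hk]; ring⟩
  · intro a e x
    unfold Tw
    refine Finset.sum_congr rfl fun j _ => ?_
    change z (a * (e * (j : ℤ))) • _ = z (a * e * (j : ℤ)) • _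
    rw [mul_assoc]

end Pool.Agent.TWR
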