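import Pool.Agent.TWR.St

/-!
# The additive character modulo `l^m` with values in a valuation ring of `ℂ`
-/

set_option autoImplicit false

namespace Pool.Agent.TWR

namespace ZCHAux

/-- a root of unity has valuation one -/
theorem val_root (V : ValuationSubring ℂ) (x : ℂ) (q : ℕ) (hq : q ≠ 0) (hx : x ^ q = 1) :
    V.valuation x = 1 := by
  have h : V.valuation x ^ q = 1 := by rw [← map_pow, hx, map_one]
  rcases lt_trichotomy (V.valuation x) 1 with h1 | h1 | h1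
  · exact absurd h (ne_of_lt (pow_lt_one₀ zero_le h1 hq))
  · exact h1
  · exact absurd h (ne_of_gt (one_lt_pow₀ h1 hq))

/-- `1 - x` has valuation at most one if `x` is a root of unity -/
theorem val_one_sub (V : ValuationSubring ℂ) (x : ℂ) (q : ℕ) (hq : q ≠ 0) (hx : x ^ q = 1) :
    V.valuation (1 - x) ≤ 1 := by
  refine (V.valuation.map_sub 1 x).trans ?_
  rw [map_one, val_root V x q hq hx, max_self]

/-- the factors of the product formula are units -/
theorem val_factor (V : ValuationSubring ℂ) (n : ℕ) (x : ℂ) (hx : IsPrimitiveRoot x (n + 1))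
    (hv : V.valuation ((n + 1 : ℕ) : ℂ) = 1) (k : ℕ) (hk : k < n) :
    V.valuation (1 - x ^ (k + 1)) = 1 := by
  have hr : ∀ i : ℕ, (x ^ i) ^ (n + 1) = 1 := fun i => by
    rw [← pow_mul, mul_comm, pow_mul, hx.pow_eq_one, one_pow]
  have hle : ∀ i : ℕ, V.valuation (1 - x ^ (i + 1)) ≤ 1 := fun i =>
    val_one_sub V _ (n + 1) (Nat.succ_ne_zero n) (hr _)
  have hp := hx.prod_one_sub_pow_eq_order
  have hp2 : ∏ i ∈ Finset.range n, V.valuation (1 - x ^ (i + 1)) = 1 := by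
    rw [← map_prod, hp, ← hv, Nat.cast_add, Nat.cast_one]
  refine le_antisymm (hle k) ?_
  rw [← Finset.mul_prod_erase _ _ (Finset.mem_range.2 hk)] at hp2
  calc (1 : V.ValueGroup) = _ := hp2.symm
    _ ≤ V.valuation (1 - x ^ (k + 1)) * 1 :=
        mul_le_mul_right (Finset.prod_le_one' fun i _ => hle i) _
    _ = _ := mul_one _

end ZCHAux

/-- Module ZCH. -/
theorem t_ZCH : S_ZCH := by
  intro V l m hl hv
  have hq : l ^ m ≠ 0 := pow_ne_zero _ hl.ne_zero
  have hq1 : 0 < l ^ m := Nat.pos_of_ne_zero hq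
  set ζ : ℂ := Complex.exp (2 * Real.pi * Complex.I / (l ^ m : ℕ)) with hζ
  have hprim : IsPrimitiveRoot ζ (l ^ m) := Complex.isPrimitiveRoot_exp _ hq
  have h0 : ζ ≠ 0 := Complex.exp_ne_zero _
  have hroot : ∀ j : ℤ, (ζ ^ j) ^ (l ^ m) = 1 := fun j => by
    rw [← zpow_natCast, ← zpow_mul, mul_comm, zpow_mul, zpow_natCast, hprim.pow_eq_one, one_zpow]
  have hmem : ∀ j : ℤ, ζ ^ j ∈ V := fun j =>
    (V.valuation_le_one_iff _).1 (ZCHAux.val_root V _ _ hq (hroot j)).le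
  refine ⟨fun j => ⟨ζ ^ j, hmem j⟩, ⟨?_, ?_, ?_⟩, fun j => rfl⟩
  · intro a b
    exact Subtype.ext (zpow_add₀ h0 a b)
  · refine Subtype.ext ?_
    change ζ ^ ((l ^ m : ℕ) : ℤ) = 1
    rw [zpow_natCast, hprim.pow_eq_one]
  · intro j hj
    rw [ValuationSubring.valuation_eq_one_iff]
    change V.valuation (1 - ζ ^ j) = 1
    obtain ⟨r, hr1, hr2⟩ : ∃ r : ℕ, r < l ^ m ∧ ((r : ℤ) = j % ((l ^ m : ℕ) : ℤ)) :=
      ⟨(j % ((l ^ m : ℕ) : ℤ)).toNat, by
        have := Int.emod_lt_of_pos j (b := ((l ^ m : ℕ) : ℤ)) (by exact_mod_cast hq1)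
        have := Int.emod_nonneg j (b := ((l ^ m : ℕ) : ℤ)) (by exact_mod_cast hq)
        omega, Int.toNat_of_nonneg (Int.emod_nonneg _ (by exact_mod_cast hq))⟩
    have hr0 : r ≠ 0 := by
      rintro rfl
      exact hj (Int.dvd_of_emod_eq_zero hr2.symm)
    have hzr : ζ ^ j = ζ ^ r := by
      have e : j = ((l ^ m : ℕ) : ℤ) * (j / ((l ^ m : ℕ) : ℤ)) + r := by
        rw [hr2]; exact (Int.mul_ediv_add_emod _ _).symm
      rw [e, zpow_add₀ h0, zpow_mul, zpow_natCast, hprim.pow_eq_one, one_zpow, one_mul,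
        zpow_natCast]
    rw [hzr]
    obtain ⟨n, hn⟩ : ∃ n, l ^ m = n + 1 := ⟨l ^ m - 1, by omega⟩
    obtain ⟨k, rfl⟩ : ∃ k, r = k + 1 := ⟨r - 1, by omega⟩
    have hvq : V.valuation ((n + 1 : ℕ) : ℂ) = 1 := by
      rw [← hn, Nat.cast_pow, map_pow, hv, one_pow]
    rw [hn] at hprim
    exact ZCHAux.val_factor V n ζ hprim hvq k (by omega)

end Pool.Agent.TWR
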