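import Pool.Agent.TWR.St2
import Pool.Agent.TWR.TWPb
import Pool.Agent.TWR.EQV
import Pool.Agent.TWR.EDG
import Pool.Agent.TWR.REC
import Pool.Agent.TWR.CRT
import Pool.Agent.TWR.CST
import Pool.Agent.TWR.KEY
import Pool.Agent.TWR.CLO
import Pool.Agent.TWR.SUM
import Pool.Agent.TWR.MOD
import Pool.Agent.TWR.FRB
import Pool.Agent.TWR.TRI
import Pool.Agent.TWR.TRS
import Pool.Agent.TWR.GPW
import Pool.Agent.TWR.STA
import Pool.Agent.TWR.ZCH
import Pool.Agent.TWR.TWR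
import Pool.Agent.TWR.NFV

/-! # TWR: assembly (helper34). -/

namespace Pool.Agent.TWR

theorem a_TWR : S_TWR :=
  have hE : S_EQV := t_EQV t_TWPb
  have hK : S_KEY := t_KEY t_TWPb (t_EDG hE) t_CRT t_CST
  have hC : S_CLO := t_CLO t_TWPb hE hK
  have hM : S_MOD := t_MOD t_TWPb hC (t_SUM t_TWPb)
  t_TWR t_REC hM t_FRB (t_STA t_GPW (t_TRS t_TRI)) t_ZCH

theorem a_TW2 : S_TW2 := t_TW2 t_NFV a_TWR

end Pool.Agent.TWR
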