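import Pool.Agent.TWR.St3

/-!
TWR, module FUL: infinitely many bad levels imply that all levels are bad for all labels (helper11).
-/

set_option autoImplicit false

namespace Pool.Agent.TWR

open Finset OnePoint

namespace FULAux

variable {R M : Type} [CommRing R] [AddCommGroup M] [Module R M]

/-- a power of `l` which is one modulo `k` -/
theorem exists_pow {l : ℕ} {k : ℤ} (hk : k ≠ 0) (h : IsCoprime k (l : ℤ)) :
    ∃ t : ℕ, 1 ≤ t ∧ k ∣ (l : ℤ) ^ t - 1 := by
  have h1 : Nat.Coprime l k.natAbs := by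
    have := Int.isCoprime_iff_gcd_eq_one.mp h.symm
    rw [Int.gcd] at this
    simpa using this
  have h2 : 0 < k.natAbs := Int.natAbs_pos.mpr hk
  refine ⟨Nat.totient k.natAbs, Nat.totient_pos.mpr h2, ?_⟩
  have h3 := (Nat.modEq_iff_dvd.mp (Nat.ModEq.pow_totient h1).symm)
  rw [← Int.natAbs_dvd]
  have h4 : ((k.natAbs : ℕ) : ℤ) ∣ ((l ^ Nat.totient k.natAbs : ℕ) : ℤ) - ((1 : ℕ) : ℤ) := h3
  push_cast at h4 ⊢
  exact h4

theorem chr_mul (hTWP : S_TWP) {q : ℕ} (hq : q ≠ 0) {z : ℤ → R} (hz : Chr q z) {W : ℚ → M}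
    (hW : ∀ x, W (x + 1) = W x) {e : ℤ} (he : IsCoprime e (q : ℤ)) :
    Chr q (fun j => z (e * j)) := by
  obtain ⟨h0, hper, -⟩ := hTWP R M q hq z hz W hW
  refine ⟨fun a b => ?_, ?_, fun j hj => ?_⟩
  · show z (e * (a + b)) = z (e * a) * z (e * b)
    rw [mul_add, hz.add]
  · show z (e * q) = 1
    rw [← h0]
    exact hper _ _ ⟨e, by ring⟩
  · exact hz.un _ fun h => hj (he.symm.dvd_of_dvd_mul_left h)

theorem star (hTWP : S_TWP) {l m : ℕ} (hq : l ^ m ≠ 0) {z : ℤ → R} (hz : Chr (l ^ m) z)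
    {W : ℚ → M} (hW : ∀ x, W (x + 1) = W x) {e f : ℤ} (hef : ((l ^ m : ℕ) : ℤ) ∣ e * f - 1)
    {n : ℕ} {u : ℤ} (h : StarAt l m z W n u) :
    StarAt l m (fun j => z (e * j)) W n (f * u) := by
  obtain ⟨-, -, -, -, -, -, hl⟩ := hTWP R M (l ^ m) hq z hz W hW
  intro c g hg
  rw [hl e g]
  apply h
  have h1 : e * g * c - u = e * (g * c - f * u) + (e * f - 1) * u := by ring
  rw [h1]
  exact dvd_add (hg.mul_left e) (hef.mul_right u)

/-- the label is a residue class -/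
theorem star_mod {l m : ℕ} {z : ℤ → R} {W : ℚ → M} {n : ℕ} {u u' : ℤ}
    (h : StarAt l m z W n u) (hu : ((l ^ m : ℕ) : ℤ) ∣ u' - u) : StarAt l m z W n u' := by
  intro c e hc
  refine h c e ?_
  have h1 : e * c - u = (e * c - u') + (u' - u) := by ring
  rw [h1]
  exact dvd_add hc hu

/-- a level where all values vanish has all labels -/
theorem full_star {l m : ℕ} (hl : l.Prime) (hm : 1 ≤ m) {z : ℤ → R} {W : ℚ → M} {E : ℕ}
    (hE : 2 * m ≤ E) (h : ∀ c : ℤ, IsCoprime c (l : ℤ) → W ((c : ℚ) / (l : ℚ) ^ E) = 0) (u : ℤ)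
    (hu : IsCoprime u (l : ℤ)) : StarAt l m z W E u := by
  intro c e hc
  have hlQ : (l : ℚ) ≠ 0 := by exact_mod_cast hl.ne_zero
  have hcl : IsCoprime c (l : ℤ) := by
    obtain ⟨k, hk⟩ := hc
    obtain ⟨x, y, hxy⟩ := hu
    have h2 : ((l ^ m : ℕ) : ℤ) = (l : ℤ) * (l : ℤ) ^ (m - 1) := by
      rw [← pow_succ']
      push_cast
      congr 1
      omega
    rw [h2] at hk
    refine ⟨x * e, y - x * ((l : ℤ) ^ (m - 1) * k), ?_⟩
    linear_combination hxy + x * hk
  unfold Tw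
  apply Finset.sum_eq_zero
  intro j _
  have h1 : (c : ℚ) / (l : ℚ) ^ E + (j : ℚ) / ((l ^ m : ℕ) : ℚ) =
      ((c + j * (l : ℤ) ^ (E - m) : ℤ) : ℚ) / (l : ℚ) ^ E := by
    have h3 : (l : ℚ) ^ E = (l : ℚ) ^ m * (l : ℚ) ^ (E - m) := by
      rw [← pow_add]
      congr 1
      omega
    push_cast
    rw [h3]
    have h4 : (l : ℚ) ^ (E - m) ≠ 0 := pow_ne_zero _ hlQ
    have h5 : (l : ℚ) ^ m ≠ 0 := pow_ne_zero _ hlQ
    field_simp
  rw [h1, h, smul_zero]
  have h2 : (l : ℤ) ^ (E - m) = (l : ℤ) * (l : ℤ) ^ (E - m - 1) := by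
    rw [← pow_succ']
    congr 1
    omega
  rw [h2]
  have h3 := hcl.add_mul_left_left (j * (l : ℤ) ^ (E - m - 1))
  rwa [show c + (l : ℤ) * (j * (l : ℤ) ^ (E - m - 1)) =
    c + j * ((l : ℤ) * (l : ℤ) ^ (E - m - 1)) by ring] at h3

end FULAux

open FULAux in
theorem t_FUL : M_FUL := by
  intro hTWP hSUM hLVK R M _ _ _ l m hl hm hlu z hz N0 v hN0 hN0l χ W hQ hdep hinf
  have hq : l ^ m ≠ 0 := pow_ne_zero _ hl.ne_zero
  have hW := hQ.per
  have hpl : Prime (l : ℤ) := Nat.prime_iff_prime_int.1 hl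
  obtain ⟨-, -, -, -, -, -, hlast⟩ := hTWP R M (l ^ m) hq z hz W hW
  obtain ⟨hs1, hs2⟩ := hSUM R M l m hl hm z hz W hW hdep
  have hun : IsUnit ((l ^ m : ℕ) : R) := by
    push_cast
    exact hlu.pow m
  -- inverse of `N0`
  obtain ⟨w, hw⟩ : ∃ w : ℤ, ((l ^ m : ℕ) : ℤ) ∣ N0 * w - 1 := by
    have h1 : IsCoprime (N0 : ℤ) ((l ^ m : ℕ) : ℤ) := by
      push_cast
      exact hN0l.pow_right
    obtain ⟨x, y, hxy⟩ := h1
    exact ⟨x, -y, by linear_combination hxy⟩
  have hq1 : ¬ IsUnit (l : ℤ) := hpl.not_isUnit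
  have hwl : IsCoprime w (l : ℤ) := by
    obtain ⟨k, hk⟩ := hw
    have h2 : ((l ^ m : ℕ) : ℤ) = (l : ℤ) * (l : ℤ) ^ (m - 1) := by
      rw [← pow_succ']
      push_cast
      congr 1
      omega
    rw [h2] at hk
    exact ⟨N0, -((l : ℤ) ^ (m - 1) * k), by linear_combination hk⟩
  -- the exponent
  have hex : ∀ k : ℕ, ∃ t : ℕ, 1 ≤ t ∧ (IsCoprime (k : ℤ) (l : ℤ) →
      (N0 : ℤ) * w * k ∣ (l : ℤ) ^ t - 1) := by
    intro k
    by_cases hk : IsCoprime (k : ℤ) (l : ℤ)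
    · have h1 : IsCoprime ((N0 : ℤ) * w * k) (l : ℤ) := (hN0l.mul_left hwl).mul_left hk
      have h2 : (N0 : ℤ) * w * k ≠ 0 := by
        intro h0
        rw [h0] at h1
        exact hq1 (isCoprime_zero_left.1 h1)
      obtain ⟨t, ht1, ht2⟩ := exists_pow h2 h1
      exact ⟨t, ht1, fun _ => ht2⟩
    · exact ⟨1, le_refl _, fun h => absurd h hk⟩
  choose t ht1 ht2 using hex
  obtain ⟨T, hT⟩ : ∃ T : ℕ, T = ∏ k ∈ range (l ^ m), t k := ⟨_, rfl⟩
  have hT1 : 1 ≤ T := by
    rw [hT]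
    exact Nat.one_le_iff_ne_zero.2 (Finset.prod_ne_zero_iff.2 fun k _ => by
      have := ht1 k
      omega)
  -- two levels with the same label
  have step : ∀ (n o : ℕ) (u : ℤ), IsCoprime u (l : ℤ) → 1 ≤ o → T ∣ o →
      StarAt l m z W n u → StarAt l m z W (n + o) u → ∀ E : ℕ, v + 2 * m ≤ E → E + m ≤ n →
      n + m ≤ 2 * E → ∀ c : ℤ, IsCoprime c (l : ℤ) → W ((c : ℚ) / (l : ℚ) ^ E) = 0 := by
    intro n o u hu ho hTo hs hso E hE hEn hnE c hc
    obtain ⟨d, rfl⟩ : ∃ d, n = E + d := ⟨n - E, by omega⟩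
    have key : ∀ e : ℤ, Tw (l ^ m) z W e ((c : ℚ) / (l : ℚ) ^ E) = 0 := by
      intro e
      by_cases he : (l : ℤ) ∣ e
      · exact hs1 e _ he
      · have hel : IsCoprime e (l : ℤ) := ((Prime.coprime_iff_not_dvd hpl).2 he).symm
        have heq : IsCoprime e ((l ^ m : ℕ) : ℤ) := by
          push_cast
          exact hel.pow_right
        have hql : (l : ℤ) ∣ ((l ^ m : ℕ) : ℤ) := by
          push_cast
          exact dvd_pow_self _ (by omega)
        obtain ⟨f, s, hfs⟩ := id heq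
        have hef : ((l ^ m : ℕ) : ℤ) ∣ e * f - 1 := ⟨-s, by linear_combination hfs⟩
        have hfl : IsCoprime f (l : ℤ) := by
          obtain ⟨t, ht⟩ := hql
          exact ⟨e, s * t, by rw [← hfs, ht]; ring⟩
        -- inverse of `c`
        have hcq : IsCoprime c ((l ^ m : ℕ) : ℤ) := by
          push_cast
          exact hc.pow_right
        obtain ⟨g, r, hgr⟩ := id hcq
        have hgl : IsCoprime g (l : ℤ) := by
          obtain ⟨t, ht⟩ := hql
          exact ⟨c, r * t, by rw [← hgr, ht]; ring⟩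
        have hcg : ((l ^ m : ℕ) : ℤ) ∣ g * c - 1 := ⟨-r, by linear_combination hgr⟩
        -- the class of the constant
        obtain ⟨k, hk⟩ : ∃ k : ℕ, (k : ℤ) = (f * u * g ^ 2) % ((l ^ m : ℕ) : ℤ) :=
          ⟨((f * u * g ^ 2) % ((l ^ m : ℕ) : ℤ)).toNat,
            Int.toNat_of_nonneg (Int.emod_nonneg _ (by exact_mod_cast hq))⟩
        have hkq : k < l ^ m := by
          have : (k : ℤ) < ((l ^ m : ℕ) : ℤ) := by
            rw [hk]
            exact Int.emod_lt_of_pos _ (by exact_mod_cast Nat.pos_of_ne_zero hq)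
          exact_mod_cast this
        have hkd : ((l ^ m : ℕ) : ℤ) ∣ f * u * g ^ 2 - k := by
          rw [hk]
          exact Int.dvd_self_sub_emod
        have hkl : IsCoprime (k : ℤ) (l : ℤ) := by
          have h1 : IsCoprime (f * u * g ^ 2) (l : ℤ) := (hfl.mul_left hu).mul_left hgl.pow_left
          obtain ⟨a, ha⟩ := hkd
          obtain ⟨b, hb⟩ := hql
          obtain ⟨x, y, hxy⟩ := h1
          refine ⟨x, y + x * (b * a), ?_⟩
          rw [hb] at ha
          linear_combination hxy - x * ha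
        have hm1o : (N0 : ℤ) * w * k ∣ (l : ℤ) ^ o - 1 := by
          have h1 : t k ∣ o := by
            refine dvd_trans ?_ hTo
            rw [hT]
            exact Finset.dvd_prod_of_mem t (mem_range.2 hkq)
          obtain ⟨a, rfl⟩ := h1
          rw [pow_mul]
          exact dvd_trans (ht2 k hkl) (sub_one_dvd_pow_sub_one _ _)
        have hcong : ((l ^ m : ℕ) : ℤ) ∣ (N0 : ℤ) * w * k * c ^ 2 - f * u := by
          have h1 : (N0 : ℤ) * w * k * c ^ 2 - f * u = (N0 * w - 1) * (k * c ^ 2) -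
              (f * u * g ^ 2 - k) * c ^ 2 + (g * c - 1) * ((g * c + 1) * (f * u)) := by ring
          rw [h1]
          exact dvd_add (dvd_sub (hw.mul_right _) (hkd.mul_right _)) (hcg.mul_right _)
        have h2 := hLVK R M l m hl hm (fun j => z (e * j)) (chr_mul hTWP hq hz hW heq) N0 v χ W hQ
          E d o (f * u) c ((N0 : ℤ) * w * k) hE (by omega) (by omega) ho (hfl.mul_left hu)
          ⟨w * k, by ring⟩ hcong hm1o (star hTWP hq hz hW hef hs) (star hTWP hq hz hW hef hso) 0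
        rw [hlast e 1, mul_one] at h2
        simpa using h2
    have h3 := hs2 ((c : ℚ) / (l : ℚ) ^ E)
    rw [Finset.sum_eq_zero fun (e : ℕ) _ => key (e : ℤ)] at h3
    obtain ⟨w', hw'⟩ := hun
    rw [← hw'] at h3
    have h4 := congrArg (fun y => (↑w'⁻¹ : R) • y) h3
    simp only [smul_zero, smul_smul, Units.inv_mul, one_smul] at h4
    exact h4.symm
  -- pigeonhole
  have hpig : ∀ n0 : ℕ, ∃ n ≥ n0, ∃ (o : ℕ) (u : ℤ), 1 ≤ o ∧ T ∣ o ∧ IsCoprime u (l : ℤ) ∧
      StarAt l m z W n u ∧ StarAt l m z W (n + o) u := by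
    intro n0
    let S : Set ℕ := {n | n0 ≤ n ∧ ∃ u : ℤ, IsCoprime u (l : ℤ) ∧ StarAt l m z W n u}
    have hS : S.Infinite := by
      rw [Set.infinite_iff_exists_gt]
      intro a
      obtain ⟨n, hn, u, hu⟩ := hinf (max n0 (a + 1))
      have h1 : max n0 (a + 1) ≤ n := hn
      rw [max_le_iff] at h1
      exact ⟨n, ⟨h1.1, u, hu⟩, by omega⟩
    have hSi : Infinite S := hS.to_subtype
    have hne1 : NeZero (l ^ m) := ⟨hq⟩
    have hne2 : NeZero T := ⟨by omega⟩
    choose! lab hlab using fun (n : S) => n.2.2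
    obtain ⟨a, b, hab, hfab⟩ := Finite.exists_ne_map_eq_of_infinite
      (fun n : S => (((lab n : ℤ) : ZMod (l ^ m)), ((n : ℕ) : ZMod T)))
    have main : ∀ a b : S, (a : ℕ) < b → ((lab a : ℤ) : ZMod (l ^ m)) = ((lab b : ℤ) : ZMod (l ^ m)) →
        ((a : ℕ) : ZMod T) = ((b : ℕ) : ZMod T) → ∃ n ≥ n0, ∃ (o : ℕ) (u : ℤ), 1 ≤ o ∧ T ∣ o ∧
        IsCoprime u (l : ℤ) ∧ StarAt l m z W n u ∧ StarAt l m z W (n + o) u := by
      intro a b hlt h1 h2
      refine ⟨a, a.2.1, (b : ℕ) - a, lab a, by omega, ?_, (hlab a).1, (hlab a).2, ?_⟩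
      · rw [ZMod.natCast_eq_natCast_iff] at h2
        exact (Nat.modEq_iff_dvd' hlt.le).1 h2
      · rw [Nat.add_sub_cancel' hlt.le]
        refine star_mod (hlab b).2 ?_
        rw [ZMod.intCast_eq_intCast_iff_dvd_sub] at h1
        have h3 : lab a - lab b = -(lab b - lab a) := by ring
        rw [h3]
        exact (dvd_neg).2 h1
    have hab' : (a : ℕ) ≠ b := fun h => hab (Subtype.ext h)
    simp only [Prod.mk.injEq] at hfab
    rcases lt_or_gt_of_ne hab' with h | h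
    · exact main a b h hfab.1 hfab.2
    · exact main b a h hfab.1.symm hfab.2.symm
  -- all levels
  intro E hE u hu
  refine full_star hl hm (by omega) ?_ u hu
  obtain ⟨n, hn, o, u1, ho1, hTo, hu1, hs, hso⟩ := hpig (E + 5 * m + 2 * T + 2)
  have hall : ∀ k E' : ℕ, E' + k + m = n → v + 2 * m ≤ E' → ∀ c : ℤ, IsCoprime c (l : ℤ) →
      W ((c : ℚ) / (l : ℚ) ^ E') = 0 := by
    intro k
    induction k using Nat.strong_induction_on with
    | _ k ih =>
      intro E' hk hE' c hc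
      by_cases h : n + m ≤ 2 * E'
      · exact step n o u1 hu1 ho1 hTo hs hso E' hE' (by omega) h c hc
      · have h1 := ih (k - m) (by omega) (E' + m) (by omega) (by omega)
        have h2 := ih (k - m - T) (by omega) (E' + m + T) (by omega) (by omega)
        exact step (E' + m) T 1 isCoprime_one_left hT1 dvd_rfl
          (full_star hl hm (by omega) h1 1 isCoprime_one_left)
          (full_star hl hm (by omega) h2 1 isCoprime_one_left) E' hE' le_rfl (by omega) c hc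
  exact hall (n - E - m) E (by omega) hE

end Pool.Agent.TWR
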