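import Pool.Agent.TWR.TW3

/-!
# TWR, fourth file, part one: a level is fully bad (helper11, helper22, helper34)

`Full l m z W E`: `Tw (l^m) z W e (c/l^E) = 0` for all `c`, `e` prime to `l`. The main step of `KEY` with
`β = 0`, `δ = 1`, in which the relations at the level `E` are not used, and in which only ONE return
time `o` is used, divisible by a fixed number `t` which depends on `N0`, `l`, `m` only.
-/

set_option autoImplicit false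

namespace Pool.Agent.TWR.Q4

open Finset OnePoint

/-- K4: the main step of `KEY` for `β = 0`, `δ = 1`, `s = 0`. -/
def S_K4 : Prop := ∀ (R M : Type) [CommRing R] [AddCommGroup M] [Module R M] (l m : ℕ)
  (_ : l.Prime) (_ : 1 ≤ m) (z : ℤ → R) (_ : Chr (l ^ m) z) (N0 v : ℕ) (_ : N0 ≠ 0)
  (_ : IsCoprime (N0 : ℤ) (l : ℤ)) (χ : ℤ → R) (W : ℚ → M) (_ : QM (l ^ v * N0) χ W)
  (u u' : ℤ) (_ : IsCoprime u (l : ℤ)) (m1 : ℤ) (_ : (N0 : ℤ) ∣ m1)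
  (_ : ((l ^ m : ℕ) : ℤ) ∣ m1 * u' ^ 2 - u) (_ : IsCoprime m1 (l : ℤ)) (E d o : ℕ)
  (_ : v + 2 * m ≤ E) (_ : m ≤ d) (_ : d + m ≤ E) (_ : 1 ≤ o) (_ : m1 ∣ (l : ℤ) ^ o - 1)
  (_ : StarAt l m z W (E + d) u) (_ : StarAt l m z W (E + d + o) u),
  Tw (l ^ m) z W 1 ((u' : ℚ) / (l : ℚ) ^ E) = 0

theorem t_K4 (hTWP : S_TWP) (hEDG : S_EDG) (hCST : S_CST) : S_K4 := by
  intro R M _ _ _ l m hl hm z hz N0 v hN0 hN0l χ W hW u u' hu m1 hN0m1 hm1u hm1l E d o hvE hmd hdE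
    ho1 hdo hs hso
  have hq0 : l ^ m ≠ 0 := pow_ne_zero _ hl.ne_zero
  obtain ⟨hz0, hzper, -, hTadd, hTsh, -, -⟩ := hTWP R M (l ^ m) hq0 z hz W hW.per
  have hlZ : (l : ℤ) ≠ 0 := by exact_mod_cast hl.ne_zero
  have hlQ : (l : ℚ) ≠ 0 := by exact_mod_cast hl.ne_zero
  have hm10 : m1 ≠ 0 := by
    rintro rfl
    have h1 : IsUnit (l : ℤ) := isCoprime_zero_left.mp hm1l
    rw [Int.isUnit_iff] at h1
    have := hl.two_le
    omega
  push_cast at hm1u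
  obtain ⟨k1, hk1⟩ := hm1u
  let B : ℤ → ℤ := fun s => u' + s * (l : ℤ) ^ m
  let A : ℤ → ℤ := fun s => m1 * u' + (l : ℤ) ^ d + m1 * s * (l : ℤ) ^ m
  let H : ℤ → M := fun s => Tw (l ^ m) z W 1 ((B s : ℚ) / (((l : ℤ) ^ E : ℤ) : ℚ))
  have hC0 : (l : ℤ) ^ E * m1 ≠ 0 := mul_ne_zero (pow_ne_zero _ hlZ) hm10
  have hD0 : (l : ℤ) ^ E ≠ 0 := pow_ne_zero _ hlZ
  have hEm : (l : ℤ) ^ E = (l : ℤ) ^ m * (l : ℤ) ^ (E - m) := by
    rw [← pow_add]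
    congr 1
    omega
  have hEmQ : (l : ℚ) ^ E = (l : ℚ) ^ m * (l : ℚ) ^ (E - m) := by exact_mod_cast hEm
  have hdm : (l : ℤ) ^ d = (l : ℤ) ^ m * (l : ℤ) ^ (d - m) := by
    rw [← pow_add]
    congr 1
    omega
  have hAB : ∀ s : ℤ, (l : ℤ) ^ m ∣ A s * B s - u := by
    intro s
    refine ⟨k1 + m1 * u' * s + (l : ℤ) ^ (d - m) * B s + m1 * s * B s, ?_⟩
    show (m1 * u' + (l : ℤ) ^ d + m1 * s * (l : ℤ) ^ m) * (u' + s * (l : ℤ) ^ m) - u =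
      (l : ℤ) ^ m * (k1 + m1 * u' * s + (l : ℤ) ^ (d - m) * (u' + s * (l : ℤ) ^ m) +
        m1 * s * (u' + s * (l : ℤ) ^ m))
    rw [hdm]
    linear_combination hk1
  have hAl : ∀ s : ℤ, IsCoprime (A s) (l : ℤ) := by
    intro s
    obtain ⟨k, hk⟩ := hAB s
    have h1 : IsCoprime (A s * B s) (l : ℤ) := by
      apply KEYM.coprime_of_sub hu (k := (l : ℤ) ^ (m - 1) * k)
      rw [hk, ← mul_assoc, ← pow_succ']
      congr 2
      omega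
    exact h1.of_mul_left_left
  have hdet : ∀ s : ℤ, A s * (l : ℤ) ^ E - B s * ((l : ℤ) ^ E * m1) = (l : ℤ) ^ (E + d) := by
    intro s
    show (m1 * u' + (l : ℤ) ^ d + m1 * s * (l : ℤ) ^ m) * (l : ℤ) ^ E -
      (u' + s * (l : ℤ) ^ m) * ((l : ℤ) ^ E * m1) = _
    rw [pow_add]
    ring
  have hNC : ((l ^ v * N0 * l ^ m * l ^ m : ℕ) : ℤ) ∣ (l : ℤ) ^ E * m1 := by
    obtain ⟨k, hk⟩ := hN0m1
    refine ⟨(l : ℤ) ^ (E - (v + 2 * m)) * k, ?_⟩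
    have h1 : (l : ℤ) ^ E = (l : ℤ) ^ v * (l : ℤ) ^ m * (l : ℤ) ^ m *
        (l : ℤ) ^ (E - (v + 2 * m)) := by
      rw [← pow_add, ← pow_add, ← pow_add]
      congr 1
      omega
    rw [h1, hk]
    push_cast
    ring
  have hcopAC : ∀ (s B' : ℤ) (n : ℕ),
      A s * (l : ℤ) ^ E - B' * ((l : ℤ) ^ E * m1) = (l : ℤ) ^ n →
      IsCoprime (A s) ((l : ℤ) ^ E * m1) := by
    intro s B' n h
    obtain ⟨x, y, hxy⟩ := (hAl s).pow_right (n := n)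
    refine ⟨x + y * (l : ℤ) ^ E, -(y * B'), ?_⟩
    linear_combination hxy + y * h
  obtain ⟨T1, hT1⟩ := hdo
  have hT0l : IsCoprime (-T1) (l : ℤ) := by
    refine ⟨m1, (l : ℤ) ^ (o - 1), ?_⟩
    have h1 : (l : ℤ) ^ (o - 1) * (l : ℤ) = (l : ℤ) ^ o := by
      rw [← pow_succ]
      congr 1
      omega
    linear_combination h1 + hT1
  have hedge : ∀ s, H s = Tw (l ^ m) z W 1 ((A s : ℚ) / (((l : ℤ) ^ E * m1 : ℤ) : ℚ)) := by
    intro s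
    refine hEDG R M l m hl z hz (l ^ v * N0) χ W hW (E + d) u hs 1 (A s) (B s)
      ((l : ℤ) ^ E * m1) ((l : ℤ) ^ E) (by omega) hNC hC0 hD0
      (hcopAC s (B s) (E + d) (hdet s)) (hdet s) ?_
    rw [one_mul]
    push_cast
    exact hAB s
  have hBs : ∀ s : ℤ, B (s + (l : ℤ) ^ (d - m) * (-T1)) = B s - (l : ℤ) ^ d * T1 := by
    intro s
    show u' + (s + (l : ℤ) ^ (d - m) * (-T1)) * (l : ℤ) ^ m =
      u' + s * (l : ℤ) ^ m - (l : ℤ) ^ d * T1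
    rw [hdm]
    ring
  have hdet2 : ∀ s : ℤ, A s * (l : ℤ) ^ E -
      B (s + (l : ℤ) ^ (d - m) * (-T1)) * ((l : ℤ) ^ E * m1) = (l : ℤ) ^ (E + d + o) := by
    intro s
    rw [hBs]
    have h2 := hdet s
    rw [pow_add _ (E + d) o]
    rw [pow_add] at h2 ⊢
    linear_combination h2 + (l : ℤ) ^ E * (l : ℤ) ^ d * (-1) * hT1
  have hedge2 : ∀ s, H (s + (l : ℤ) ^ (d - m) * (-T1)) =
      Tw (l ^ m) z W 1 ((A s : ℚ) / (((l : ℤ) ^ E * m1 : ℤ) : ℚ)) := by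
    intro s
    refine hEDG R M l m hl z hz (l ^ v * N0) χ W hW (E + d + o) u hso 1 (A s)
      (B (s + (l : ℤ) ^ (d - m) * (-T1)))
      ((l : ℤ) ^ E * m1) ((l : ℤ) ^ E) (by omega) hNC hC0 hD0
      (hcopAC s _ (E + d + o) (hdet2 s)) (hdet2 s) ?_
    rw [one_mul]
    push_cast
    rw [hBs]
    have h2 : A s * (B s - (l : ℤ) ^ d * T1) - u =
        (A s * B s - u) - (l : ℤ) ^ m * (A s * ((l : ℤ) ^ (d - m) * T1)) := by
      rw [hdm]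
      ring
    rw [h2]
    exact dvd_sub (hAB s) (dvd_mul_right _ _)
  have hDQ : (((l : ℤ) ^ E : ℤ) : ℚ) ≠ 0 := by exact_mod_cast hD0
  have hper : ∀ s, H (s + (l : ℤ) ^ (E - m)) = H s := by
    intro s
    have h1 : B (s + (l : ℤ) ^ (E - m)) = B s + (l : ℤ) ^ E := by
      show u' + (s + (l : ℤ) ^ (E - m)) * (l : ℤ) ^ m = u' + s * (l : ℤ) ^ m + (l : ℤ) ^ E
      rw [hEm]
      ring
    show Tw (l ^ m) z W 1 ((B (s + (l : ℤ) ^ (E - m)) : ℚ) / (((l : ℤ) ^ E : ℤ) : ℚ)) = _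
    rw [h1, Int.cast_add, add_div, div_self hDQ]
    have h2 := hTadd 1 1 ((B s : ℚ) / (((l : ℤ) ^ E : ℤ) : ℚ))
    rw [Int.cast_one] at h2
    exact h2
  have hshift : ∀ s, H (s + (l : ℤ) ^ (E - 2 * m)) = z (-1) • H s := by
    intro s
    have h0 : (l : ℤ) ^ (E - m) = (l : ℤ) ^ (E - 2 * m) * (l : ℤ) ^ m := by
      rw [← pow_add]
      congr 1
      omega
    have h1 : B (s + (l : ℤ) ^ (E - 2 * m)) = B s + (l : ℤ) ^ (E - m) := by
      show u' + (s + (l : ℤ) ^ (E - 2 * m)) * (l : ℤ) ^ m = u' + s * (l : ℤ) ^ m + (l : ℤ) ^ (E - m)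
      rw [h0]
      ring
    show Tw (l ^ m) z W 1 ((B (s + (l : ℤ) ^ (E - 2 * m)) : ℚ) / (((l : ℤ) ^ E : ℤ) : ℚ)) = _
    have h2 : ((B (s + (l : ℤ) ^ (E - 2 * m)) : ℤ) : ℚ) / (((l : ℤ) ^ E : ℤ) : ℚ) =
        (B s : ℚ) / (((l : ℤ) ^ E : ℤ) : ℚ) + 1 / ((l ^ m : ℕ) : ℚ) := by
      rw [h1, Int.cast_add, add_div]
      congr 1
      push_cast
      rw [hEmQ]
      have h3 : (l : ℚ) ^ (E - m) ≠ 0 := pow_ne_zero _ hlQ
      have h4 : (l : ℚ) ^ m ≠ 0 := pow_ne_zero _ hlQ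
      field_simp
    rw [h2]
    exact hTsh 1 _
  have hunit : IsUnit (1 - z (-1)) := by
    apply hz.un
    intro hcon
    have h1 := Int.eq_one_of_dvd_one (by positivity) ((Int.dvd_neg).mp hcon)
    have h2 : l ^ m = 1 := by exact_mod_cast h1
    have h3 := Nat.one_lt_pow (by omega : m ≠ 0) hl.one_lt
    omega
  have hfin := hCST R M l (E - m) (d - m) (E - 2 * m) (-T1) (z (-1)) H hT0l (by omega) hunit hper
    (fun s => by rw [hedge2 s, hedge s]) hshift 0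
  rw [← hfin]
  show _ = Tw (l ^ m) z W 1 (((u' + 0 * (l : ℤ) ^ m : ℤ) : ℚ) / (((l : ℤ) ^ E : ℤ) : ℚ))
  congr 1
  push_cast
  ring

section

variable {R M : Type} [CommRing R] [AddCommGroup M] [Module R M]

/-- the level `E` is fully bad: the relations for all labels -/
def Full (l m : ℕ) (z : ℤ → R) (W : ℚ → M) (E : ℕ) : Prop :=
  ∀ c e : ℤ, IsCoprime c (l : ℤ) → IsCoprime e (l : ℤ) →
    Tw (l ^ m) z W e ((c : ℚ) / (l : ℚ) ^ E) = 0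

theorem Full.star {l m : ℕ} (hm : 1 ≤ m) {z : ℤ → R} {W : ℚ → M} {E : ℕ}
    (h : Full l m z W E) (u : ℤ) (hu : IsCoprime u (l : ℤ)) : StarAt l m z W E u := by
  intro c e hce
  obtain ⟨k, hk⟩ := hce
  push_cast at hk
  have h1 : IsCoprime (e * c) (l : ℤ) := by
    apply KEYM.coprime_of_sub hu (k := (l : ℤ) ^ (m - 1) * k)
    rw [hk, ← mul_assoc, ← pow_succ']
    congr 2
    omega
  exact h c e h1.of_mul_left_right h1.of_mul_left_left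

end

/-- TST: one return time for all labels. -/
def S_TST : Prop := ∀ (l m N0 : ℕ), l.Prime → 1 ≤ m → N0 ≠ 0 → IsCoprime (N0 : ℤ) (l : ℤ) →
  ∃ t : ℕ, 1 ≤ t ∧ ∀ κ : ℤ, IsCoprime κ (l : ℤ) → ∃ m1 : ℤ, (N0 : ℤ) ∣ m1 ∧
    ((l ^ m : ℕ) : ℤ) ∣ m1 - κ ∧ IsCoprime m1 (l : ℤ) ∧ m1 ∣ (l : ℤ) ^ t - 1

theorem t_TST : S_TST := by
  intro l m N0 hl hm hN0 hN0l
  have hl1 : 1 < l ^ m := Nat.one_lt_pow (by omega) hl.one_lt
  have hql : (l : ℤ) ∣ ((l ^ m : ℕ) : ℤ) := by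
    push_cast
    exact dvd_pow_self _ (by omega)
  have hcop : IsCoprime (N0 : ℤ) ((l ^ m : ℕ) : ℤ) := by
    push_cast
    exact hN0l.pow_right
  obtain ⟨x, y, hxy⟩ := hcop
  -- the number for a residue
  have h1 : ∀ k : ℕ, ∃ t : ℕ, 1 ≤ t ∧ (IsCoprime (k : ℤ) (l : ℤ) → (N0 * x * k : ℤ) ∣ (l : ℤ) ^ t - 1) := by
    intro k
    by_cases hk : IsCoprime (k : ℤ) (l : ℤ)
    · have h2 : IsCoprime (N0 * x : ℤ) (l : ℤ) := by
        obtain ⟨w, hw⟩ := hql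
        exact ⟨1, y * w, by linear_combination hxy - y * hw⟩
      have h3 : IsCoprime (N0 * x * k : ℤ) (l : ℤ) := h2.mul_left hk
      have h4 : (N0 * x * k : ℤ) ≠ 0 := by
        intro h0
        rw [h0] at h3
        have h5 : IsUnit (l : ℤ) := isCoprime_zero_left.mp h3
        rw [Int.isUnit_iff] at h5
        have := hl.two_le
        omega
      obtain ⟨t, ht1, ht2⟩ := KEYM.exists_pow h4 h3
      exact ⟨t, ht1, fun _ => ht2⟩
    · exact ⟨1, le_rfl, fun h => absurd h hk⟩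
  choose t ht1 ht2 using h1
  refine ⟨∏ k ∈ range (l ^ m), t k, Nat.succ_le_of_lt (Finset.prod_pos fun k _ => ht1 k), ?_⟩
  intro κ hκ
  obtain ⟨k, hk⟩ := Int.eq_ofNat_of_zero_le (Int.emod_nonneg κ (b := ((l ^ m : ℕ) : ℤ)) (by positivity))
  have hklt : k < l ^ m := by
    have := Int.emod_lt_of_pos κ (b := ((l ^ m : ℕ) : ℤ)) (by positivity)
    rw [hk] at this
    exact_mod_cast this
  have hkκ : ((l ^ m : ℕ) : ℤ) ∣ κ - k := by
    rw [← hk]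
    exact Int.dvd_self_sub_emod
  have hkl : IsCoprime (k : ℤ) (l : ℤ) := by
    obtain ⟨w, hw⟩ := hql
    obtain ⟨w', hw'⟩ := hkκ
    apply KEYM.coprime_of_sub hκ (k := -(w * w'))
    linear_combination -hw' - w' * hw
  have h2 : IsCoprime (N0 * x : ℤ) (l : ℤ) := by
    obtain ⟨w, hw⟩ := hql
    exact ⟨1, y * w, by linear_combination hxy - y * hw⟩
  refine ⟨N0 * x * k, ⟨x * k, by ring⟩, ?_, h2.mul_left hkl, ?_⟩
  · obtain ⟨w', hw'⟩ := hkκ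
    exact ⟨-(y * k) - w', by linear_combination k * hxy - hw'⟩
  · refine (ht2 k hkl).trans ?_
    obtain ⟨w, hw⟩ := Finset.dvd_prod_of_mem t (mem_range.2 hklt)
    rw [hw, pow_mul]
    exact sub_one_dvd_pow_sub_one _ _

/-- FUL4: two relations at the levels `E + d` and `E + d + o` make the level `E` fully bad. -/
def S_FUL4 : Prop := ∀ (l m N0 : ℕ), l.Prime → 1 ≤ m → N0 ≠ 0 → IsCoprime (N0 : ℤ) (l : ℤ) →
  ∃ t : ℕ, 1 ≤ t ∧ ∀ (R M : Type) [CommRing R] [AddCommGroup M] [Module R M] (z : ℤ → R)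
    (_ : Chr (l ^ m) z) (v : ℕ) (χ : ℤ → R) (W : ℚ → M) (_ : QM (l ^ v * N0) χ W)
    (u : ℤ) (_ : IsCoprime u (l : ℤ)) (E d o : ℕ)
    (_ : v + 2 * m ≤ E) (_ : m ≤ d) (_ : d + m ≤ E) (_ : 1 ≤ o) (_ : t ∣ o)
    (_ : StarAt l m z W (E + d) u) (_ : StarAt l m z W (E + d + o) u), Full l m z W E

open MODAux in
theorem t_FUL4 (hTWP : S_TWP) (hK4 : S_K4) (hTST : S_TST) : S_FUL4 := by
  intro l m N0 hl hm hN0 hN0l
  obtain ⟨t, ht1, ht⟩ := hTST l m N0 hl hm hN0 hN0l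
  refine ⟨t, ht1, ?_⟩
  intro R M _ _ _ z hz v χ W hW u hu E d o hvE hmd hdE ho1 hto hs hso c e hc he
  have hq : l ^ m ≠ 0 := pow_ne_zero _ hl.ne_zero
  obtain ⟨-, -, -, -, -, -, hlast⟩ := hTWP R M (l ^ m) hq z hz W hW.per
  have hql : (l : ℤ) ∣ ((l ^ m : ℕ) : ℤ) := by
    push_cast
    exact dvd_pow_self _ (by omega)
  have hinv : ∀ e : ℤ, IsCoprime e (l : ℤ) → ∃ f : ℤ, ((l ^ m : ℕ) : ℤ) ∣ e * f - 1 ∧
      IsCoprime f (l : ℤ) := by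
    intro e he
    have heq : IsCoprime e ((l ^ m : ℕ) : ℤ) := by
      push_cast
      exact he.pow_right
    obtain ⟨f, s, hfs⟩ := heq
    refine ⟨f, ⟨-s, by linear_combination hfs⟩, ?_⟩
    obtain ⟨w, hw⟩ := hql
    exact ⟨e, s * w, by rw [← hfs, hw]; ring⟩
  have heq : IsCoprime e ((l ^ m : ℕ) : ℤ) := by
    push_cast
    exact he.pow_right
  obtain ⟨f, hef, hfl⟩ := hinv e he
  obtain ⟨c', hcc, hcl⟩ := hinv c hc
  obtain ⟨m1, hm1N, hm1κ, hm1l, hm1t⟩ := ht (f * u * c' ^ 2) ((hfl.mul_left hu).mul_left hcl.pow_left)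
  have h1 := hK4 R M l m hl hm (fun j => z (e * j)) (chr_mul hTWP hq hz hW.per heq) N0 v hN0 hN0l
    χ W hW (f * u) c (hfl.mul_left hu) m1 hm1N ?_ hm1l E d o hvE hmd hdE ho1 ?_
    (star hTWP hq hz hW.per hef hs) (star hTWP hq hz hW.per hef hso)
  · rw [hlast e 1, mul_one] at h1
    exact h1
  · obtain ⟨w1, hw1⟩ := hm1κ
    obtain ⟨w2, hw2⟩ := hcc
    exact ⟨w1 * c ^ 2 + f * u * w2 * (c * c' + 1), by
      linear_combination c ^ 2 * hw1 + f * u * (c * c' + 1) * hw2⟩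
  · refine hm1t.trans ?_
    obtain ⟨w, hw⟩ := hto
    rw [hw, pow_mul]
    exact sub_one_dvd_pow_sub_one _ _

/-- DSC: the descent. -/
theorem descent (F : ℕ → Prop) (v m t n : ℕ) (hm : 1 ≤ m) (hn : 5 * m + 2 * t + 2 ≤ n)
    (h0 : ∀ E, v + 2 * m ≤ E → n + m ≤ 2 * E → E + m ≤ n → F E)
    (h1 : ∀ E, v + 2 * m ≤ E → F (E + m) → F (E + m + t) → F E) :
    ∀ E, v + 2 * m ≤ E → E + m ≤ n → F E := by
  have key : ∀ k E, n ≤ E + k → v + 2 * m ≤ E → E + m ≤ n → F E := by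
    intro k
    induction k using Nat.strong_induction_on with
    | _ k ih =>
      intro E hk hE hEn
      by_cases h2 : n + m ≤ 2 * E
      · exact h0 E hE h2 hEn
      · exact h1 E hE (ih (k - m) (by omega) (E + m) (by omega) (by omega) (by omega))
          (ih (k - m) (by omega) (E + m + t) (by omega) (by omega) (by omega))
  intro E hE hEn
  exact key n E (by omega) hE hEn

end Pool.Agent.TWR.Q4
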