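import Pool.Agent.TWR.St3

/-!
TWR, module LVK: two bad levels with the same label (helper11).
-/

set_option autoImplicit false

namespace Pool.Agent.TWR

open Finset OnePoint

theorem t_LVK : M_LVK := by
  intro hTWP hEDG hCST R M _ _ _ l m hl hm z hz N0 v χ W hW E d o u u' m1 hvE hmd hdE ho hu
    hN0m1 hm1u hm1o hs hso s
  have hq0 : l ^ m ≠ 0 := pow_ne_zero _ hl.ne_zero
  obtain ⟨hz0, hzper, -, hTadd, hTsh, -, -⟩ := hTWP R M (l ^ m) hq0 z hz W hW.per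
  have hlZ : (l : ℤ) ≠ 0 := by exact_mod_cast hl.ne_zero
  have hlQ : (l : ℚ) ≠ 0 := by exact_mod_cast hl.ne_zero
  obtain ⟨T1, hT1⟩ := hm1o
  have hlo : (l : ℤ) ^ (o - 1) * (l : ℤ) = (l : ℤ) ^ o := by
    rw [← pow_succ]
    congr 1
    omega
  have hm1l : IsCoprime m1 (l : ℤ) := ⟨-T1, (l : ℤ) ^ (o - 1), by linear_combination hlo + hT1⟩
  have hT0l : IsCoprime (-T1) (l : ℤ) := ⟨m1, (l : ℤ) ^ (o - 1), by linear_combination hlo + hT1⟩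
  have hm10 : m1 ≠ 0 := by
    rintro rfl
    have h1 : IsUnit (l : ℤ) := isCoprime_zero_left.mp hm1l
    rw [Int.isUnit_iff] at h1
    have := hl.two_le
    omega
  push_cast at hm1u
  obtain ⟨k1, hk1⟩ := hm1u
  let B : ℤ → ℤ := fun s => u' + s * (l : ℤ) ^ m
  let A : ℤ → ℤ := fun s => m1 * (u' + s * (l : ℤ) ^ m) + (l : ℤ) ^ d
  let H : ℤ → M := fun s => Tw (l ^ m) z W 1 ((B s : ℚ) / (((l : ℤ) ^ E : ℤ) : ℚ))
  have hC0 : (l : ℤ) ^ E * m1 ≠ 0 := mul_ne_zero (pow_ne_zero _ hlZ) hm10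
  have hD0 : (l : ℤ) ^ E ≠ 0 := pow_ne_zero _ hlZ
  have hEm : (l : ℤ) ^ E = (l : ℤ) ^ m * (l : ℤ) ^ (E - m) := by
    rw [← pow_add]
    congr 1
    omega
  have hEmQ : (l : ℚ) ^ E = (l : ℚ) ^ m * (l : ℚ) ^ (E - m) := by exact_mod_cast hEm
  have hdm : (l : ℤ) ^ d = (l : ℤ) ^ m * (l : ℤ) ^ (d - m) := by
    rw [← pow_add]
    congr 1
    omega
  have hAB : ∀ s : ℤ, (l : ℤ) ^ m ∣ A s * B s - u := by
    intro s
    refine ⟨k1 + m1 * (2 * u' * s + s ^ 2 * (l : ℤ) ^ m) + (l : ℤ) ^ (d - m) * B s, ?_⟩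
    show (m1 * (u' + s * (l : ℤ) ^ m) + (l : ℤ) ^ d) * (u' + s * (l : ℤ) ^ m) - u =
      (l : ℤ) ^ m * (k1 + m1 * (2 * u' * s + s ^ 2 * (l : ℤ) ^ m) +
        (l : ℤ) ^ (d - m) * (u' + s * (l : ℤ) ^ m))
    linear_combination hk1 + (u' + s * (l : ℤ) ^ m) * hdm
  have hAl : ∀ s : ℤ, IsCoprime (A s) (l : ℤ) := by
    intro s
    obtain ⟨k, hk⟩ := hAB s
    have h1 : IsCoprime (A s * B s) (l : ℤ) := by
      obtain ⟨x, y, hxy⟩ := hu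
      have h2 : (l : ℤ) ^ m = (l : ℤ) * (l : ℤ) ^ (m - 1) := by
        rw [← pow_succ']
        congr 1
        omega
      refine ⟨x, y - x * ((l : ℤ) ^ (m - 1) * k), ?_⟩
      linear_combination hxy + x * hk + x * k * h2
    exact h1.of_mul_left_left
  have hdet : ∀ s : ℤ, A s * (l : ℤ) ^ E - B s * ((l : ℤ) ^ E * m1) = (l : ℤ) ^ (E + d) := by
    intro s
    show (m1 * (u' + s * (l : ℤ) ^ m) + (l : ℤ) ^ d) * (l : ℤ) ^ E -
      (u' + s * (l : ℤ) ^ m) * ((l : ℤ) ^ E * m1) = _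
    rw [pow_add]
    ring
  have hNC : ((l ^ v * N0 * l ^ m * l ^ m : ℕ) : ℤ) ∣ (l : ℤ) ^ E * m1 := by
    obtain ⟨k, hk⟩ := hN0m1
    refine ⟨(l : ℤ) ^ (E - (v + 2 * m)) * k, ?_⟩
    have h1 : (l : ℤ) ^ E = (l : ℤ) ^ v * (l : ℤ) ^ m * (l : ℤ) ^ m *
        (l : ℤ) ^ (E - (v + 2 * m)) := by
      rw [← pow_add, ← pow_add, ← pow_add]
      congr 1
      omega
    rw [h1, hk]
    push_cast
    ring
  have hcopAC : ∀ (s B' : ℤ) (n : ℕ),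
      A s * (l : ℤ) ^ E - B' * ((l : ℤ) ^ E * m1) = (l : ℤ) ^ n →
      IsCoprime (A s) ((l : ℤ) ^ E * m1) := by
    intro s B' n h
    obtain ⟨x, y, hxy⟩ := (hAl s).pow_right (n := n)
    refine ⟨x + y * (l : ℤ) ^ E, -(y * B'), ?_⟩
    linear_combination hxy + y * h
  have hedge : ∀ s, H s = Tw (l ^ m) z W 1 ((A s : ℚ) / (((l : ℤ) ^ E * m1 : ℤ) : ℚ)) := by
    intro s
    refine hEDG R M l m hl z hz (l ^ v * N0) χ W hW (E + d) u hs 1 (A s) (B s)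
      ((l : ℤ) ^ E * m1) ((l : ℤ) ^ E) (by omega) hNC hC0 hD0
      (hcopAC s (B s) (E + d) (hdet s)) (hdet s) ?_
    rw [one_mul]
    push_cast
    exact hAB s
  have hB2 : ∀ s : ℤ, B (s + (l : ℤ) ^ (d - m) * (-T1)) = B s - (l : ℤ) ^ d * T1 := by
    intro s
    show u' + (s + (l : ℤ) ^ (d - m) * (-T1)) * (l : ℤ) ^ m =
      u' + s * (l : ℤ) ^ m - (l : ℤ) ^ d * T1
    rw [hdm]
    ring
  have hdet2 : ∀ s : ℤ, A s * (l : ℤ) ^ E -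
      B (s + (l : ℤ) ^ (d - m) * (-T1)) * ((l : ℤ) ^ E * m1) = (l : ℤ) ^ (E + d + o) := by
    intro s
    rw [hB2 s]
    have h2 := hdet s
    rw [pow_add _ (E + d) o]
    rw [pow_add] at h2 ⊢
    linear_combination h2 + (l : ℤ) ^ E * (l : ℤ) ^ d * (-1) * hT1
  have hedge2 : ∀ s, H (s + (l : ℤ) ^ (d - m) * (-T1)) =
      Tw (l ^ m) z W 1 ((A s : ℚ) / (((l : ℤ) ^ E * m1 : ℤ) : ℚ)) := by
    intro s
    refine hEDG R M l m hl z hz (l ^ v * N0) χ W hW (E + d + o) u hso 1 (A s)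
      (B (s + (l : ℤ) ^ (d - m) * (-T1)))
      ((l : ℤ) ^ E * m1) ((l : ℤ) ^ E) (by omega) hNC hC0 hD0
      (hcopAC s _ (E + d + o) (hdet2 s)) (hdet2 s) ?_
    rw [one_mul]
    push_cast
    rw [hB2 s]
    have h2 : A s * (B s - (l : ℤ) ^ d * T1) - u =
        (A s * B s - u) - (l : ℤ) ^ m * (A s * ((l : ℤ) ^ (d - m) * T1)) := by
      rw [hdm]
      ring
    rw [h2]
    exact dvd_sub (hAB s) (dvd_mul_right _ _)
  have hDQ : (((l : ℤ) ^ E : ℤ) : ℚ) ≠ 0 := by exact_mod_cast hD0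
  have hper : ∀ s, H (s + (l : ℤ) ^ (E - m)) = H s := by
    intro s
    have h1 : B (s + (l : ℤ) ^ (E - m)) = B s + (l : ℤ) ^ E := by
      show u' + (s + (l : ℤ) ^ (E - m)) * (l : ℤ) ^ m = u' + s * (l : ℤ) ^ m + (l : ℤ) ^ E
      rw [hEm]
      ring
    show Tw (l ^ m) z W 1 ((B (s + (l : ℤ) ^ (E - m)) : ℚ) / (((l : ℤ) ^ E : ℤ) : ℚ)) = _
    rw [h1, Int.cast_add, add_div, div_self hDQ]
    have h2 := hTadd 1 1 ((B s : ℚ) / (((l : ℤ) ^ E : ℤ) : ℚ))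
    rw [Int.cast_one] at h2
    exact h2
  have hshift : ∀ s, H (s + (l : ℤ) ^ (E - 2 * m)) = z (-1) • H s := by
    intro s
    have h0 : (l : ℤ) ^ (E - m) = (l : ℤ) ^ (E - 2 * m) * (l : ℤ) ^ m := by
      rw [← pow_add]
      congr 1
      omega
    have h1 : B (s + (l : ℤ) ^ (E - 2 * m)) = B s + (l : ℤ) ^ (E - m) := by
      show u' + (s + (l : ℤ) ^ (E - 2 * m)) * (l : ℤ) ^ m =
        u' + s * (l : ℤ) ^ m + (l : ℤ) ^ (E - m)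
      rw [h0]
      ring
    show Tw (l ^ m) z W 1 ((B (s + (l : ℤ) ^ (E - 2 * m)) : ℚ) / (((l : ℤ) ^ E : ℤ) : ℚ)) = _
    have h2 : ((B (s + (l : ℤ) ^ (E - 2 * m)) : ℤ) : ℚ) / (((l : ℤ) ^ E : ℤ) : ℚ) =
        (B s : ℚ) / (((l : ℤ) ^ E : ℤ) : ℚ) + 1 / ((l ^ m : ℕ) : ℚ) := by
      rw [h1, Int.cast_add, add_div]
      congr 1
      push_cast
      rw [hEmQ]
      have h3 : (l : ℚ) ^ (E - m) ≠ 0 := pow_ne_zero _ hlQ
      have h4 : (l : ℚ) ^ m ≠ 0 := pow_ne_zero _ hlQ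
      field_simp
    rw [h2]
    exact hTsh 1 _
  have hunit : IsUnit (1 - z (-1)) := by
    apply hz.un
    intro hcon
    have h1 := Int.eq_one_of_dvd_one (by positivity) ((Int.dvd_neg).mp hcon)
    have h2 : l ^ m = 1 := by exact_mod_cast h1
    have h3 := Nat.one_lt_pow (by omega : m ≠ 0) hl.one_lt
    omega
  have hfin := hCST R M l (E - m) (d - m) (E - 2 * m) (-T1) (z (-1)) H hT0l (by omega) hunit hper
    (fun s => by rw [hedge2 s, hedge s]) hshift s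
  rw [← hfin]
  show _ = Tw (l ^ m) z W 1 ((B s : ℚ) / (((l : ℤ) ^ E : ℤ) : ℚ))
  congr 1
  show _ = ((u' + s * (l : ℤ) ^ m : ℤ) : ℚ) / (((l : ℤ) ^ E : ℤ) : ℚ)
  push_cast
  rfl

end Pool.Agent.TWR
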