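import Pool.Agent.TWR.St

/-!
# TWR, third file: all large levels (problem MP_b78433_nt, helper11)

The rigidity theorem for ALL large `n`: if the relations `StarAt` hold for infinitely many levels
(with any labels), they hold for all levels `E ≥ v + 2 m` and all labels.
-/

set_option autoImplicit false

namespace Pool.Agent.TWR

open Finset OnePoint

/-- LVK (120 lines). Proof = that of `KEY` with `δ = 1`, `β = 0`, where the constant `m1` is given.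
`q = l^m`, `B s = u' + s q`, `D = l^E`, `A s = m1 (B s) + l^d`, `C = l^E m1`:
`A s · D - B s · C = l^(E+d)`, `A s · B s ≡ m1 u'² ≡ u` modulo `q`; with `T = l^(d-m) (1 - l^o)/m1`:
`A s · D - B (s + T) · C = l^(E+d+o)`. `EDG` twice: `H (s + T) = H s`, `H s = Tw 1 (B s/D)`;
`H (s + l^(E-m)) = H s`, `H (s + l^(E-2m)) = z (-1) • H s`: `CST`. -/
def S_LVK : Prop := ∀ (R M : Type) [CommRing R] [AddCommGroup M] [Module R M] (l m : ℕ)
  (_ : l.Prime) (_ : 1 ≤ m) (z : ℤ → R) (_ : Chr (l ^ m) z) (N0 v : ℕ) (χ : ℤ → R) (W : ℚ → M)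
  (_ : QM (l ^ v * N0) χ W) (E d o : ℕ) (u u' m1 : ℤ) (_ : v + 2 * m ≤ E) (_ : m ≤ d)
  (_ : d + m ≤ E) (_ : 1 ≤ o) (_ : IsCoprime u (l : ℤ)) (_ : (N0 : ℤ) ∣ m1)
  (_ : ((l ^ m : ℕ) : ℤ) ∣ m1 * u' ^ 2 - u) (_ : m1 ∣ (l : ℤ) ^ o - 1)
  (_ : StarAt l m z W (E + d) u) (_ : StarAt l m z W (E + d + o) u),
  ∀ s : ℤ, Tw (l ^ m) z W 1 (((u' : ℚ) + s * (l : ℚ) ^ m) / (l : ℚ) ^ E) = 0

def M_LVK : Prop := S_TWP → S_EDG → S_CST → S_LVK

/-- FUL (150 lines). Proof. For each unit `κ` modulo `q = l^m` let `m1 κ = N0 w κ`, `N0 w ≡ 1` modulo `q`,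
and let `t* ≥ 1` be a multiple of the orders of `l` modulo all `m1 κ`. (1) If `n`, `n + o` have the same
label and `t* ∣ o`, `o ≥ 1`, then `W(c/l^E) = 0` for all `c` prime to `l` and `v + 2m ≤ E`, `E + m ≤ n`,
`n + m ≤ 2 E` (`LVK` for `z (e ·)`, `SUM`). (2) Then `E` has all labels. (3) Two levels with the same
label and congruent modulo `t*`, arbitrarily large (pigeonhole). (4) Descent: if `E ≥ v + 2m` and
`E + m`, `E + m + t*` have all labels then `E` has all labels ((1) with `n = E + m`). -/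
def S_FUL : Prop := ∀ (R M : Type) [CommRing R] [AddCommGroup M] [Module R M] (l m : ℕ)
  (_ : l.Prime) (_ : 1 ≤ m) (_ : IsUnit (l : R)) (z : ℤ → R) (_ : Chr (l ^ m) z) (N0 v : ℕ)
  (_ : N0 ≠ 0) (_ : IsCoprime (N0 : ℤ) (l : ℤ)) (χ : ℤ → R) (W : ℚ → M)
  (_ : QM (l ^ v * N0) χ W) (_ : ∀ x : ℚ, ∑ k ∈ range l, W (x + (k : ℚ) / l) = 0)
  (_ : ∀ n0 : ℕ, ∃ n ≥ n0, ∃ u : ℤ, IsCoprime u (l : ℤ) ∧ StarAt l m z W n u),
  ∀ E : ℕ, v + 2 * m ≤ E → ∀ u : ℤ, IsCoprime u (l : ℤ) → StarAt l m z W E u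

def M_FUL : Prop := S_TWP → S_SUM → S_LVK → S_FUL

end Pool.Agent.TWR
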