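import Pool.Agent.TWR.All

/-!
# TWR, third file: the rigidity theorem with bounded gaps (helper34)

`S_TW3`: as `S_TW2`, but the good `n` (all levels `n, …, n + a - 1` good for all symbols of the family and all
even characters of this conductor) occur with bounded gaps. So the set of good levels is thickly syndetic.

Proof: if the gaps are not bounded, then the bad `n` contain arbitrarily long intervals, and the
recurrence lemma `S_REC` only needs this (`S_RC3`).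
-/

set_option autoImplicit false

namespace Pool.Agent.TWR

open Finset OnePoint

/-- RC3: `REC` for intervals of arbitrary length in place of all large `n`. -/
def S_RC3 : Prop := ∀ (I U : Type) [Finite I] [Finite U] (T : ℕ → I → U → Prop) (a m K : ℕ),
  1 ≤ a → (∀ L, ∃ x, ∀ n, x ≤ n → n ≤ x + L → ∃ j < a, ∃ i u, T (n + j) i u) →
  ∃ (E d : ℕ) (i : I) (u u' : U), K ≤ E ∧ m ≤ d ∧ d + m ≤ E ∧ T E i u' ∧ T (E + d) i u ∧
    ∀ q, 1 ≤ q → ∃ o, 1 ≤ o ∧ q ∣ o ∧ T (E + d + o) i u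

namespace RC3Aux

/-- the sequence of pairs -/
def sq (nx : ℕ → ℕ → ℕ) (q : ℕ → ℕ) : ℕ → ℕ × ℕ
  | 0 => (nx 0 1, q (nx 0 1))
  | k + 1 => ((sq nx q k).1 + nx (sq nx q k).1 (sq nx q k).2,
      (sq nx q k).2 * q ((sq nx q k).1 + nx (sq nx q k).1 (sq nx q k).2))

/-- recurrence of a value on a set which meets all progressions -/
theorem recurD {α : Type} [Finite α] (f : ℕ → α) (D : ℕ → Prop)
    (hD : ∀ n Q, 1 ≤ Q → ∃ o, 1 ≤ o ∧ Q ∣ o ∧ D (n + o)) :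
    ∃ n, D n ∧ ∀ q, 1 ≤ q → ∃ o, 1 ≤ o ∧ q ∣ o ∧ D (n + o) ∧ f (n + o) = f n := by
  classical
  by_contra hcon
  push Not at hcon
  have h1 : ∀ n, ∃ q, 1 ≤ q ∧ (D n → ∀ o, 1 ≤ o → q ∣ o → D (n + o) → f (n + o) ≠ f n) := by
    intro n
    by_cases hn : D n
    · obtain ⟨q, hq1, hq2⟩ := hcon n hn
      exact ⟨q, hq1, fun _ => hq2⟩
    · exact ⟨1, le_rfl, fun h => absurd h hn⟩
  choose q hq1 hq2 using h1
  have h2 : ∀ n Q, ∃ o, 1 ≤ Q → 1 ≤ o ∧ Q ∣ o ∧ D (n + o) := by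
    intro n Q
    by_cases hQ : 1 ≤ Q
    · obtain ⟨o, ho⟩ := hD n Q hQ
      exact ⟨o, fun _ => ho⟩
    · exact ⟨0, fun h => absurd h hQ⟩
  choose nx hnx using h2
  have hge : ∀ k, D (sq nx q k).1 ∧ 1 ≤ (sq nx q k).2 ∧ q (sq nx q k).1 ∣ (sq nx q k).2 := by
    intro k
    induction k with
    | zero =>
      have := hnx 0 1 le_rfl
      rw [zero_add] at this
      exact ⟨this.2.2, hq1 _, dvd_refl _⟩
    | succ k ih =>
      obtain ⟨h3, h4, h5⟩ := ih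
      refine ⟨(hnx _ _ h4).2.2, ?_, ?_⟩
      · show 1 ≤ (sq nx q k).2 * q ((sq nx q k).1 + nx (sq nx q k).1 (sq nx q k).2)
        exact Nat.mul_pos h4 (hq1 _)
      · show q ((sq nx q k).1 + nx (sq nx q k).1 (sq nx q k).2) ∣
          (sq nx q k).2 * q ((sq nx q k).1 + nx (sq nx q k).1 (sq nx q k).2)
        exact dvd_mul_left _ _
  have hlt : ∀ i t, ∃ o, 1 ≤ o ∧ (sq nx q i).2 ∣ o ∧
      (sq nx q (i + 1 + t)).1 = (sq nx q i).1 + o ∧
      (sq nx q i).2 ∣ (sq nx q (i + 1 + t)).2 := by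
    intro i t
    induction t with
    | zero =>
      refine ⟨nx (sq nx q i).1 (sq nx q i).2, (hnx _ _ (hge i).2.1).1,
        (hnx _ _ (hge i).2.1).2.1, rfl, ?_⟩
      show (sq nx q i).2 ∣ (sq nx q i).2 * q ((sq nx q i).1 + nx (sq nx q i).1 (sq nx q i).2)
      exact dvd_mul_right _ _
    | succ t ih =>
      obtain ⟨o, h3, h4, h5, h6⟩ := ih
      have h7 := hnx (sq nx q (i + 1 + t)).1 (sq nx q (i + 1 + t)).2 (hge _).2.1
      refine ⟨o + nx (sq nx q (i + 1 + t)).1 (sq nx q (i + 1 + t)).2, by omega,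
        dvd_add h4 (h6.trans h7.2.1), ?_, ?_⟩
      · show (sq nx q (i + 1 + t)).1 + nx (sq nx q (i + 1 + t)).1 (sq nx q (i + 1 + t)).2 = _
        rw [h5]; ring
      · show (sq nx q i).2 ∣ (sq nx q (i + 1 + t)).2 *
          q ((sq nx q (i + 1 + t)).1 + nx (sq nx q (i + 1 + t)).1 (sq nx q (i + 1 + t)).2)
        exact dvd_mul_of_dvd_left h6 _
  have hne : ∀ i j, i < j → f (sq nx q j).1 ≠ f (sq nx q i).1 := by
    intro i j hij
    obtain ⟨t, rfl⟩ := Nat.exists_eq_add_of_lt hij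
    obtain ⟨o, ho1, ho2, ho3, -⟩ := hlt i t
    have he : i + t + 1 = i + 1 + t := by ring
    rw [he, ho3]
    refine hq2 _ (hge i).1 o ho1 (dvd_trans (hge i).2.2 ho2) ?_
    rw [← ho3]
    exact (hge _).1
  have hinj : Function.Injective (fun k => f (sq nx q k).1) := by
    intro i j hij
    rcases lt_trichotomy i j with h | h | h
    · exact absurd hij.symm (hne i j h)
    · exact h
    · exact absurd hij (hne j i h)
  exact not_injective_infinite_finite _ hinj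

end RC3Aux

open RC3Aux in
theorem t_RC3 : S_RC3 := by
  intro I U _ _ T a m K ha hT
  classical
  have := Fintype.ofFinite I
  have := Fintype.ofFinite U
  obtain ⟨w, hw⟩ : ∃ w, w = m + a := ⟨_, rfl⟩
  obtain ⟨s, hs⟩ : ∃ s, s = Fintype.card I := ⟨_, rfl⟩
  obtain ⟨B, hB⟩ : ∃ B, B = s * w + a + 1 := ⟨_, rfl⟩
  obtain ⟨K', hK'⟩ : ∃ K', K' = K + m + B := ⟨_, rfl⟩
  -- the thick set
  let D : ℕ → Prop := fun x => K' ≤ x ∧ ∀ n, x ≤ n → n ≤ x + s * w → ∃ j < a, ∃ i u, T (n + j) i u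
  have hD : ∀ n Q, 1 ≤ Q → ∃ o, 1 ≤ o ∧ Q ∣ o ∧ D (n + o) := by
    intro n Q hQ
    obtain ⟨x, hx⟩ := hT (n + K' + Q + s * w)
    -- the least multiple of Q beyond
    obtain ⟨y, hy⟩ : ∃ y, y = x + n + K' - n := ⟨_, rfl⟩
    have hy' : y = x + K' := by omega
    have h1 := Nat.div_add_mod y Q
    have h2 := Nat.mod_lt y (show 0 < Q by omega)
    refine ⟨Q * (y / Q + 1), ?_, dvd_mul_right _ _, ?_, ?_⟩
    · exact Nat.mul_pos (by omega) (Nat.succ_pos _)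
    · have : Q * (y / Q + 1) = Q * (y / Q) + Q := by ring
      omega
    · intro n' hn1 hn2
      have h3 : Q * (y / Q + 1) = Q * (y / Q) + Q := by ring
      apply hx n'
      · omega
      · omega
  have hlab : ∀ x : ℕ, D x → ∃ l : I × U × U × Fin B × Fin B,
      T (x + l.2.2.2.1) l.1 l.2.2.1 ∧
      T (x + l.2.2.2.1 + l.2.2.2.2) l.1 l.2.1 ∧ m ≤ (l.2.2.2.2 : ℕ) := by
    intro x hx
    have h1 : ∀ k : Fin (s + 1), ∃ j < a, ∃ i u, T (x + k * w + j) i u := by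
      intro k
      have hk : (k : ℕ) * w ≤ s * w := Nat.mul_le_mul_right _ (by have := k.isLt; omega)
      exact hx.2 (x + k * w) (by omega) (by omega)
    choose j hj i u hiu using h1
    obtain ⟨k1, k2, hne, hi⟩ := Fintype.exists_ne_map_eq_of_card_lt i (by
      rw [Fintype.card_fin]; omega)
    have key : ∀ k1 k2 : Fin (s + 1), k1 < k2 → i k1 = i k2 →
        ∃ l : I × U × U × Fin B × Fin B,
          T (x + l.2.2.2.1) l.1 l.2.2.1 ∧
          T (x + l.2.2.2.1 + l.2.2.2.2) l.1 l.2.1 ∧ m ≤ (l.2.2.2.2 : ℕ) := by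
      intro k1 k2 hlt hi
      have hlt' : (k1 : ℕ) < (k2 : ℕ) := hlt
      obtain ⟨t, ht⟩ := Nat.exists_eq_add_of_lt hlt'
      have hk2 : (k2 : ℕ) * w = k1 * w + t * w + w := by rw [ht]; ring
      have hk2s : (k2 : ℕ) * w ≤ s * w := Nat.mul_le_mul_right _ (by have := k2.isLt; omega)
      have hj1 := hj k1
      have hj2 := hj k2
      have b1 : (k1 : ℕ) * w + j k1 < B := by omega
      have b2 : t * w + w + j k2 - j k1 < B := by omega
      have hd : m ≤ t * w + w + j k2 - j k1 := by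
        have : 0 ≤ t * w := Nat.zero_le _
        omega
      refine ⟨(i k1, u k2, u k1, ⟨_, b1⟩, ⟨_, b2⟩), ?_, ?_, hd⟩
      · have := hiu k1
        show T (x + (k1 * w + j k1)) (i k1) (u k1)
        rw [← add_assoc]; exact this
      · have := hiu k2
        show T (x + (k1 * w + j k1) + (t * w + w + j k2 - j k1)) (i k1) (u k2)
        rw [hi]
        have e1 : x + (k1 * w + j k1) + (t * w + w + j k2 - j k1) =
            x + k2 * w + j k2 := by omega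
        rw [e1]; exact this
    rcases lt_or_gt_of_ne hne with h | h
    · exact key k1 k2 h hi
    · exact key k2 k1 h hi.symm
  let f : ℕ → Option (I × U × U × Fin B × Fin B) := fun x =>
    if h : D x then Option.some (hlab x h).choose else Option.none
  obtain ⟨n, hDn, hn⟩ := recurD f D hD
  have hfn : f n = Option.some (hlab n hDn).choose := dif_pos hDn
  have hspec := (hlab n hDn).choose_spec
  obtain ⟨l, hl⟩ : ∃ l, l = (hlab n hDn).choose := ⟨_, rfl⟩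
  rw [← hl] at hfn hspec
  have hc : ((l.2.2.2.2 : Fin B) : ℕ) < B := l.2.2.2.2.isLt
  have hnK : K' ≤ n := hDn.1
  refine ⟨n + l.2.2.2.1, l.2.2.2.2, l.1, l.2.1, l.2.2.1, by omega,
    hspec.2.2, by omega, hspec.1, hspec.2.1, ?_⟩
  intro q hq
  obtain ⟨o, ho1, ho2, ho3, ho4⟩ := hn q hq
  refine ⟨o, ho1, ho2, ?_⟩
  have h5 : f (n + o) = Option.some (hlab (n + o) ho3).choose := dif_pos ho3
  have h6 := (hlab (n + o) ho3).choose_spec
  rw [ho4, hfn] at h5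
  have h7 := Option.some.inj h5
  rw [← h7] at h6
  have e1 : n + (l.2.2.2.1 : ℕ) + (l.2.2.2.2 : ℕ) + o =
      n + o + (l.2.2.2.1 : ℕ) + (l.2.2.2.2 : ℕ) := by ring
  rw [e1]; exact h6.2.1

/-- TW3: the rigidity theorem with bounded gaps. -/
def S_TW3 : Prop := ∀ (l g h : ℕ) (_ : Gen l g h) (V : ValuationSubring ℂ) (p : ℕ) (_ : p.Prime)
  (_ : 5 ≤ p) (_ : V.valuation (p : ℂ) < 1) (I : Type) [Finite I] (N : ℕ) (_ : N ≠ 0)
  (nu : I → ℤ → ℂ)
  (_ : ∀ i d, V.valuation (nu i d) ≤ 1) (_ : ∀ i, nu i 1 = 1)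
  (_ : ∀ i (d d' : ℤ), (N : ℤ) ∣ d - d' → nu i d = nu i d') (_ : ∀ i d, IsAlgebraic ℚ (nu i d))
  (P : I → OnePoint ℚ → OnePoint ℚ → ℂ) (_ : ∀ i, _root_.MU3.IsSym N (nu i) (P i))
  (_ : ∀ i (x : ℚ), IsAlgebraic ℚ (P i ∞ (x : OnePoint ℚ)))
  (_ : ∀ i (x : ℚ), P i ∞ ((-x : ℚ) : OnePoint ℚ) = P i ∞ (x : OnePoint ℚ))
  (_ : ∀ i (x : ℚ), ∑ k ∈ range l, P i ∞ ((x + (k : ℚ) / l : ℚ) : OnePoint ℚ) = 0)
  (_ : ∀ i (N' : ℕ), N' ≠ 0 → N ∣ N' → ∃ a b c d : ℤ, a * d - b * c = 1 ∧ (N' : ℤ) ∣ c ∧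
    (N' : ℤ) ∣ d - 1 ∧ 1 ≤ V.valuation (P i ∞ (Pool.Agent.MuSym.mob a b c d ∞)))
  (a : ℕ) (_ : 1 ≤ a), ∃ C : ℕ, ∀ n0 : ℕ, ∃ n, n0 ≤ n ∧ n ≤ n0 + C ∧ ∀ j < a, ∀ i,
    ∀ ψ : DirichletCharacter ℂ (l ^ (n + j)), ψ (-1) = 1 →
      ψ (1 + (l : ZMod (l ^ (n + j))) ^ (n + j - 1)) ≠ 1 →
      1 ≤ V.valuation (∑ b ∈ range (l ^ (n + j)),
        ψ b * P i ∞ (((b : ℚ) / (l : ℚ) ^ (n + j) : ℚ) : OnePoint ℚ))

open TWRAux in
theorem m_TW3 (hREC : S_RC3) (hMOD : S_MOD) (hFRB : S_FRB) (hSTA : S_STA) (hZCH : S_ZCH)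
    (hNFV : S_NFV) : S_TW3 := by
  intro l g h hG V p hp hp5 hvp I _ N hN nu hnu1 hnu2 hnu3 hnu4 P hsym
    hPa hPe hPd hND a ha
  choose K' hK1 hK2 using fun i => hNFV N hN (nu i) (hnu3 i) (hnu4 i) (P i) (hsym i) (hPa i)
  obtain ⟨K, hKdef⟩ : ∃ K : IntermediateField ℚ ℂ, K = ⨆ i, K' i := ⟨_, rfl⟩
  have hK : FiniteDimensional ℚ K := by
    rw [hKdef]
    have := hK1
    exact IntermediateField.finiteDimensional_iSup_of_finite
  have hPK : ∀ i (x : ℚ), P i ∞ (x : OnePoint ℚ) ∈ K := by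
    intro i x
    rw [hKdef]
    exact (le_iSup K' i) (hK2 i x)
  classical
  by_contra hcon
  push Not at hcon
  have hl : l.Prime := by rcases hG with ⟨rfl, _, _⟩ | ⟨rfl, _, _⟩ <;> norm_num
  have hl24 : l ∣ 24 := by rcases hG with ⟨rfl, _, _⟩ | ⟨rfl, _, _⟩ <;> norm_num
  have hlp : l < p := by rcases hG with ⟨rfl, _, _⟩ | ⟨rfl, _, _⟩ <;> omega
  have hcop : ∀ n : ℕ, 0 < n → n < p → V.valuation (n : ℂ) = 1 := by
    intro n h0 h1
    refine val_cop V p hvp n ?_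
    rw [Nat.isCoprime_iff_coprime]
    exact Nat.Coprime.symm ((Nat.Prime.coprime_iff_not_dvd hp).2 (fun hd => by
      have := Nat.le_of_dvd h0 hd
      omega))
  have hvl : V.valuation (l : ℂ) = 1 := hcop l hl.pos hlp
  have hv2 : V.valuation (2 : ℂ) = 1 := by
    have := hcop 2 (by norm_num) (by omega)
    simpa using this
  obtain ⟨q, hq1, hq24, hfr⟩ := hFRB V p hp hp5 hvp K hK
  have hq0 : q - 1 ≠ 0 := by omega
  have hlu : IsUnit (l : V) := by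
    have h1 : V.valuation ((l : V) : ℂ) = 1 := by
      have h2 : ((l : V) : ℂ) = (l : ℂ) := by push_cast; rfl
      rw [h2, hvl]
    exact (V.valuation_eq_one_iff _).2 h1
  -- the exponent
  obtain ⟨m, hm1, hm2⟩ : ∃ m, l ^ m ∣ q - 1 ∧ ¬ l ^ (m + 1) ∣ q - 1 := by
    have : Fact l.Prime := ⟨hl⟩
    exact ⟨padicValNat l (q - 1), pow_padicValNat_dvd, pow_succ_padicValNat_not_dvd hq0⟩
  have hmpos : 1 ≤ m := by
    by_contra hc
    have : m = 0 := by omega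
    subst this
    exact hm2 (by simpa using hl24.trans hq24)
  have hm22 : l = 2 → 2 ≤ m := by
    intro h2
    subst h2
    by_contra hc
    have : m = 1 := by omega
    subst this
    exact hm2 (Dvd.dvd.trans (by norm_num) hq24)
  obtain ⟨z, hz, hzexp⟩ := hZCH V l m hl hvl
  -- symbols
  have hsymE : ∀ (i : I) (a b c d : ℤ), a * d - b * c = 1 → (N : ℤ) ∣ c → c ≠ 0 → ∀ x : ℚ,
      (c : ℚ) * x + d ≠ 0 → P i ∞ (((a * x + b) / (c * x + d) : ℚ) : OnePoint ℚ) =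
        P i ∞ (((a : ℚ) / c : ℚ) : OnePoint ℚ) + nu i d * P i ∞ (x : OnePoint ℚ) := by
    intro i a b c d hdet hc hc0 x hx
    have h1 := (hsym i).equiv a b c d hdet hc ∞ (x : OnePoint ℚ)
    have h2 : Pool.Agent.MuSym.mob a b c d ∞ = (((a : ℚ) / c : ℚ) : OnePoint ℚ) := by
      simp [Pool.Agent.MuSym.mob, hc0]
    have h3 : Pool.Agent.MuSym.mob a b c d (x : OnePoint ℚ) =
        (((a * x + b) / (c * x + d) : ℚ) : OnePoint ℚ) := by
      simp [Pool.Agent.MuSym.mob, hx]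
    rw [h2, h3] at h1
    rw [← h1, (hsym i).add]
  have hper : ∀ (i : I) (x : ℚ), P i ∞ ((x + 1 : ℚ) : OnePoint ℚ) = P i ∞ (x : OnePoint ℚ) := by
    intro i x
    have h1 := (hsym i).equiv 1 1 0 1 (by norm_num) (by simp) ∞ (x : OnePoint ℚ)
    have h2 : Pool.Agent.MuSym.mob 1 1 0 1 ∞ = ∞ := by
      simp [Pool.Agent.MuSym.mob]
    have h3 : Pool.Agent.MuSym.mob 1 1 0 1 (x : OnePoint ℚ) = ((x + 1 : ℚ) : OnePoint ℚ) := by
      simp [Pool.Agent.MuSym.mob]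
    rw [h2, h3, hnu2, one_mul] at h1
    exact h1
  have hinf : ∀ i : I, P i ∞ ∞ = 0 := by
    intro i
    have h1 := (hsym i).add ∞ ∞ ∞
    simpa using h1
  let W : I → ℚ → (ℂ ⧸ small V) := fun i x => (small V).mkQ (P i ∞ (x : OnePoint ℚ))
  have hsmul : ∀ (r : V) (x : ℂ), r • (small V).mkQ x = (small V).mkQ ((r : ℂ) * x) := by
    intro r x
    rw [← _root_.map_smul]
    rfl
  let chi : I → ℤ → V := fun i d => ⟨nu i d, (V.valuation_le_one_iff _).1 (hnu1 i d)⟩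
  obtain ⟨v, N0, hN0, hNeq⟩ : ∃ v N0 : ℕ, ¬ l ∣ N0 ∧ N = l ^ v * N0 :=
    Nat.exists_eq_pow_mul_and_not_dvd hN l hl.ne_one
  have hN00 : N0 ≠ 0 := by rintro rfl; exact hN0 (dvd_zero _)
  have hN0c : IsCoprime (N0 : ℤ) (l : ℤ) := by
    rw [Nat.isCoprime_iff_coprime]
    exact ((Nat.Prime.coprime_iff_not_dvd hl).2 hN0).symm
  have hQM : ∀ i : I, QM (l ^ v * N0) (chi i) (W i) := by
    intro i
    refine ⟨?_, ?_, ?_, ?_⟩
    · intro x
      change (small V).mkQ _ = (small V).mkQ _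
      rw [hper]
    · apply Subtype.ext
      exact hnu2 i
    · intro d d' hd
      apply Subtype.ext
      exact hnu3 i d d' (by rw [hNeq]; exact hd)
    · intro a b c d hdet hc hc0 x hx
      change (small V).mkQ _ = (small V).mkQ _ + chi i d • (small V).mkQ _
      rw [hsmul, ← map_add, hsymE i a b c d hdet (by rw [hNeq]; exact hc) hc0 x hx]
  have hdep : ∀ (i : I) (x : ℚ), ∑ k ∈ range l, W i (x + (k : ℚ) / l) = 0 := by
    intro i x
    change ∑ k ∈ range l, (small V).mkQ _ = 0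
    rw [← map_sum, hPd, map_zero]
  -- the relations
  have hStar : ∀ L, ∃ x, ∀ n, x ≤ n → n ≤ x + L → ∃ j < a, ∃ (i : I) (u : Fin (l ^ m)),
      (IsCoprime ((u : ℕ) : ℤ) (l : ℤ) ∧ StarAt l m z (W i) (n + j) ((u : ℕ) : ℤ)) := by
    intro L
    obtain ⟨n0, hn0⟩ := hcon (2 * m + h + 1 + L)
    refine ⟨n0 + 2 * m + h + 1, fun n hn hn' => ?_⟩
    obtain ⟨j, hj, i, ψ, hψ1, hψ2, hψ3⟩ := hn0 n (by omega) (by omega)
    refine ⟨j, hj, i, ?_⟩
    obtain ⟨r, hr⟩ : ∃ r, n + j = m + r + h := ⟨n + j - m - h, by omega⟩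
    have hr1 : 1 ≤ r := by omega
    have hrm : m ≤ r + h := by omega
    revert ψ
    rw [hr]
    intro ψ hψ1 hψ2 hψ3
    obtain ⟨u, hu1, hu2, hu3, hu4⟩ := hSTA V l g h m r q hG hmpos hm22 hr1 hrm hm1 hm2 (by omega)
      hvl hv2 K (by
        intro ξ hξ x hx
        have hnp : ¬ p ∣ l ^ (m + r) := by
          intro hd
          have := (Nat.prime_dvd_prime_iff_eq hp hl).1 (hp.dvd_of_dvd_pow hd)
          omega
        exact hfr (l ^ (m + r)) (pow_ne_zero _ hl.ne_zero) hnp ξ hξ x hx)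
      (fun x => P i ∞ (x : OnePoint ℚ)) (hper i) (hPe i) (hPK i) ψ hψ1 hψ2 hψ3
    obtain ⟨w, rfl⟩ := Int.eq_ofNat_of_zero_le hu2
    have hw : w < l ^ m := by exact_mod_cast hu3
    refine ⟨⟨w, hw⟩, hu1, ?_⟩
    intro c e hce
    have h1 := hu4 c e hce
    change ∑ j ∈ range (l ^ m), z (e * j) • (small V).mkQ _ = 0
    simp only [hsmul]
    rw [← map_sum, ← LinearMap.mem_ker, Submodule.ker_mkQ, mem_small]
    simp only [hzexp]
    exact h1
  obtain ⟨E, d, i, u, u', hE, hmd, hdm, hTE, hTEd, hrec⟩ := hREC I (Fin (l ^ m))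
    (fun n i u => IsCoprime ((u : ℕ) : ℤ) (l : ℤ) ∧ StarAt l m z (W i) n ((u : ℕ) : ℤ))
    a m (v + 2 * m) ha hStar
  have hfin := hMOD V (ℂ ⧸ small V) l m hl hmpos hlu z hz N0 v hN00 hN0c (chi i) (W i) (hQM i)
    (hdep i) E d ((u : ℕ) : ℤ) ((u' : ℕ) : ℤ) hE hmd hdm hTEd.1 hTE.1 hTE.2 hTEd.2 (by
      intro t ht
      obtain ⟨o, ho1, ho2, ho3⟩ := hrec t ht
      exact ⟨o, ho1, ho2, ho3.2⟩)
  obtain ⟨a1, b1, c1, d1, hdet, hc1, hd1, hval⟩ := hND i (l ^ (E + m) * (l ^ v * N0))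
    (by
      have := pow_ne_zero (E + m) hl.ne_zero
      have := pow_ne_zero v hl.ne_zero
      positivity) (by rw [hNeq]; exact Dvd.intro_left _ rfl)
  rcases eq_or_ne c1 0 with h0 | h0
  · have h2 : Pool.Agent.MuSym.mob a1 b1 c1 d1 ∞ = ∞ := by
      simp [Pool.Agent.MuSym.mob, h0]
    rw [h2, hinf, map_zero] at hval
    simp at hval
  · have h2 : Pool.Agent.MuSym.mob a1 b1 c1 d1 ∞ = (((a1 : ℚ) / c1 : ℚ) : OnePoint ℚ) := by
      simp [Pool.Agent.MuSym.mob, h0]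
    rw [h2] at hval
    have h3 := hfin a1 b1 c1 d1 hdet hc1 hd1 h0
    change (small V).mkQ _ = 0 at h3
    rw [← LinearMap.mem_ker, Submodule.ker_mkQ, mem_small] at h3
    exact absurd h3 (not_lt.2 hval)


theorem a_TW3 : S_TW3 :=
  have hE : S_EQV := t_EQV t_TWPb
  have hK : S_KEY := t_KEY t_TWPb (t_EDG hE) t_CRT t_CST
  have hC : S_CLO := t_CLO t_TWPb hE hK
  have hM : S_MOD := t_MOD t_TWPb hC (t_SUM t_TWPb)
  m_TW3 t_RC3 hM t_FRB (t_STA t_GPW (t_TRS t_TRI)) t_ZCH t_NFV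

end Pool.Agent.TWR
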