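import Pool.Agent.TWR.K4

/-!
# TWR, fourth file: the rigidity theorem for ALL large levels (helper11, helper22, helper34)

`S_TW4`: as `S_TW3`, but ALL levels `n ≥ n0` are good, for all symbols of the family and all even characters
of conductor `l^n`.

Proof (helper11). If infinitely many levels are bad, then one symbol `i` has the same label `u` at two bad
levels `n`, `n + o`, with `n` as large as we like and `t ∣ o` for the fixed `t` of `S_FUL4`; so all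
levels between `(n + m)/2` and `n - m` are fully bad (`S_FUL4`), and then, going down, all levels between
`v + 2m` and `n - m` (`descent`). So all levels `≥ v + 2m` are fully bad, against `S_MOD`.
-/

set_option autoImplicit false

namespace Pool.Agent.TWR

open Finset OnePoint Q4

/-- TW4: the rigidity theorem for all large levels. -/
def S_TW4 : Prop := ∀ (l g h : ℕ) (_ : Gen l g h) (V : ValuationSubring ℂ) (p : ℕ) (_ : p.Prime)
  (_ : 5 ≤ p) (_ : V.valuation (p : ℂ) < 1) (I : Type) [Finite I] (N : ℕ) (_ : N ≠ 0)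
  (nu : I → ℤ → ℂ)
  (_ : ∀ i d, V.valuation (nu i d) ≤ 1) (_ : ∀ i, nu i 1 = 1)
  (_ : ∀ i (d d' : ℤ), (N : ℤ) ∣ d - d' → nu i d = nu i d') (_ : ∀ i d, IsAlgebraic ℚ (nu i d))
  (P : I → OnePoint ℚ → OnePoint ℚ → ℂ) (_ : ∀ i, _root_.MU3.IsSym N (nu i) (P i))
  (_ : ∀ i (x : ℚ), IsAlgebraic ℚ (P i ∞ (x : OnePoint ℚ)))
  (_ : ∀ i (x : ℚ), P i ∞ ((-x : ℚ) : OnePoint ℚ) = P i ∞ (x : OnePoint ℚ))
  (_ : ∀ i (x : ℚ), ∑ k ∈ range l, P i ∞ ((x + (k : ℚ) / l : ℚ) : OnePoint ℚ) = 0)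
  (_ : ∀ i (N' : ℕ), N' ≠ 0 → N ∣ N' → ∃ a b c d : ℤ, a * d - b * c = 1 ∧ (N' : ℤ) ∣ c ∧
    (N' : ℤ) ∣ d - 1 ∧ 1 ≤ V.valuation (P i ∞ (Pool.Agent.MuSym.mob a b c d ∞))),
  ∃ n0 : ℕ, ∀ n, n0 ≤ n → ∀ i,
    ∀ ψ : DirichletCharacter ℂ (l ^ n), ψ (-1) = 1 →
      ψ (1 + (l : ZMod (l ^ n)) ^ (n - 1)) ≠ 1 →
      1 ≤ V.valuation (∑ b ∈ range (l ^ n),
        ψ b * P i ∞ (((b : ℚ) / (l : ℚ) ^ n : ℚ) : OnePoint ℚ))

open TWRAux in
theorem m_TW4 (hFUL : S_FUL4) (hMOD : S_MOD) (hFRB : S_FRB) (hSTA : S_STA) (hZCH : S_ZCH)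
    (hNFV : S_NFV) : S_TW4 := by
  intro l g h hG V p hp hp5 hvp I _ N hN nu hnu1 hnu2 hnu3 hnu4 P hsym
    hPa hPe hPd hND
  choose K' hK1 hK2 using fun i => hNFV N hN (nu i) (hnu3 i) (hnu4 i) (P i) (hsym i) (hPa i)
  obtain ⟨K, hKdef⟩ : ∃ K : IntermediateField ℚ ℂ, K = ⨆ i, K' i := ⟨_, rfl⟩
  have hK : FiniteDimensional ℚ K := by
    rw [hKdef]
    have := hK1
    exact IntermediateField.finiteDimensional_iSup_of_finite
  have hPK : ∀ i (x : ℚ), P i ∞ (x : OnePoint ℚ) ∈ K := by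
    intro i x
    rw [hKdef]
    exact (le_iSup K' i) (hK2 i x)
  classical
  by_contra hcon
  push Not at hcon
  have hl : l.Prime := by rcases hG with ⟨rfl, _, _⟩ | ⟨rfl, _, _⟩ <;> norm_num
  have hl24 : l ∣ 24 := by rcases hG with ⟨rfl, _, _⟩ | ⟨rfl, _, _⟩ <;> norm_num
  have hlp : l < p := by rcases hG with ⟨rfl, _, _⟩ | ⟨rfl, _, _⟩ <;> omega
  have hcop : ∀ n : ℕ, 0 < n → n < p → V.valuation (n : ℂ) = 1 := by
    intro n h0 h1
    refine val_cop V p hvp n ?_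
    rw [Nat.isCoprime_iff_coprime]
    exact Nat.Coprime.symm ((Nat.Prime.coprime_iff_not_dvd hp).2 (fun hd => by
      have := Nat.le_of_dvd h0 hd
      omega))
  have hvl : V.valuation (l : ℂ) = 1 := hcop l hl.pos hlp
  have hv2 : V.valuation (2 : ℂ) = 1 := by
    have := hcop 2 (by norm_num) (by omega)
    simpa using this
  obtain ⟨q, hq1, hq24, hfr⟩ := hFRB V p hp hp5 hvp K hK
  have hq0 : q - 1 ≠ 0 := by omega
  have hlu : IsUnit (l : V) := by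
    have h1 : V.valuation ((l : V) : ℂ) = 1 := by
      have h2 : ((l : V) : ℂ) = (l : ℂ) := by push_cast; rfl
      rw [h2, hvl]
    exact (V.valuation_eq_one_iff _).2 h1
  -- the exponent
  obtain ⟨m, hm1, hm2⟩ : ∃ m, l ^ m ∣ q - 1 ∧ ¬ l ^ (m + 1) ∣ q - 1 := by
    have : Fact l.Prime := ⟨hl⟩
    exact ⟨padicValNat l (q - 1), pow_padicValNat_dvd, pow_succ_padicValNat_not_dvd hq0⟩
  have hmpos : 1 ≤ m := by
    by_contra hc
    have : m = 0 := by omega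
    subst this
    exact hm2 (by simpa using hl24.trans hq24)
  have hm22 : l = 2 → 2 ≤ m := by
    intro h2
    subst h2
    by_contra hc
    have : m = 1 := by omega
    subst this
    exact hm2 (Dvd.dvd.trans (by norm_num) hq24)
  obtain ⟨z, hz, hzexp⟩ := hZCH V l m hl hvl
  -- symbols
  have hsymE : ∀ (i : I) (a b c d : ℤ), a * d - b * c = 1 → (N : ℤ) ∣ c → c ≠ 0 → ∀ x : ℚ,
      (c : ℚ) * x + d ≠ 0 → P i ∞ (((a * x + b) / (c * x + d) : ℚ) : OnePoint ℚ) =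
        P i ∞ (((a : ℚ) / c : ℚ) : OnePoint ℚ) + nu i d * P i ∞ (x : OnePoint ℚ) := by
    intro i a b c d hdet hc hc0 x hx
    have h1 := (hsym i).equiv a b c d hdet hc ∞ (x : OnePoint ℚ)
    have h2 : Pool.Agent.MuSym.mob a b c d ∞ = (((a : ℚ) / c : ℚ) : OnePoint ℚ) := by
      simp [Pool.Agent.MuSym.mob, hc0]
    have h3 : Pool.Agent.MuSym.mob a b c d (x : OnePoint ℚ) =
        (((a * x + b) / (c * x + d) : ℚ) : OnePoint ℚ) := by
      simp [Pool.Agent.MuSym.mob, hx]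
    rw [h2, h3] at h1
    rw [← h1, (hsym i).add]
  have hper : ∀ (i : I) (x : ℚ), P i ∞ ((x + 1 : ℚ) : OnePoint ℚ) = P i ∞ (x : OnePoint ℚ) := by
    intro i x
    have h1 := (hsym i).equiv 1 1 0 1 (by norm_num) (by simp) ∞ (x : OnePoint ℚ)
    have h2 : Pool.Agent.MuSym.mob 1 1 0 1 ∞ = ∞ := by
      simp [Pool.Agent.MuSym.mob]
    have h3 : Pool.Agent.MuSym.mob 1 1 0 1 (x : OnePoint ℚ) = ((x + 1 : ℚ) : OnePoint ℚ) := by
      simp [Pool.Agent.MuSym.mob]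
    rw [h2, h3, hnu2, one_mul] at h1
    exact h1
  have hinf : ∀ i : I, P i ∞ ∞ = 0 := by
    intro i
    have h1 := (hsym i).add ∞ ∞ ∞
    simpa using h1
  let W : I → ℚ → (ℂ ⧸ small V) := fun i x => (small V).mkQ (P i ∞ (x : OnePoint ℚ))
  have hsmul : ∀ (r : V) (x : ℂ), r • (small V).mkQ x = (small V).mkQ ((r : ℂ) * x) := by
    intro r x
    rw [← _root_.map_smul]
    rfl
  let chi : I → ℤ → V := fun i d => ⟨nu i d, (V.valuation_le_one_iff _).1 (hnu1 i d)⟩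
  obtain ⟨v, N0, hN0, hNeq⟩ : ∃ v N0 : ℕ, ¬ l ∣ N0 ∧ N = l ^ v * N0 :=
    Nat.exists_eq_pow_mul_and_not_dvd hN l hl.ne_one
  have hN00 : N0 ≠ 0 := by rintro rfl; exact hN0 (dvd_zero _)
  have hN0c : IsCoprime (N0 : ℤ) (l : ℤ) := by
    rw [Nat.isCoprime_iff_coprime]
    exact ((Nat.Prime.coprime_iff_not_dvd hl).2 hN0).symm
  have hQM : ∀ i : I, QM (l ^ v * N0) (chi i) (W i) := by
    intro i
    refine ⟨?_, ?_, ?_, ?_⟩
    · intro x
      change (small V).mkQ _ = (small V).mkQ _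
      rw [hper]
    · apply Subtype.ext
      exact hnu2 i
    · intro d d' hd
      apply Subtype.ext
      exact hnu3 i d d' (by rw [hNeq]; exact hd)
    · intro a b c d hdet hc hc0 x hx
      change (small V).mkQ _ = (small V).mkQ _ + chi i d • (small V).mkQ _
      rw [hsmul, ← map_add, hsymE i a b c d hdet (by rw [hNeq]; exact hc) hc0 x hx]
  have hdep : ∀ (i : I) (x : ℚ), ∑ k ∈ range l, W i (x + (k : ℚ) / l) = 0 := by
    intro i x
    change ∑ k ∈ range l, (small V).mkQ _ = 0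
    rw [← map_sum, hPd, map_zero]
  obtain ⟨t, ht1, ht⟩ := hFUL l m N0 hl hmpos hN00 hN0c
  -- the relations
  have hStar : ∀ n0, ∃ n, n0 ≤ n ∧ ∃ (i : I) (u : Fin (l ^ m)),
      (IsCoprime ((u : ℕ) : ℤ) (l : ℤ) ∧ StarAt l m z (W i) n ((u : ℕ) : ℤ)) := by
    intro n0
    obtain ⟨n, hn, i, ψ, hψ1, hψ2, hψ3⟩ := hcon (n0 + 2 * m + h + 1)
    refine ⟨n, by omega, i, ?_⟩
    obtain ⟨r, hr⟩ : ∃ r, n = m + r + h := ⟨n - m - h, by omega⟩
    have hr1 : 1 ≤ r := by omega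
    have hrm : m ≤ r + h := by omega
    revert ψ
    rw [hr]
    intro ψ hψ1 hψ2 hψ3
    obtain ⟨u, hu1, hu2, hu3, hu4⟩ := hSTA V l g h m r q hG hmpos hm22 hr1 hrm hm1 hm2 (by omega)
      hvl hv2 K (by
        intro ξ hξ x hx
        have hnp : ¬ p ∣ l ^ (m + r) := by
          intro hd
          have := (Nat.prime_dvd_prime_iff_eq hp hl).1 (hp.dvd_of_dvd_pow hd)
          omega
        exact hfr (l ^ (m + r)) (pow_ne_zero _ hl.ne_zero) hnp ξ hξ x hx)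
      (fun x => P i ∞ (x : OnePoint ℚ)) (hper i) (hPe i) (hPK i) ψ hψ1 hψ2 hψ3
    obtain ⟨w, rfl⟩ := Int.eq_ofNat_of_zero_le hu2
    have hw : w < l ^ m := by exact_mod_cast hu3
    refine ⟨⟨w, hw⟩, hu1, ?_⟩
    intro c e hce
    have h1 := hu4 c e hce
    change ∑ j ∈ range (l ^ m), z (e * j) • (small V).mkQ _ = 0
    simp only [hsmul]
    rw [← map_sum, ← LinearMap.mem_ker, Submodule.ker_mkQ, mem_small]
    simp only [hzexp]
    exact h1
  -- one symbol, one label and one residue class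
  obtain ⟨i, u, hu, hiu⟩ : ∃ (i : I) (u : ℤ), IsCoprime u (l : ℤ) ∧ ∀ n0, ∃ n o, n0 ≤ n ∧ 1 ≤ o ∧
      t ∣ o ∧ StarAt l m z (W i) n u ∧ StarAt l m z (W i) (n + o) u := by
    by_contra hno
    push Not at hno
    have h1 : ∀ x : I × Fin (l ^ m) × Fin t, ∀ᶠ n in Filter.atTop,
        ¬ ((IsCoprime ((x.2.1 : ℕ) : ℤ) (l : ℤ) ∧
          StarAt l m z (W x.1) n ((x.2.1 : ℕ) : ℤ)) ∧ n % t = x.2.2) := by
      intro x
      by_cases hx : IsCoprime ((x.2.1 : ℕ) : ℤ) (l : ℤ)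
      · obtain ⟨n0, hn0⟩ := hno x.1 _ hx
        by_contra hnev
        rw [Filter.not_eventually] at hnev
        obtain ⟨n, hn, hn'⟩ := Filter.frequently_atTop.1 hnev n0
        obtain ⟨n2, hn2, hn2'⟩ := Filter.frequently_atTop.1 hnev (n + 1)
        rw [not_not] at hn' hn2'
        obtain ⟨o, ho⟩ : ∃ o, n2 = n + o := ⟨n2 - n, by omega⟩
        refine hn0 n o hn (by omega) ?_ hn'.1.2 (by rw [← ho]; exact hn2'.1.2)
        have h3 : n + 0 ≡ n + o [MOD t] := by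
          show (n + 0) % t = (n + o) % t
          rw [add_zero, ← ho, hn'.2, hn2'.2]
        exact (Nat.modEq_zero_iff_dvd).1 (Nat.ModEq.add_left_cancel' n h3).symm
      · exact Filter.Eventually.of_forall fun n hn => hx hn.1.1
    have h2 := Filter.eventually_all.2 h1
    obtain ⟨n0, hn0⟩ := Filter.eventually_atTop.1 h2
    obtain ⟨n, hn, i, u, hu⟩ := hStar n0
    exact hn0 n hn ⟨i, u, ⟨n % t, Nat.mod_lt _ (by omega)⟩⟩ ⟨hu, rfl⟩
  -- all levels are fully bad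
  have hfull : ∀ E, v + 2 * m ≤ E → Full l m z (W i) E := by
    intro E hE
    obtain ⟨n, o, hn, ho1, hto, hs, hso⟩ := hiu (E + 5 * m + 2 * t + 2)
    refine descent (Full l m z (W i)) v m t n hmpos (by omega) ?_ ?_ E hE (by omega)
    · intro E' hE' h1 h2
      obtain ⟨d, hd⟩ : ∃ d, n = E' + d := ⟨n - E', by omega⟩
      rw [hd] at hs hso
      exact ht V (ℂ ⧸ small V) z hz v (chi i) (W i) (hQM i) u hu E' d o hE' (by omega) (by omega)
        ho1 hto hs hso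
    · intro E' hE' h1 h2
      exact ht V (ℂ ⧸ small V) z hz v (chi i) (W i) (hQM i) u hu E' m t hE' le_rfl (by omega)
        ht1 dvd_rfl (h1.star hmpos u hu) (h2.star hmpos u hu)
  obtain ⟨E, hE⟩ : ∃ E, E = v + 2 * m := ⟨_, rfl⟩
  have hfin := hMOD V (ℂ ⧸ small V) l m hl hmpos hlu z hz N0 v hN00 hN0c (chi i) (W i) (hQM i)
    (hdep i) E m 1 1 hE.ge le_rfl (by omega) isCoprime_one_left isCoprime_one_left
    ((hfull E hE.ge).star hmpos 1 isCoprime_one_left)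
    ((hfull (E + m) (by omega)).star hmpos 1 isCoprime_one_left) (fun t' ht' =>
      ⟨t', ht', dvd_rfl, (hfull (E + m + t') (by omega)).star hmpos 1 isCoprime_one_left⟩)
  obtain ⟨a1, b1, c1, d1, hdet, hc1, hd1, hval⟩ := hND i (l ^ (E + m) * (l ^ v * N0))
    (by
      have := pow_ne_zero (E + m) hl.ne_zero
      have := pow_ne_zero v hl.ne_zero
      positivity) (by rw [hNeq]; exact Dvd.intro_left _ rfl)
  rcases eq_or_ne c1 0 with h0 | h0
  · have h2 : Pool.Agent.MuSym.mob a1 b1 c1 d1 ∞ = ∞ := by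
      simp [Pool.Agent.MuSym.mob, h0]
    rw [h2, hinf, map_zero] at hval
    simp at hval
  · have h2 : Pool.Agent.MuSym.mob a1 b1 c1 d1 ∞ = (((a1 : ℚ) / c1 : ℚ) : OnePoint ℚ) := by
      simp [Pool.Agent.MuSym.mob, h0]
    rw [h2] at hval
    have h3 := hfin a1 b1 c1 d1 hdet hc1 hd1 h0
    change (small V).mkQ _ = 0 at h3
    rw [← LinearMap.mem_ker, Submodule.ker_mkQ, mem_small] at h3
    exact absurd h3 (not_lt.2 hval)


theorem a_FUL4 : S_FUL4 :=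
  have hE : S_EQV := t_EQV t_TWPb
  t_FUL4 t_TWPb (t_K4 t_TWPb (t_EDG hE) t_CST) t_TST

theorem a_TW4 : S_TW4 :=
  have hE : S_EQV := t_EQV t_TWPb
  have hK : S_KEY := t_KEY t_TWPb (t_EDG hE) t_CRT t_CST
  have hC : S_CLO := t_CLO t_TWPb hE hK
  have hM : S_MOD := t_MOD t_TWPb hC (t_SUM t_TWPb)
  m_TW4 a_FUL4 hM t_FRB (t_STA t_GPW (t_TRS t_TRI)) t_ZCH t_NFV

end Pool.Agent.TWR
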